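import Mathlib

/-!
# Groups acting on an interval by diffeomorphisms with Lipschitz derivative
-/

namespace Pool.Agent.H63.Crit

open Set Filter Topology

/-- An action of a group on an interval `I` (closed interval or the whole line) by increasing
diffeomorphisms with Lipschitz (logarithm of the) derivative. -/
structure Act (Γ : Type*) [Group Γ] (I : Set ℝ) where
  f : Γ → ℝ → ℝ
  d : Γ → ℝ → ℝ
  ord : I.OrdConnected
  f_one : ∀ x ∈ I, f 1 x = x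
  f_mul : ∀ g g' : Γ, ∀ x ∈ I, f (g * g') x = f g (f g' x)
  f_mem : ∀ g : Γ, ∀ x ∈ I, f g x ∈ I
  f_mono : ∀ g : Γ, StrictMonoOn (f g) I
  d_mul : ∀ g g' : Γ, ∀ x ∈ I, d (g * g') x = d g (f g' x) * d g' x
  d_pos : ∀ g : Γ, ∀ x ∈ I, 0 < d g x
  hasDeriv : ∀ g : Γ, ∀ x ∈ interior I, HasDerivAt (f g) (d g x) x
  cont : ∀ g : Γ, ContinuousOn (f g) I
  lip : ∀ g : Γ, ∃ K : ℝ, 0 ≤ K ∧ ∀ x ∈ I, ∀ y ∈ I, |d g x - d g y| ≤ K * |x - y|
  loglip : ∀ g : Γ, ∃ K : ℝ, 0 ≤ K ∧ ∀ x ∈ I, ∀ y ∈ I,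
    |Real.log (d g x) - Real.log (d g y)| ≤ K * |x - y|
  bdd : ∀ g : Γ, ∃ K : ℝ, ∀ x ∈ I, d g x ≤ K

namespace Act

variable {Γ : Type*} [Group Γ] {I : Set ℝ} (A : Act Γ I)

lemma inv_f (g : Γ) {x : ℝ} (hx : x ∈ I) : A.f g⁻¹ (A.f g x) = x := by
  rw [← A.f_mul _ _ x hx, inv_mul_cancel, A.f_one x hx]

lemma f_inv (g : Γ) {x : ℝ} (hx : x ∈ I) : A.f g (A.f g⁻¹ x) = x := by
  rw [← A.f_mul _ _ x hx, mul_inv_cancel, A.f_one x hx]

lemma d_one {x : ℝ} (hx : x ∈ I) : A.d 1 x = 1 := by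
  have h := A.d_mul 1 1 x hx
  rw [mul_one, A.f_one x hx] at h
  have hp := A.d_pos 1 x hx
  have : A.d 1 x * (A.d 1 x - 1) = 0 := by linarith
  rcases mul_eq_zero.mp this with h' | h'
  · exact absurd h' hp.ne'
  · linarith

lemma d_inv_mul (g : Γ) {x : ℝ} (hx : x ∈ I) : A.d g⁻¹ (A.f g x) * A.d g x = 1 := by
  rw [← A.d_mul _ _ x hx, inv_mul_cancel, A.d_one hx]

lemma lt_iff (g : Γ) {x y : ℝ} (hx : x ∈ I) (hy : y ∈ I) : A.f g x < A.f g y ↔ x < y :=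
  (A.f_mono g).lt_iff_lt hx hy

lemma le_iff (g : Γ) {x y : ℝ} (hx : x ∈ I) (hy : y ∈ I) : A.f g x ≤ A.f g y ↔ x ≤ y :=
  (A.f_mono g).le_iff_le hx hy

include A in
lemma mem_of_mem_Icc {x y z : ℝ} (hx : x ∈ I) (hy : y ∈ I) (hz : z ∈ Icc x y) : z ∈ I :=
  A.ord.out hx hy hz

include A in
lemma mem_of_mem_Ioo {x y z : ℝ} (hx : x ∈ I) (hy : y ∈ I) (hz : z ∈ Ioo x y) : z ∈ I :=
  A.ord.out hx hy (Ioo_subset_Icc_self hz)

include A in
lemma interior_of_mem_Ioo {x y z : ℝ} (hx : x ∈ I) (hy : y ∈ I) (hz : z ∈ Ioo x y) :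
    z ∈ interior I := by
  have : Ioo x y ⊆ interior I :=
    interior_maximal (fun w hw => A.mem_of_mem_Ioo hx hy hw) isOpen_Ioo
  exact this hz

lemma fix_inv (g : Γ) {x : ℝ} (hx : x ∈ I) (h : A.f g x = x) : A.f g⁻¹ x = x := by
  have := A.inv_f g hx
  rwa [h] at this

lemma fix_inv_iff (g : Γ) {x : ℝ} (hx : x ∈ I) : A.f g⁻¹ x = x ↔ A.f g x = x := by
  constructor
  · intro h; have := A.fix_inv g⁻¹ hx h; rwa [inv_inv] at this
  · exact A.fix_inv g hx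

lemma f_pow_succ (g : Γ) (n : ℕ) {x : ℝ} (hx : x ∈ I) :
    A.f (g ^ (n + 1)) x = A.f g (A.f (g ^ n) x) := by
  rw [pow_succ', A.f_mul _ _ x hx]

lemma f_pow_succ' (g : Γ) (n : ℕ) {x : ℝ} (hx : x ∈ I) :
    A.f (g ^ (n + 1)) x = A.f (g ^ n) (A.f g x) := by
  rw [pow_succ, A.f_mul _ _ x hx]

lemma fix_pow (g : Γ) (n : ℕ) {x : ℝ} (hx : x ∈ I) (h : A.f g x = x) : A.f (g ^ n) x = x := by
  induction n with
  | zero => rw [pow_zero, A.f_one x hx]
  | succ n ih => rw [A.f_pow_succ g n hx, ih, h]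

lemma inv_lt (g : Γ) {x : ℝ} (hx : x ∈ I) (h : x < A.f g x) : A.f g⁻¹ x < x := by
  rw [← A.lt_iff g (A.f_mem _ x hx) hx, A.f_inv g hx]
  exact h

lemma lt_inv (g : Γ) {x : ℝ} (hx : x ∈ I) (h : A.f g x < x) : x < A.f g⁻¹ x := by
  rw [← A.lt_iff g hx (A.f_mem _ x hx), A.f_inv g hx]
  exact h

lemma comm_f {g g' : Γ} (h : Commute g g') {x : ℝ} (hx : x ∈ I) :
    A.f g (A.f g' x) = A.f g' (A.f g x) := by
  rw [← A.f_mul _ _ x hx, ← A.f_mul _ _ x hx, h.eq]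

lemma pow_le (g : Γ) (n : ℕ) {x : ℝ} (hx : x ∈ I) (h : A.f g x ≤ x) : A.f (g ^ n) x ≤ x := by
  induction n with
  | zero => rw [pow_zero, A.f_one x hx]
  | succ n ih =>
    rw [A.f_pow_succ' g n hx]
    exact le_trans ((A.le_iff _ (A.f_mem _ x hx) hx).mpr h) ih

lemma le_pow (g : Γ) (n : ℕ) {x : ℝ} (hx : x ∈ I) (h : x ≤ A.f g x) : x ≤ A.f (g ^ n) x := by
  induction n with
  | zero => rw [pow_zero, A.f_one x hx]
  | succ n ih =>
    rw [A.f_pow_succ' g n hx]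
    exact le_trans ih ((A.le_iff _ hx (A.f_mem _ x hx)).mpr h)

lemma pow_lt (g : Γ) {n : ℕ} (hn : 1 ≤ n) {x : ℝ} (hx : x ∈ I) (h : A.f g x < x) :
    A.f (g ^ n) x < x := by
  obtain ⟨m, rfl⟩ : ∃ m, n = m + 1 := ⟨n - 1, by omega⟩
  rw [A.f_pow_succ' g m hx]
  exact lt_of_lt_of_le ((A.lt_iff _ (A.f_mem _ x hx) hx).mpr h) (A.pow_le g m hx h.le)

lemma lt_pow (g : Γ) {n : ℕ} (hn : 1 ≤ n) {x : ℝ} (hx : x ∈ I) (h : x < A.f g x) :
    x < A.f (g ^ n) x := by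
  obtain ⟨m, rfl⟩ : ∃ m, n = m + 1 := ⟨n - 1, by omega⟩
  rw [A.f_pow_succ' g m hx]
  exact lt_of_le_of_lt (A.le_pow g m hx h.le) ((A.lt_iff _ hx (A.f_mem _ x hx)).mpr h)

lemma fix_of_pow (g : Γ) {n : ℕ} (hn : 1 ≤ n) {x : ℝ} (hx : x ∈ I) (h : A.f (g ^ n) x = x) :
    A.f g x = x := by
  rcases lt_trichotomy (A.f g x) x with h' | h' | h'
  · exact absurd h (A.pow_lt g hn hx h').ne
  · exact h'
  · exact absurd h (A.lt_pow g hn hx h').ne'

lemma d_cont (g : Γ) : ContinuousOn (A.d g) I := by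
  obtain ⟨K, hK, h⟩ := A.lip g
  have : LipschitzOnWith (Real.toNNReal K) (A.d g) I := by
    apply LipschitzOnWith.of_dist_le_mul
    intro x hx y hy
    rw [Real.dist_eq, Real.dist_eq, Real.coe_toNNReal K hK]
    exact h x hx y hy
  exact this.continuousOn

/-- mean value theorem -/
lemma mvt (g : Γ) {x y : ℝ} (hx : x ∈ I) (hy : y ∈ I) (hxy : x < y) :
    ∃ ξ ∈ Ioo x y, A.f g y - A.f g x = A.d g ξ * (y - x) := by
  have hcont : ContinuousOn (A.f g) (Icc x y) :=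
    (A.cont g).mono (fun z hz => A.mem_of_mem_Icc hx hy hz)
  obtain ⟨ξ, hξ, h⟩ := exists_hasDerivAt_eq_slope (A.f g) (A.d g) hxy hcont
    (fun z hz => A.hasDeriv g z (A.interior_of_mem_Ioo hx hy hz))
  refine ⟨ξ, hξ, ?_⟩
  rw [h]
  field_simp [sub_ne_zero.mpr hxy.ne']

/-- derivative one between fixed points -/
lemma exists_d_eq_one (g : Γ) {x y : ℝ} (hx : x ∈ I) (hy : y ∈ I) (hxy : x < y)
    (h1 : A.f g x = x) (h2 : A.f g y = y) : ∃ ξ ∈ Ioo x y, A.d g ξ = 1 := by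
  obtain ⟨ξ, hξ, h⟩ := A.mvt g hx hy hxy
  refine ⟨ξ, hξ, ?_⟩
  rw [h1, h2] at h
  have : y - x ≠ 0 := sub_ne_zero.mpr hxy.ne'
  field_simp at h
  exact h.symm

/-- distortion of iterates -/
lemma dist_pow (g : Γ) {K : ℝ} (hK : ∀ x ∈ I, ∀ y ∈ I,
    |Real.log (A.d g x) - Real.log (A.d g y)| ≤ K * |x - y|) {x y : ℝ} (hx : x ∈ I) (hy : y ∈ I)
    (n : ℕ) : |Real.log (A.d (g ^ n) x) - Real.log (A.d (g ^ n) y)| ≤
      K * ∑ i ∈ Finset.range n, |A.f (g ^ i) x - A.f (g ^ i) y| := by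
  induction n with
  | zero => simp [A.d_one hx, A.d_one hy]
  | succ n ih =>
    rw [pow_succ', A.d_mul _ _ x hx, A.d_mul _ _ y hy,
      Real.log_mul (A.d_pos _ _ (A.f_mem _ x hx)).ne' (A.d_pos _ x hx).ne',
      Real.log_mul (A.d_pos _ _ (A.f_mem _ y hy)).ne' (A.d_pos _ y hy).ne',
      Finset.sum_range_succ, mul_add]
    have h1 := hK _ (A.f_mem (g ^ n) x hx) _ (A.f_mem (g ^ n) y hy)
    calc _ = |(Real.log (A.d (g ^ n) x) - Real.log (A.d (g ^ n) y)) +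
          (Real.log (A.d g (A.f (g ^ n) x)) - Real.log (A.d g (A.f (g ^ n) y)))| := by
          congr 1; ring
      _ ≤ _ := abs_add_le _ _
      _ ≤ _ := add_le_add ih h1

/-- from a bound on the logarithms to a bound on the quotient -/
lemma le_exp_mul {p q C : ℝ} (hp : 0 < p) (hq : 0 < q) (h : |Real.log p - Real.log q| ≤ C) :
    p ≤ Real.exp C * q := by
  have h1 : Real.log p ≤ C + Real.log q := by have := abs_le.mp h; linarith
  calc p = Real.exp (Real.log p) := (Real.exp_log hp).symm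
    _ ≤ Real.exp (C + Real.log q) := Real.exp_le_exp.mpr h1
    _ = Real.exp C * q := by rw [Real.exp_add, Real.exp_log hq]

/-- iterates of a fundamental domain -/
lemma sum_domain (g : Γ) {x₀ : ℝ} (hx₀ : x₀ ∈ I) (h : A.f g x₀ ≤ x₀) {x y : ℝ}
    (hx : x ∈ Icc (A.f g x₀) x₀) (hy : y ∈ Icc (A.f g x₀) x₀) (n : ℕ) :
    ∑ i ∈ Finset.range n, |A.f (g ^ i) x - A.f (g ^ i) y| ≤ x₀ - A.f (g ^ n) x₀ := by
  have hx1 : A.f g x₀ ∈ I := A.f_mem _ _ hx₀
  have hxI : x ∈ I := A.mem_of_mem_Icc hx1 hx₀ hx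
  have hyI : y ∈ I := A.mem_of_mem_Icc hx1 hx₀ hy
  induction n with
  | zero => simp [A.f_one x₀ hx₀]
  | succ n ih =>
    rw [Finset.sum_range_succ]
    have h1 : |A.f (g ^ n) x - A.f (g ^ n) y| ≤ A.f (g ^ n) x₀ - A.f (g ^ (n + 1)) x₀ := by
      rw [A.f_pow_succ' g n hx₀]
      have a1 := (A.le_iff (g ^ n) hxI hx₀).mpr hx.2
      have a2 := (A.le_iff (g ^ n) hx1 hxI).mpr hx.1
      have a3 := (A.le_iff (g ^ n) hyI hx₀).mpr hy.2
      have a4 := (A.le_iff (g ^ n) hx1 hyI).mpr hy.1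
      rw [abs_le]; constructor <;> linarith
    linarith

/-- convergence of orbits to the left end of a component -/
lemma tendsto_left (g : Γ) {z x₀ : ℝ} (hz : z ∈ I) (hx₀ : x₀ ∈ I) (hzx : z < x₀)
    (hfz : A.f g z = z) (h : ∀ x ∈ Ioc z x₀, A.f g x < x) :
    Tendsto (fun n : ℕ => A.f (g ^ n) x₀) atTop (𝓝 z) := by
  have hmem : ∀ n : ℕ, A.f (g ^ n) x₀ ∈ Ioc z x₀ := by
    intro n
    induction n with
    | zero => rw [pow_zero, A.f_one x₀ hx₀]; exact ⟨hzx, le_refl _⟩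
    | succ n ih =>
      rw [A.f_pow_succ g n hx₀]
      refine ⟨?_, (h _ ih).le.trans ih.2⟩
      have := (A.lt_iff g hz (A.f_mem _ _ hx₀)).mpr ih.1
      rwa [hfz] at this
  have hanti : Antitone (fun n : ℕ => A.f (g ^ n) x₀) := by
    apply antitone_nat_of_succ_le
    intro n
    rw [A.f_pow_succ g n hx₀]
    exact (h _ (hmem n)).le
  have hbdd : BddBelow (range (fun n : ℕ => A.f (g ^ n) x₀)) := by
    refine ⟨z, ?_⟩
    rintro _ ⟨n, rfl⟩
    exact (hmem n).1.le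
  have hlim := tendsto_atTop_ciInf hanti hbdd
  set L := ⨅ n : ℕ, A.f (g ^ n) x₀ with hL
  have hLz : z ≤ L := le_ciInf (fun n => (hmem n).1.le)
  have hLx : L ≤ x₀ := by
    have := ciInf_le hbdd 0
    exact this.trans (hmem 0).2
  have hLI : L ∈ I := A.mem_of_mem_Icc hz hx₀ ⟨hLz, hLx⟩
  have hfL : A.f g L = L := by
    have h1 : Tendsto (fun n : ℕ => A.f g (A.f (g ^ n) x₀)) atTop (𝓝 (A.f g L)) := by
      have hc := (A.cont g) L hLI
      apply hc.tendsto.comp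
      rw [tendsto_nhdsWithin_iff]
      exact ⟨hlim, Eventually.of_forall (fun n => A.f_mem _ _ hx₀)⟩
    have h2 : Tendsto (fun n : ℕ => A.f (g ^ (n + 1)) x₀) atTop (𝓝 L) :=
      hlim.comp (tendsto_add_atTop_nat 1)
    have h3 : (fun n : ℕ => A.f g (A.f (g ^ n) x₀)) = fun n : ℕ => A.f (g ^ (n + 1)) x₀ := by
      funext n; rw [A.f_pow_succ g n hx₀]
    rw [h3] at h1
    exact tendsto_nhds_unique h1 h2
  rcases hLz.eq_or_lt with h1 | h1
  · rw [h1]; exact hlim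
  · exact absurd hfL (h L ⟨h1, hLx⟩).ne

/-- orbits leave every interval without fixed points -/
lemma exists_pow_gt (g : Γ) {y' y : ℝ} (hy' : y' ∈ I) (hy : y ∈ I) (hyy : y' ≤ y)
    (h : ∀ x ∈ Icc y' y, x < A.f g x) : ∃ n₀ : ℕ, ∀ n ≥ n₀, y < A.f (g ^ n) y' := by
  have hg' : y' < A.f g y' := h y' ⟨le_refl _, hyy⟩
  have hmono : Monotone (fun n : ℕ => A.f (g ^ n) y') := by
    apply monotone_nat_of_le_succ
    intro n
    rw [A.f_pow_succ' g n hy']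
    exact ((A.le_iff _ hy' (A.f_mem _ _ hy')).mpr hg'.le)
  suffices hs : ∃ n₀ : ℕ, y < A.f (g ^ n₀) y' by
    obtain ⟨n₀, hn₀⟩ := hs
    exact ⟨n₀, fun n hn => lt_of_lt_of_le hn₀ (hmono hn)⟩
  by_contra hcon
  push Not at hcon
  have hmem : ∀ n : ℕ, A.f (g ^ n) y' ∈ Icc y' y := fun n => ⟨A.le_pow g n hy' hg'.le, hcon n⟩
  have hbdd : BddAbove (range (fun n : ℕ => A.f (g ^ n) y')) := by
    refine ⟨y, ?_⟩
    rintro _ ⟨n, rfl⟩
    exact hcon n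
  have hlim := tendsto_atTop_ciSup hmono hbdd
  set L := ⨆ n : ℕ, A.f (g ^ n) y' with hL
  have hLz : L ≤ y := ciSup_le (fun n => hcon n)
  have hLx : y' ≤ L := by
    have := le_ciSup hbdd 0
    exact (hmem 0).1.trans this
  have hLI : L ∈ I := A.mem_of_mem_Icc hy' hy ⟨hLx, hLz⟩
  have hfL : A.f g L = L := by
    have h1 : Tendsto (fun n : ℕ => A.f g (A.f (g ^ n) y')) atTop (𝓝 (A.f g L)) := by
      have hc := (A.cont g) L hLI
      apply hc.tendsto.comp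
      rw [tendsto_nhdsWithin_iff]
      exact ⟨hlim, Eventually.of_forall (fun n => A.f_mem _ _ hy')⟩
    have h2 : Tendsto (fun n : ℕ => A.f (g ^ (n + 1)) y') atTop (𝓝 L) :=
      hlim.comp (tendsto_add_atTop_nat 1)
    have h3 : (fun n : ℕ => A.f g (A.f (g ^ n) y')) = fun n : ℕ => A.f (g ^ (n + 1)) y' := by
      funext n; rw [A.f_pow_succ g n hy']
    rw [h3] at h1
    exact tendsto_nhds_unique h1 h2
  exact absurd hfL (h L ⟨hLx, hLz⟩).ne'

/-- iterates of a map have unbounded derivative near the end of a component -/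
lemma unbounded (g : Γ) {z y : ℝ} (hz : z ∈ I) (hy : y ∈ I) (hzy : z < y) (hgz : A.f g z = z)
    (h : ∀ x ∈ Ioc z y, x < A.f g x) {E : ℝ} {n : ℕ → ℕ} (hn : Tendsto n atTop atTop)
    (hE : ∀ j, ∀ x ∈ Ioo z y, A.d (g ^ n j) x ≤ E) : False := by
  have hE0 : 0 < E := by
    have hm : (z + y) / 2 ∈ Ioo z y := ⟨by linarith, by linarith⟩
    exact lt_of_lt_of_le (A.d_pos _ _ (A.mem_of_mem_Ioo hz hy hm)) (hE 0 _ hm)
  set δ := (y - z) / (2 * (E + 1)) with hδ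
  have hδ0 : 0 < δ := by
    have : 0 < y - z := by linarith
    positivity
  have hδ1 : δ < y - z := by
    rw [hδ, div_lt_iff₀ (by positivity)]
    have : 0 < y - z := by linarith
    nlinarith
  have hδE : E * δ < y - z := by
    rw [hδ, ← mul_div_assoc, div_lt_iff₀ (by positivity)]
    have : 0 < y - z := by linarith
    nlinarith
  have hy' : z + δ ∈ Ioo z y := ⟨by linarith, by linarith⟩
  have hy'I : z + δ ∈ I := A.mem_of_mem_Ioo hz hy hy'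
  obtain ⟨n₀, hn₀⟩ := A.exists_pow_gt g hy'I hy hy'.2.le
    (fun x hx => h x ⟨lt_of_lt_of_le hy'.1 hx.1, hx.2⟩)
  obtain ⟨j, hj⟩ := (hn.eventually_ge_atTop n₀).exists
  obtain ⟨ξ, hξ, hξ2⟩ := A.mvt (g ^ n j) hz hy'I hy'.1
  rw [A.fix_pow g (n j) hz hgz] at hξ2
  have h1 := hE j ξ ⟨hξ.1, hξ.2.trans hy'.2⟩
  have h2 := hn₀ (n j) hj
  have h3 : A.d (g ^ n j) ξ * (z + δ - z) ≤ E * δ := by
    have : z + δ - z = δ := by ring
    rw [this]
    exact mul_le_mul_of_nonneg_right h1 hδ0.le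
  linarith

/-- fixed point to the left -/
lemma exists_left (g : Γ) {x₀ y : ℝ} (hx₀ : x₀ ∈ I) (hy : y ∈ I) (hxy : x₀ ≤ y)
    (h1 : A.f g x₀ = x₀) (h2 : y < A.f g y) :
    ∃ α ∈ Ico x₀ y, A.f g α = α ∧ ∀ x ∈ Ioc α y, x < A.f g x := by
  set S := {x ∈ Icc x₀ y | A.f g x ≤ x} with hS
  have hsub : Icc x₀ y ⊆ I := fun z hz => A.mem_of_mem_Icc hx₀ hy hz
  have hcl : IsClosed S := by
    have : S = {x ∈ Icc x₀ y | A.f g x ≤ (fun t => t) x} := rfl
    rw [this]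
    exact isClosed_Icc.isClosed_le ((A.cont g).mono hsub) continuousOn_id
  have hne : S.Nonempty := ⟨x₀, ⟨le_refl _, hxy⟩, h1.le⟩
  have hbdd : BddAbove S := ⟨y, fun x hx => hx.1.2⟩
  have hα : sSup S ∈ S := hcl.csSup_mem hne hbdd
  set α := sSup S with hαdef
  have hαy : α < y := by
    rcases hα.1.2.eq_or_lt with h | h
    · have := hα.2
      rw [h] at this
      exact absurd h2 (not_lt.mpr this)
    · exact h
  have hafter : ∀ x ∈ Ioc α y, x < A.f g x := by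
    intro x hx
    by_contra hcon
    push Not at hcon
    have : x ∈ S := ⟨⟨hα.1.1.trans hx.1.le, hx.2⟩, hcon⟩
    exact absurd (le_csSup hbdd this) (not_le.mpr hx.1)
  have hαI := hsub hα.1
  refine ⟨α, ⟨hα.1.1, hαy⟩, le_antisymm hα.2 ?_, hafter⟩
  -- continuity from the right
  have hc : Tendsto (A.f g) (𝓝[Ioc α y] α) (𝓝 (A.f g α)) :=
    ((A.cont g) α hαI).mono_left (nhdsWithin_mono _
      (fun x hx => hsub ⟨hα.1.1.trans hx.1.le, hx.2⟩))
  have hid : Tendsto (fun x : ℝ => x) (𝓝[Ioc α y] α) (𝓝 α) := tendsto_id.mono_left nhdsWithin_le_nhds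
  have : (𝓝[Ioc α y] α).NeBot := by
    rw [nhdsWithin_Ioc_eq_nhdsGT hαy]; infer_instance
  apply le_of_tendsto_of_tendsto hid hc
  filter_upwards [self_mem_nhdsWithin] with x hx
  exact (hafter x hx).le

/-- fixed point to the right -/
lemma exists_right (g : Γ) {x₀ y : ℝ} (hx₀ : x₀ ∈ I) (hy : y ∈ I) (hxy : y ≤ x₀)
    (h1 : A.f g x₀ = x₀) (h2 : y < A.f g y) :
    ∃ β ∈ Ioc y x₀, A.f g β = β ∧ ∀ x ∈ Ico y β, x < A.f g x := by
  set S := {x ∈ Icc y x₀ | A.f g x ≤ x} with hS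
  have hsub : Icc y x₀ ⊆ I := fun z hz => A.mem_of_mem_Icc hy hx₀ hz
  have hcl : IsClosed S := by
    have : S = {x ∈ Icc y x₀ | A.f g x ≤ (fun t => t) x} := rfl
    rw [this]
    exact isClosed_Icc.isClosed_le ((A.cont g).mono hsub) continuousOn_id
  have hne : S.Nonempty := ⟨x₀, ⟨hxy, le_refl _⟩, h1.le⟩
  have hbdd : BddBelow S := ⟨y, fun x hx => hx.1.1⟩
  have hα : sInf S ∈ S := hcl.csInf_mem hne hbdd
  set α := sInf S with hαdef
  have hαy : y < α := by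
    rcases hα.1.1.eq_or_lt with h | h
    · have := hα.2
      rw [← h] at this
      exact absurd h2 (not_lt.mpr this)
    · exact h
  have hafter : ∀ x ∈ Ico y α, x < A.f g x := by
    intro x hx
    by_contra hcon
    push Not at hcon
    have : x ∈ S := ⟨⟨hx.1, hx.2.le.trans hα.1.2⟩, hcon⟩
    exact absurd (csInf_le hbdd this) (not_le.mpr hx.2)
  have hαI := hsub hα.1
  refine ⟨α, ⟨hαy, hα.1.2⟩, le_antisymm hα.2 ?_, hafter⟩
  -- continuity from the left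
  have hc : Tendsto (A.f g) (𝓝[Ico y α] α) (𝓝 (A.f g α)) :=
    ((A.cont g) α hαI).mono_left (nhdsWithin_mono _
      (fun x hx => hsub ⟨hx.1, hx.2.le.trans hα.1.2⟩))
  have hid : Tendsto (fun x : ℝ => x) (𝓝[Ico y α] α) (𝓝 α) := tendsto_id.mono_left nhdsWithin_le_nhds
  have : (𝓝[Ico y α] α).NeBot := by
    rw [nhdsWithin_Ico_eq_nhdsLT hαy]; infer_instance
  apply le_of_tendsto_of_tendsto hid hc
  filter_upwards [self_mem_nhdsWithin] with x hx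
  exact (hafter x hx).le

end Act

end Pool.Agent.H63.Crit
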