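import Mathlib

/-!
# Functions of class `C^{n,Lip}` with bounded derivatives
-/

namespace Pool.Agent.H63.Crit

open Set

/-- `φ` is Lipschitz on `s` -/
def Lip (s : Set ℝ) (φ : ℝ → ℝ) : Prop := ∃ K : ℝ, ∀ x ∈ s, ∀ y ∈ s, |φ x - φ y| ≤ K * |x - y|

/-- `φ` is bounded on `s` -/
def Bd (s : Set ℝ) (φ : ℝ → ℝ) : Prop := ∃ B : ℝ, ∀ x ∈ s, |φ x| ≤ B

/-- `φ` is of class `C^{n,Lip}` on `s` with all derivatives bounded -/
def CL (s : Set ℝ) : ℕ → (ℝ → ℝ) → Prop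
  | 0, φ => Lip s φ ∧ Bd s φ
  | n + 1, φ => DifferentiableOn ℝ φ s ∧ Bd s φ ∧ CL s n (derivWithin φ s)

variable {s : Set ℝ}

lemma CL.bd {n : ℕ} {φ : ℝ → ℝ} (h : CL s n φ) : Bd s φ := by
  cases n with
  | zero => exact h.2
  | succ n => exact h.2.1

lemma Lip.congr {φ ψ : ℝ → ℝ} (h : Lip s φ) (he : EqOn φ ψ s) : Lip s ψ := by
  obtain ⟨K, hK⟩ := h
  exact ⟨K, fun x hx y hy => by rw [← he hx, ← he hy]; exact hK x hx y hy⟩

lemma Bd.congr {φ ψ : ℝ → ℝ} (h : Bd s φ) (he : EqOn φ ψ s) : Bd s ψ := by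
  obtain ⟨K, hK⟩ := h
  exact ⟨K, fun x hx => by rw [← he hx]; exact hK x hx⟩

lemma CL.congr {n : ℕ} : ∀ {φ ψ : ℝ → ℝ}, CL s n φ → EqOn φ ψ s → CL s n ψ := by
  induction n with
  | zero => intro φ ψ h he; exact ⟨h.1.congr he, h.2.congr he⟩
  | succ n ih =>
    intro φ ψ h he
    refine ⟨h.1.congr (fun x hx => (he hx).symm), h.2.1.congr he, ih h.2.2 ?_⟩
    intro x hx
    exact derivWithin_congr he (he hx)

lemma lip_of_deriv_bd (hc : Convex ℝ s) {φ : ℝ → ℝ} (hd : DifferentiableOn ℝ φ s)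
    (hb : Bd s (derivWithin φ s)) : Lip s φ := by
  obtain ⟨B, hB⟩ := hb
  refine ⟨B, fun x hx y hy => ?_⟩
  have := hc.norm_image_sub_le_of_norm_derivWithin_le (f := φ) (C := B) hd
    (fun z hz => by rw [Real.norm_eq_abs]; exact hB z hz) hy hx
  rwa [Real.norm_eq_abs, Real.norm_eq_abs] at this

lemma CL.mono_succ (hc : Convex ℝ s) {n : ℕ} : ∀ {φ : ℝ → ℝ}, CL s (n + 1) φ → CL s n φ := by
  induction n with
  | zero => intro φ h; exact ⟨lip_of_deriv_bd hc h.1 h.2.2.bd, h.2.1⟩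
  | succ n ih => intro φ h; exact ⟨h.1, h.2.1, ih h.2.2⟩

lemma CL.mono (hc : Convex ℝ s) {n m : ℕ} (hnm : n ≤ m) {φ : ℝ → ℝ} (h : CL s m φ) : CL s n φ := by
  induction m with
  | zero => rw [Nat.le_zero.mp hnm]; exact h
  | succ m ih =>
    rcases Nat.lt_or_ge n (m + 1) with h' | h'
    · exact ih (by omega) (h.mono_succ hc)
    · rw [le_antisymm hnm h']; exact h

lemma Lip.add {φ ψ : ℝ → ℝ} (h : Lip s φ) (h' : Lip s ψ) : Lip s (φ + ψ) := by
  obtain ⟨K, hK⟩ := h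
  obtain ⟨K', hK'⟩ := h'
  refine ⟨K + K', fun x hx y hy => ?_⟩
  have e : (φ + ψ) x - (φ + ψ) y = (φ x - φ y) + (ψ x - ψ y) := by simp only [Pi.add_apply]; ring
  rw [e]
  have h1 := abs_add_le (φ x - φ y) (ψ x - ψ y)
  have h2 := hK x hx y hy
  have h3 := hK' x hx y hy
  linarith

lemma Bd.add {φ ψ : ℝ → ℝ} (h : Bd s φ) (h' : Bd s ψ) : Bd s (φ + ψ) := by
  obtain ⟨K, hK⟩ := h
  obtain ⟨K', hK'⟩ := h'
  refine ⟨K + K', fun x hx => ?_⟩
  have h1 := abs_add_le (φ x) (ψ x)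
  have h2 := hK x hx
  have h3 := hK' x hx
  simp only [Pi.add_apply]
  linarith

lemma Lip.mul {φ ψ : ℝ → ℝ} (h : Lip s φ) (h' : Lip s ψ) (b : Bd s φ) (b' : Bd s ψ) :
    Lip s (φ * ψ) := by
  obtain ⟨K, hK⟩ := h
  obtain ⟨K', hK'⟩ := h'
  obtain ⟨B, hB⟩ := b
  obtain ⟨B', hB'⟩ := b'
  refine ⟨K * B' + B * K', fun x hx y hy => ?_⟩
  have e : (φ * ψ) x - (φ * ψ) y = (φ x - φ y) * ψ x + φ y * (ψ x - ψ y) := by
    simp only [Pi.mul_apply]; ring
  rw [e]
  have h1 := abs_add_le ((φ x - φ y) * ψ x) (φ y * (ψ x - ψ y))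
  rw [abs_mul, abs_mul] at h1
  have h2 : |φ x - φ y| * |ψ x| ≤ (K * |x - y|) * B' := by
    apply mul_le_mul (hK x hx y hy) (hB' x hx) (abs_nonneg _)
    exact le_trans (abs_nonneg _) (hK x hx y hy)
  have h3 : |φ y| * |ψ x - ψ y| ≤ B * (K' * |x - y|) := by
    apply mul_le_mul (hB y hy) (hK' x hx y hy) (abs_nonneg _)
    exact le_trans (abs_nonneg _) (hB y hy)
  linarith

lemma Bd.mul {φ ψ : ℝ → ℝ} (h : Bd s φ) (h' : Bd s ψ) : Bd s (φ * ψ) := by
  obtain ⟨K, hK⟩ := h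
  obtain ⟨K', hK'⟩ := h'
  refine ⟨K * K', fun x hx => ?_⟩
  simp only [Pi.mul_apply, abs_mul]
  exact mul_le_mul (hK x hx) (hK' x hx) (abs_nonneg _) (le_trans (abs_nonneg _) (hK x hx))

lemma CL.add (hs : UniqueDiffOn ℝ s) {n : ℕ} : ∀ {φ ψ : ℝ → ℝ}, CL s n φ → CL s n ψ →
    CL s n (φ + ψ) := by
  induction n with
  | zero => intro φ ψ h h'; exact ⟨h.1.add h'.1, h.2.add h'.2⟩
  | succ n ih =>
    intro φ ψ h h'
    refine ⟨h.1.add h'.1, h.2.1.add h'.2.1, (ih h.2.2 h'.2.2).congr ?_⟩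
    intro x hx
    rw [derivWithin_add (h.1 x hx) (h'.1 x hx)]
    rfl

lemma CL.mul (hs : UniqueDiffOn ℝ s) (hc : Convex ℝ s) {n : ℕ} : ∀ {φ ψ : ℝ → ℝ}, CL s n φ →
    CL s n ψ → CL s n (φ * ψ) := by
  induction n with
  | zero => intro φ ψ h h'; exact ⟨h.1.mul h'.1 h.2 h'.2, h.2.mul h'.2⟩
  | succ n ih =>
    intro φ ψ h h'
    refine ⟨h.1.mul h'.1, h.2.1.mul h'.2.1, ?_⟩
    have h1 := (ih h.2.2 (h'.mono_succ hc)).add hs (ih (h.mono_succ hc) h'.2.2)
    apply h1.congr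
    intro x hx
    rw [derivWithin_mul (h.1 x hx) (h'.1 x hx)]
    rfl

lemma CL.neg (hs : UniqueDiffOn ℝ s) {n : ℕ} : ∀ {φ : ℝ → ℝ}, CL s n φ → CL s n (-φ) := by
  induction n with
  | zero =>
    intro φ h
    obtain ⟨⟨K, hK⟩, ⟨B, hB⟩⟩ := h
    refine ⟨⟨K, fun x hx y hy => ?_⟩, ⟨B, fun x hx => ?_⟩⟩
    · have e : (-φ) x - (-φ) y = -(φ x - φ y) := by simp only [Pi.neg_apply]; ring
      rw [e, abs_neg]; exact hK x hx y hy
    · simp only [Pi.neg_apply, abs_neg]; exact hB x hx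
  | succ n ih =>
    intro φ h
    obtain ⟨B, hB⟩ := h.2.1
    refine ⟨h.1.neg, ⟨B, fun x hx => by simp only [Pi.neg_apply, abs_neg]; exact hB x hx⟩,
      (ih h.2.2).congr ?_⟩
    intro x hx
    rw [derivWithin.neg]
    rfl

lemma CL.inv (hs : UniqueDiffOn ℝ s) (hc : Convex ℝ s) {n : ℕ} : ∀ {φ : ℝ → ℝ}, CL s n φ →
    (∃ c > 0, ∀ x ∈ s, c ≤ φ x) → CL s n (fun x => (φ x)⁻¹) := by
  have hbd : ∀ {φ : ℝ → ℝ}, (∃ c > 0, ∀ x ∈ s, c ≤ φ x) → Bd s (fun x => (φ x)⁻¹) := by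
    rintro φ ⟨c, hc0, hcx⟩
    refine ⟨c⁻¹, fun x hx => ?_⟩
    have h1 := hcx x hx
    rw [abs_of_nonneg (inv_nonneg.mpr (by linarith))]
    exact inv_anti₀ hc0 h1
  induction n with
  | zero =>
    intro φ h hpos
    refine ⟨?_, hbd hpos⟩
    obtain ⟨c, hc0, hcx⟩ := hpos
    obtain ⟨K, hK⟩ := h.1
    refine ⟨K / c ^ 2, fun x hx y hy => ?_⟩
    have h1 := hcx x hx
    have h2 := hcx y hy
    have hx0 : 0 < φ x := by linarith
    have hy0 : 0 < φ y := by linarith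
    have e : (φ x)⁻¹ - (φ y)⁻¹ = (φ y - φ x) / (φ x * φ y) := by
      field_simp
    rw [e, abs_div, abs_of_pos (mul_pos hx0 hy0), abs_sub_comm, div_mul_eq_mul_div]
    apply div_le_div₀ _ (hK x hx y hy) (by positivity) _
    · exact le_trans (abs_nonneg _) (hK x hx y hy)
    · rw [sq]; exact mul_le_mul h1 h2 hc0.le hx0.le
  | succ n ih =>
    intro φ h hpos
    have hinv := ih (h.mono_succ hc) hpos
    have hne : ∀ x ∈ s, φ x ≠ 0 := by
      obtain ⟨c, hc0, hcx⟩ := hpos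
      intro x hx; have := hcx x hx; linarith
    refine ⟨h.1.inv hne, hbd hpos, ?_⟩
    have h1 := ((h.2.2).neg hs).mul hs hc (hinv.mul hs hc hinv)
    apply h1.congr
    intro x hx
    have h2 : HasDerivWithinAt (fun x => (φ x)⁻¹) (-(derivWithin φ s x) / (φ x) ^ 2) s x :=
      ((h.1 x hx).hasDerivWithinAt).inv (hne x hx)
    rw [h2.derivWithin (hs x hx)]
    have := hne x hx
    simp only [Pi.mul_apply, Pi.neg_apply]
    field_simp

lemma CL.comp (hs : UniqueDiffOn ℝ s) (hc : Convex ℝ s) {g : ℝ → ℝ} (hmaps : MapsTo g s s)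
    (hgd : DifferentiableOn ℝ g s) (hgl : Lip s g) {n : ℕ} : ∀ {φ : ℝ → ℝ}, CL s n φ →
    (n = 0 ∨ CL s (n - 1) (derivWithin g s)) → CL s n (φ ∘ g) := by
  have hbd : ∀ {φ : ℝ → ℝ}, Bd s φ → Bd s (φ ∘ g) := by
    rintro φ ⟨B, hB⟩
    exact ⟨B, fun x hx => hB _ (hmaps hx)⟩
  induction n with
  | zero =>
    intro φ h _
    refine ⟨?_, hbd h.2⟩
    obtain ⟨K, hK⟩ := h.1
    obtain ⟨L, hL⟩ := hgl
    refine ⟨|K| * L, fun x hx y hy => ?_⟩
    calc |(φ ∘ g) x - (φ ∘ g) y| ≤ K * |g x - g y| := hK _ (hmaps hx) _ (hmaps hy)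
      _ ≤ |K| * |g x - g y| := mul_le_mul_of_nonneg_right (le_abs_self K) (abs_nonneg _)
      _ ≤ |K| * (L * |x - y|) := mul_le_mul_of_nonneg_left (hL x hx y hy) (abs_nonneg _)
      _ = |K| * L * |x - y| := by ring
  | succ n ih =>
    intro φ h hg
    rw [Nat.add_sub_cancel] at hg
    have hg' : CL s n (derivWithin g s) := by
      rcases hg with h | h
      · omega
      · exact h
    refine ⟨h.1.comp hgd hmaps, hbd h.2.1, ?_⟩
    have h1 : CL s n (derivWithin φ s ∘ g) := by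
      apply ih h.2.2
      cases n with
      | zero => exact Or.inl rfl
      | succ n => exact Or.inr (hg'.mono_succ hc)
    apply (h1.mul hs hc hg').congr
    intro x hx
    have h2 : HasDerivWithinAt (φ ∘ g) (derivWithin φ s (g x) * derivWithin g s x) s x :=
      HasDerivWithinAt.comp x ((h.1 _ (hmaps hx)).hasDerivWithinAt)
        ((hgd x hx).hasDerivWithinAt) hmaps
    rw [h2.derivWithin (hs x hx)]
    rfl

/-- from `CL` to the usual notions -/
lemma CL.contDiffOn (hs : UniqueDiffOn ℝ s) {n : ℕ} : ∀ {φ : ℝ → ℝ}, CL s n φ →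
    ContDiffOn ℝ n φ s ∧ Lip s (iteratedDerivWithin n φ s) := by
  induction n with
  | zero =>
    intro φ h
    rw [iteratedDerivWithin_zero]
    refine ⟨?_, h.1⟩
    obtain ⟨K, hK⟩ := h.1
    rw [Nat.cast_zero, contDiffOn_zero]
    have : LipschitzOnWith (Real.toNNReal |K|) φ s := by
      apply LipschitzOnWith.of_dist_le_mul
      intro x hx y hy
      rw [Real.dist_eq, Real.dist_eq, Real.coe_toNNReal _ (abs_nonneg K)]
      exact (hK x hx y hy).trans (mul_le_mul_of_nonneg_right (le_abs_self K) (abs_nonneg _))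
    exact this.continuousOn
  | succ n ih =>
    intro φ h
    obtain ⟨h1, h2⟩ := ih h.2.2
    rw [iteratedDerivWithin_succ']
    refine ⟨?_, h2⟩
    have : ContDiffOn ℝ ((n : WithTop ℕ∞) + 1) φ s := by
      rw [contDiffOn_succ_iff_derivWithin hs]
      exact ⟨h.1, fun h => absurd h (by simp), h1⟩
    exact_mod_cast this

/-- from the usual notions to `CL` -/
lemma CL.of_contDiffOn (hs : UniqueDiffOn ℝ s) {n : ℕ} : ∀ {φ : ℝ → ℝ}, ContDiffOn ℝ n φ s →
    Lip s (iteratedDerivWithin n φ s) → (∀ i ≤ n, Bd s (iteratedDerivWithin i φ s)) →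
    CL s n φ := by
  induction n with
  | zero =>
    intro φ _ h1 h2
    have h3 := h2 0 (le_refl _)
    rw [iteratedDerivWithin_zero] at h1 h3
    exact ⟨h1, h3⟩
  | succ n ih =>
    intro φ h h1 h2
    have h' : ContDiffOn ℝ ((n : WithTop ℕ∞) + 1) φ s := by exact_mod_cast h
    rw [contDiffOn_succ_iff_derivWithin hs] at h'
    have h3 := h2 0 (by omega)
    rw [iteratedDerivWithin_zero] at h3
    refine ⟨h'.1, h3, ih h'.2.2 ?_ ?_⟩
    · rw [← iteratedDerivWithin_succ']; exact h1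
    · intro i hi
      rw [← iteratedDerivWithin_succ']
      exact h2 (i + 1) (by omega)

lemma Lip.lipschitzOnWith {φ : ℝ → ℝ} (h : Lip s φ) : ∃ C, LipschitzOnWith C φ s := by
  obtain ⟨K, hK⟩ := h
  refine ⟨Real.toNNReal |K|, ?_⟩
  apply LipschitzOnWith.of_dist_le_mul
  intro x hx y hy
  rw [Real.dist_eq, Real.dist_eq, Real.coe_toNNReal _ (abs_nonneg K)]
  exact (hK x hx y hy).trans (mul_le_mul_of_nonneg_right (le_abs_self K) (abs_nonneg _))

lemma Lip.of_lipschitzOnWith {φ : ℝ → ℝ} {C : NNReal} (h : LipschitzOnWith C φ s) : Lip s φ := by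
  refine ⟨C, fun x hx y hy => ?_⟩
  have := h.dist_le_mul x hx y hy
  rwa [Real.dist_eq, Real.dist_eq] at this

/-- composition of diffeomorphisms of class `C^{k,Lip}` -/
lemma cl_comp (hs : UniqueDiffOn ℝ s) (hc : Convex ℝ s) {n : ℕ} {F G : ℝ → ℝ}
    (hG : MapsTo G s s) (hFd : DifferentiableOn ℝ F s) (hGd : DifferentiableOn ℝ G s)
    (hF : CL s n (derivWithin F s)) (hG' : CL s n (derivWithin G s)) :
    CL s n (derivWithin (F ∘ G) s) := by
  have hgl : Lip s G := lip_of_deriv_bd hc hGd hG'.bd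
  have h1 : CL s n (derivWithin F s ∘ G) := by
    apply CL.comp hs hc hG hGd hgl hF
    cases n with
    | zero => exact Or.inl rfl
    | succ n => exact Or.inr (hG'.mono_succ hc)
  apply (h1.mul hs hc hG').congr
  intro x hx
  have h2 : HasDerivWithinAt (F ∘ G) (derivWithin F s (G x) * derivWithin G s x) s x :=
    HasDerivWithinAt.comp x ((hFd _ (hG hx)).hasDerivWithinAt) ((hGd x hx).hasDerivWithinAt) hG
  rw [h2.derivWithin (hs x hx)]
  rfl

/-- inverses of diffeomorphisms of class `C^{k,Lip}` -/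
lemma cl_inv (hs : UniqueDiffOn ℝ s) (hc : Convex ℝ s) {n : ℕ} {F G : ℝ → ℝ}
    (hG : MapsTo G s s) (hFd : DifferentiableOn ℝ F s) (hGd : DifferentiableOn ℝ G s)
    (hFG : ∀ x ∈ s, F (G x) = x) (hpos : ∃ c > 0, ∀ x ∈ s, c ≤ derivWithin F s x)
    (hF : CL s n (derivWithin F s)) : CL s n (derivWithin G s) := by
  have hG' : EqOn (fun x => ((derivWithin F s ∘ G) x)⁻¹) (derivWithin G s) s := by
    intro x hx
    have h2 : HasDerivWithinAt (F ∘ G) (derivWithin F s (G x) * derivWithin G s x) s x :=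
      HasDerivWithinAt.comp x ((hFd _ (hG hx)).hasDerivWithinAt) ((hGd x hx).hasDerivWithinAt) hG
    have h3 : HasDerivWithinAt (F ∘ G) 1 s x :=
      (hasDerivWithinAt_id x s).congr (fun y hy => hFG y hy) (hFG x hx)
    have h4 := (hs x hx).eq_deriv _ h2 h3
    have h5 : derivWithin F s (G x) ≠ 0 := by
      intro h0; rw [h0, zero_mul] at h4; exact zero_ne_one h4
    simp only [Function.comp]
    field_simp
    linarith
  have hpos' : ∃ c > 0, ∀ x ∈ s, c ≤ (derivWithin F s ∘ G) x := by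
    obtain ⟨c, hc0, hcx⟩ := hpos
    exact ⟨c, hc0, fun x hx => hcx _ (hG hx)⟩
  have hbd : Bd s (derivWithin G s) := by
    apply Bd.congr _ hG'
    obtain ⟨c, hc0, hcx⟩ := hpos'
    refine ⟨c⁻¹, fun x hx => ?_⟩
    have h1 := hcx x hx
    rw [abs_of_nonneg (inv_nonneg.mpr (by linarith))]
    exact inv_anti₀ hc0 h1
  have hgl : Lip s G := lip_of_deriv_bd hc hGd hbd
  have key : ∀ j ≤ n, CL s j (derivWithin G s) := by
    intro j
    induction j with
    | zero =>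
      intro _
      exact ((CL.comp hs hc hG hGd hgl (hF.mono hc (Nat.zero_le n)) (Or.inl rfl)).inv hs hc
        hpos').congr hG'
    | succ j ih =>
      intro hj
      have h1 := ih (by omega)
      exact ((CL.comp hs hc hG hGd hgl (hF.mono hc hj) (Or.inr h1)).inv hs hc hpos').congr hG'
  exact key n (le_refl _)

end Pool.Agent.H63.Crit
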