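import Pool.Agent.H63.Crit.Defs
import Pool.Agent.H63.Crit.CL
import Pool.Agent.H63.Crit.Act

/-!
# Actions given by groups of diffeomorphisms
-/

namespace Pool.Agent.H63.Crit

open Set Filter Topology

lemma loglip_of {I : Set ℝ} {d : ℝ → ℝ} {c K : ℝ} (hc : 0 < c) (hd : ∀ x ∈ I, c ≤ d x)
    (hK : ∀ x ∈ I, ∀ y ∈ I, |d x - d y| ≤ K * |x - y|) :
    ∀ x ∈ I, ∀ y ∈ I, |Real.log (d x) - Real.log (d y)| ≤ K / c * |x - y| := by
  have key : ∀ x ∈ I, ∀ y ∈ I, Real.log (d x) - Real.log (d y) ≤ K / c * |x - y| := by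
    intro x hx y hy
    have h1 := hd x hx
    have h2 := hd y hy
    have hx0 : 0 < d x := by linarith
    have hy0 : 0 < d y := by linarith
    rw [← Real.log_div hx0.ne' hy0.ne']
    calc Real.log (d x / d y) ≤ d x / d y - 1 := Real.log_le_sub_one_of_pos (by positivity)
      _ = (d x - d y) / d y := by field_simp
      _ ≤ |d x - d y| / c := by
          apply div_le_div₀ (abs_nonneg _) (le_abs_self _) hc h2
      _ ≤ (K * |x - y|) / c := by
          apply div_le_div_of_nonneg_right (hK x hx y hy) hc.le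
      _ = K / c * |x - y| := by ring
  intro x hx y hy
  rw [abs_le]
  constructor
  · have := key y hy x hx
    rw [abs_sub_comm] at this
    linarith
  · exact key x hx y hy

/-- The action of `Diff₊^k([0,1])`, `k ≥ 2`. -/
noncomputable def actI (k : ℕ) (hk : 2 ≤ k) : Act (DiffI k) (Icc (0:ℝ) 1) :=
  have hu : UniqueDiffOn ℝ (Icc (0:ℝ) 1) := uniqueDiffOn_Icc zero_lt_one
  have hdiff : ∀ e : DiffI k, DifferentiableOn ℝ (extI e.1) (Icc 0 1) := fun e =>
    e.2.2.1.differentiableOn (by norm_cast; omega)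
  have hmul : ∀ g g' : DiffI k, ∀ x ∈ Icc (0:ℝ) 1, derivWithin (extI (g * g').1) (Icc 0 1) x =
      derivWithin (extI g.1) (Icc 0 1) (extI g'.1 x) * derivWithin (extI g'.1) (Icc 0 1) x := by
    intro g g' x hx
    have e1 : extI (g * g').1 = extI g.1 ∘ extI g'.1 := funext (extI_mul g.1 g'.1)
    rw [e1]
    exact (HasDerivWithinAt.comp x ((hdiff g _ (extI_mem _ _)).hasDerivWithinAt)
      ((hdiff g' x hx).hasDerivWithinAt) (fun y _ => extI_mem _ _)).derivWithin (hu x hx)
  have hmono : ∀ g : DiffI k, StrictMonoOn (extI g.1) (Icc 0 1) := by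
    intro g x hx y hy hxy
    rw [extI_of_mem _ hx, extI_of_mem _ hy]
    exact g.2.1 hxy
  have hone : ∀ x ∈ Icc (0:ℝ) 1, derivWithin (extI (1 : DiffI k).1) (Icc 0 1) x = 1 := by
    intro x hx
    have : HasDerivWithinAt (extI (1 : DiffI k).1) 1 (Icc 0 1) x :=
      (hasDerivWithinAt_id x _).congr (fun y hy => extI_one hy) (extI_one hx)
    exact this.derivWithin (hu x hx)
  have hpos : ∀ g : DiffI k, ∀ x ∈ Icc (0:ℝ) 1, 0 < derivWithin (extI g.1) (Icc 0 1) x := by
    intro g x hx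
    have h1 : 0 ≤ derivWithin (extI g.1) (Icc 0 1) x := (hmono g).monotoneOn.derivWithin_nonneg
    rcases h1.eq_or_lt with h2 | h2
    · exfalso
      have h3 := hmul g⁻¹ g x hx
      rw [← h2, mul_zero, inv_mul_cancel, hone x hx] at h3
      exact one_ne_zero h3
    · exact h2
  have hcd : ∀ g : DiffI k, ContDiffOn ℝ 1 (derivWithin (extI g.1) (Icc 0 1)) (Icc 0 1) := fun g =>
    g.2.2.1.derivWithin hu (by norm_cast)
  have hlip : ∀ g : DiffI k, ∃ K : ℝ, 0 ≤ K ∧ ∀ x ∈ Icc (0:ℝ) 1, ∀ y ∈ Icc (0:ℝ) 1,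
      |derivWithin (extI g.1) (Icc 0 1) x - derivWithin (extI g.1) (Icc 0 1) y| ≤
      K * |x - y| := by
    intro g
    have h1 : ContinuousOn (derivWithin (derivWithin (extI g.1) (Icc 0 1)) (Icc 0 1)) (Icc 0 1) :=
      (hcd g).continuousOn_derivWithin hu (le_refl _)
    obtain ⟨B, hB⟩ := isCompact_Icc.exists_bound_of_continuousOn h1
    obtain ⟨K, hK⟩ := lip_of_deriv_bd (convex_Icc 0 1) ((hcd g).differentiableOn (by norm_num))
      ⟨B, fun x hx => hB x hx⟩
    exact ⟨|K|, abs_nonneg K, fun x hx y hy => (hK x hx y hy).trans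
      (mul_le_mul_of_nonneg_right (le_abs_self K) (abs_nonneg _))⟩
  have hlow : ∀ g : DiffI k, ∃ c > 0, ∀ x ∈ Icc (0:ℝ) 1,
      c ≤ derivWithin (extI g.1) (Icc 0 1) x := by
    intro g
    obtain ⟨x₀, hx₀, hmin⟩ := isCompact_Icc.exists_isMinOn (nonempty_Icc.mpr zero_le_one)
      (hcd g).continuousOn
    exact ⟨_, hpos g x₀ hx₀, fun x hx => hmin hx⟩
  { f := fun g => extI g.1
    d := fun g => derivWithin (extI g.1) (Icc 0 1)
    ord := ordConnected_Icc
    f_one := fun x hx => extI_one hx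
    f_mul := fun g g' x _ => extI_mul g.1 g'.1 x
    f_mem := fun g x _ => extI_mem g.1 x
    f_mono := hmono
    d_mul := hmul
    d_pos := hpos
    hasDeriv := fun g x hx => by
      have hx' : x ∈ Icc (0:ℝ) 1 := interior_subset hx
      exact ((hdiff g x hx').hasDerivWithinAt).hasDerivAt (mem_interior_iff_mem_nhds.mp hx)
    cont := fun g => g.2.2.1.continuousOn
    lip := hlip
    loglip := fun g => by
      obtain ⟨c, hc0, hc⟩ := hlow g
      obtain ⟨K, hK0, hK⟩ := hlip g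
      exact ⟨K / c, by positivity, loglip_of hc0 hc hK⟩
    bdd := fun g => by
      obtain ⟨B, hB⟩ := isCompact_Icc.exists_bound_of_continuousOn (hcd g).continuousOn
      exact ⟨B, fun x hx => (le_abs_self _).trans (hB x hx)⟩ }

end Pool.Agent.H63.Crit
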