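import Pool.Agent.H63.Crit.ToolA

/-!
# Dynamics of Baumslag-Solitar pairs on a compact interval
-/

namespace Pool.Agent.H63.Crit

open Set Filter Topology

namespace Act

variable {Γ : Type*} [Group Γ] {a b : ℝ} (A : Act Γ (Icc a b))

lemma inv_pow_succ (h : Γ) (j : ℕ) {x : ℝ} (hx : x ∈ Icc a b) :
    A.f (h ^ (j + 1))⁻¹ x = A.f (h ^ j)⁻¹ (A.f h⁻¹ x) := by
  rw [pow_succ', mul_inv_rev, A.f_mul _ _ x hx]

lemma inv_pow_succ' (h : Γ) (j : ℕ) {x : ℝ} (hx : x ∈ Icc a b) :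
    A.f (h ^ (j + 1))⁻¹ x = A.f h⁻¹ (A.f (h ^ j)⁻¹ x) := by
  rw [pow_succ, mul_inv_rev, A.f_mul _ _ x hx]

/-- bounded derivatives of the powers of `T` -/
lemma bs_bound {h T : Γ} {m : ℕ} (hBS : h * T * h⁻¹ = T ^ m) {z w : ℝ} (hz : z ∈ Icc a b)
    (hw : w ∈ Icc a b)
    (hTz : ∀ j : ℕ, A.f T (A.f (h ^ j)⁻¹ z) = A.f (h ^ j)⁻¹ z)
    (hTw : ∀ j : ℕ, A.f T (A.f (h ^ j)⁻¹ w) = A.f (h ^ j)⁻¹ w) {L : ℝ}
    (hsum : ∀ n : ℕ, ∑ j ∈ Finset.range n,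
      (A.f (h ^ (j + 1))⁻¹ w - A.f (h ^ (j + 1))⁻¹ z) ≤ L) :
    ∃ E, ∀ n : ℕ, ∀ x ∈ Ioo z w, A.d (T ^ (m ^ n)) x ≤ E := by
  obtain ⟨K, hK0, hK⟩ := A.loglip h
  obtain ⟨B, hB⟩ := A.bdd T
  refine ⟨Real.exp (K * L) * B, ?_⟩
  intro n x hx
  have hxI : x ∈ Icc a b := A.mem_of_mem_Ioo hz hw hx
  set y := A.f (h ^ n)⁻¹ x with hy
  have hyI : y ∈ Icc a b := A.f_mem _ _ hxI
  have hTyI : A.f T y ∈ Icc a b := A.f_mem _ _ hyI
  have hy1 : A.f (h ^ n)⁻¹ z < y := (A.lt_iff _ hz hxI).mpr hx.1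
  have hy2 : y < A.f (h ^ n)⁻¹ w := (A.lt_iff _ hxI hw).mpr hx.2
  have hTy1 : A.f (h ^ n)⁻¹ z < A.f T y := by
    rw [← hTz n]; exact (A.lt_iff _ (A.f_mem _ _ hz) hyI).mpr hy1
  have hTy2 : A.f T y < A.f (h ^ n)⁻¹ w := by
    rw [← hTw n]; exact (A.lt_iff _ hyI (A.f_mem _ _ hw)).mpr hy2
  have hxy : A.f (h ^ n) y = x := by rw [hy, A.f_inv _ hxI]
  have h1 : A.d (T ^ (m ^ n)) x = A.d (h ^ n) (A.f T y) * A.d T y * A.d (h ^ n)⁻¹ x := by
    rw [← bs_pow hBS n, A.d_mul _ _ x hxI, A.d_mul _ _ _ hyI]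
  have h2 : A.d (h ^ n)⁻¹ x * A.d (h ^ n) y = 1 := by
    have := A.d_inv_mul (h ^ n) hyI
    rwa [hxy] at this
  have h3 : |Real.log (A.d (h ^ n) (A.f T y)) - Real.log (A.d (h ^ n) y)| ≤ K * L := by
    refine le_trans (A.dist_pow h hK hTyI hyI n) ?_
    apply mul_le_mul_of_nonneg_left _ hK0
    refine le_trans ?_ (hsum n)
    rw [← Finset.sum_range_reflect (fun j => A.f (h ^ (j + 1))⁻¹ w - A.f (h ^ (j + 1))⁻¹ z)]
    apply Finset.sum_le_sum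
    intro i hi
    rw [Finset.mem_range] at hi
    have e0 : ∀ v ∈ Icc a b, A.f (h ^ i) (A.f (h ^ n)⁻¹ v) = A.f (h ^ (n - 1 - i + 1))⁻¹ v := by
      intro v hv
      rw [← A.f_mul _ _ v hv]
      congr 1
      have : n = (n - 1 - i + 1) + i := by omega
      conv_lhs => rw [this]
      rw [pow_add, mul_inv_rev]
      group
    rw [← e0 w hw, ← e0 z hz]
    have a1 := (A.lt_iff (h ^ i) (A.f_mem _ _ hz) hyI).mpr hy1
    have a2 := (A.lt_iff (h ^ i) hyI (A.f_mem _ _ hw)).mpr hy2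
    have a3 := (A.lt_iff (h ^ i) (A.f_mem _ _ hz) hTyI).mpr hTy1
    have a4 := (A.lt_iff (h ^ i) hTyI (A.f_mem _ _ hw)).mpr hTy2
    rw [abs_le]; constructor <;> linarith
  have hp1 := A.d_pos (h ^ n) (A.f T y) hTyI
  have hp2 := A.d_pos (h ^ n) y hyI
  have hp3 := A.d_pos T y hyI
  have hp4 := A.d_pos (h ^ n)⁻¹ x hxI
  have h4 := le_exp_mul hp1 hp2 h3
  have h5 := hB y hyI
  rw [h1]
  calc A.d (h ^ n) (A.f T y) * A.d T y * A.d (h ^ n)⁻¹ x
      ≤ (Real.exp (K * L) * A.d (h ^ n) y) * A.d T y * A.d (h ^ n)⁻¹ x := by gcongr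
    _ = Real.exp (K * L) * A.d T y * (A.d (h ^ n)⁻¹ x * A.d (h ^ n) y) := by ring
    _ = Real.exp (K * L) * A.d T y := by rw [h2, mul_one]
    _ ≤ Real.exp (K * L) * B := by gcongr

/-- components of the support of `T` are invariant under `h` -/
theorem F1 {h T : Γ} {m : ℕ} (hm : 2 ≤ m) (hBS : h * T * h⁻¹ = T ^ m) {z w : ℝ}
    (hz : z ∈ Icc a b) (hw : w ∈ Icc a b) (hzw : z < w) (hTz : A.f T z = z) (hTw : A.f T w = w)
    (hT : ∀ y ∈ Ioo z w, A.f T y < y) : A.f h z = z ∧ A.f h w = w := by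
  have fixT : ∀ j : ℕ, ∀ y ∈ Icc a b, A.f T y = y → A.f T (A.f (h ^ j)⁻¹ y) = A.f (h ^ j)⁻¹ y := by
    intro j y hy hTy
    have h1 : (h ^ j)⁻¹ * T ^ (m ^ j) = T * (h ^ j)⁻¹ := by rw [← bs_pow hBS j]; group
    rw [← A.f_mul _ _ y hy, ← h1, A.f_mul _ _ y hy, A.fix_pow T _ hy hTy]
  have fixback : ∀ y ∈ Icc a b, A.f T y = y → A.f T (A.f h y) = A.f h y := by
    intro y hy hTy
    apply A.fix_of_pow T (n := m) (by omega) (A.f_mem _ _ hy)
    rw [← hBS, ← A.f_mul _ _ y hy]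
    have : h * T * h⁻¹ * h = h * T := by group
    rw [this, A.f_mul _ _ y hy, hTy]
  have hTiz : A.f T⁻¹ z = z := A.fix_inv T hz hTz
  have e1 : ∀ v ∈ Icc a b, A.f (h ^ 0)⁻¹ v = v := by
    intro v hv; rw [pow_zero, inv_one, A.f_one v hv]
  -- the left end
  have hleft : A.f h z = z := by
    by_contra hne
    have hbd : ∃ L, ∀ n : ℕ, ∑ j ∈ Finset.range n,
      (A.f (h ^ (j + 1))⁻¹ w - A.f (h ^ (j + 1))⁻¹ z) ≤ L := by
      rcases lt_or_gt_of_ne hne with hlt | hgt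
      · -- `h z < z`
        have h1 : w ≤ A.f h⁻¹ z := by
          by_contra hcon
          push Not at hcon
          have h2 : z < A.f h⁻¹ z := A.lt_inv h hz hlt
          have h3 := fixT 1 z hz hTz
          rw [pow_one] at h3
          have h4 := hT _ ⟨h2, hcon⟩
          linarith
        refine ⟨b - a, fun n => ?_⟩
        have h5 : ∑ j ∈ Finset.range n, (A.f (h ^ (j + 1))⁻¹ w - A.f (h ^ (j + 1))⁻¹ z) ≤
            ∑ j ∈ Finset.range n, (A.f (h ^ (j + 1 + 1))⁻¹ z - A.f (h ^ (j + 1))⁻¹ z) := by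
          apply Finset.sum_le_sum
          intro j _
          rw [A.inv_pow_succ h (j + 1) hz]
          have := (A.le_iff (h ^ (j + 1))⁻¹ hw (A.f_mem _ _ hz)).mpr h1
          linarith
        rw [Finset.sum_range_sub (fun j => A.f (h ^ (j + 1))⁻¹ z)] at h5
        have h6 := (A.f_mem (h ^ (n + 1))⁻¹ z hz).2
        have h7 := (A.f_mem (h ^ (0 + 1))⁻¹ z hz).1
        linarith
      · -- `z < h z`
        have h1 : A.f h⁻¹ w ≤ z := by
          by_contra hcon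
          push Not at hcon
          have h2 := (A.lt_iff h hz (A.f_mem _ _ hw)).mpr hcon
          rw [A.f_inv h hw] at h2
          have h3 := fixback z hz hTz
          have h4 := hT _ ⟨hgt, h2⟩
          linarith
        refine ⟨b - a, fun n => ?_⟩
        have h5 : ∑ j ∈ Finset.range n, (A.f (h ^ (j + 1))⁻¹ w - A.f (h ^ (j + 1))⁻¹ z) ≤
            ∑ j ∈ Finset.range n, (A.f (h ^ j)⁻¹ z - A.f (h ^ (j + 1))⁻¹ z) := by
          apply Finset.sum_le_sum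
          intro j _
          rw [A.inv_pow_succ h j hw]
          have := (A.le_iff (h ^ j)⁻¹ (A.f_mem _ _ hw) hz).mpr h1
          linarith
        rw [Finset.sum_range_sub' (fun j => A.f (h ^ j)⁻¹ z)] at h5
        have h6 := (A.f_mem (h ^ n)⁻¹ z hz).1
        have h7 := (A.f_mem (h ^ 0)⁻¹ z hz).2
        linarith
    obtain ⟨L, hL⟩ := hbd
    obtain ⟨E, hE⟩ := A.bs_bound (h := h) (T := T⁻¹) (m := m) (bs_inv hBS) hz hw
      (fun j => A.fix_inv T (A.f_mem _ _ hz) (fixT j z hz hTz))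
      (fun j => A.fix_inv T (A.f_mem _ _ hw) (fixT j w hw hTw)) hL
    have hmid : (z + w) / 2 ∈ Ioo z w := ⟨by linarith, by linarith⟩
    have hmI : (z + w) / 2 ∈ Icc a b := A.mem_of_mem_Ioo hz hw hmid
    refine A.unbounded T⁻¹ hz hmI hmid.1 hTiz ?_ (E := E) (n := fun j => m ^ j)
      (tendsto_pow_atTop_atTop_of_one_lt (by omega)) ?_
    · intro x hx
      have hxzw : x ∈ Ioo z w := ⟨hx.1, lt_of_le_of_lt hx.2 hmid.2⟩
      exact A.lt_inv T (A.mem_of_mem_Ioo hz hw hxzw) (hT x hxzw)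
    · intro j x hx
      exact hE j x ⟨hx.1, hx.2.trans hmid.2⟩
  refine ⟨hleft, ?_⟩
  have hiz : A.f h⁻¹ z = z := A.fix_inv h hz hleft
  have h1 : w ≤ A.f h w := by
    by_contra hcon
    push Not at hcon
    have h2 := (A.lt_iff h hz hw).mpr hzw
    rw [hleft] at h2
    have h3 := fixback w hw hTw
    have h4 := hT _ ⟨h2, hcon⟩
    linarith
  have h1' : w ≤ A.f h⁻¹ w := by
    by_contra hcon
    push Not at hcon
    have h2 := (A.lt_iff h⁻¹ hz hw).mpr hzw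
    rw [hiz] at h2
    have h3 := fixT 1 w hw hTw
    rw [pow_one] at h3
    have h4 := hT _ ⟨h2, hcon⟩
    linarith
  have h2 := (A.le_iff h hw (A.f_mem _ _ hw)).mpr h1'
  rw [A.f_inv h hw] at h2
  exact le_antisymm h2 h1

lemma d_pow_fix (g : Γ) {z : ℝ} (hz : z ∈ Icc a b) (h1 : A.f g z = z) (h2 : A.d g z = 1) (n : ℕ) :
    A.d (g ^ n) z = 1 := by
  induction n with
  | zero => rw [pow_zero, A.d_one hz]
  | succ n ih => rw [pow_succ, A.d_mul _ _ z hz, h1, ih, h2, one_mul]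

lemma d_inv_fix (g : Γ) {z : ℝ} (hz : z ∈ Icc a b) (h1 : A.f g z = z) (h2 : A.d g z = 1) :
    A.d g⁻¹ z = 1 := by
  have := A.d_inv_mul g hz
  rwa [h1, h2, mul_one] at this

/-- comparable tiles -/
lemma tiles {T R : Γ} {N : ℕ} (hN : R ^ N = T) {z x₀ : ℝ} (hz : z ∈ Icc a b)
    (hx₀ : x₀ ∈ Icc a b) (hzx : z < x₀) (hTz : A.f T z = z) (hT : ∀ x ∈ Ioc z x₀, A.f T x < x)
    (hRz : A.f R z = z) (hdR : A.d R z = 1) (hR : ∀ x ∈ Ioc z x₀, A.f R x < x) {K : ℝ}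
    (hK0 : 0 ≤ K)
    (hK : ∀ x ∈ Icc a b, ∀ y ∈ Icc a b,
      |Real.log (A.d T x) - Real.log (A.d T y)| ≤ K * |x - y|) (i : ℕ) (hi : i < N) :
    (N:ℝ) * (A.f (R ^ i) x₀ - A.f (R ^ (i + 1)) x₀) ≤ Real.exp (K * (x₀ - z)) * (x₀ - A.f T x₀) := by
  have hc : Commute T R := by rw [← hN]; exact (Commute.refl R).pow_left N
  set p : ℕ → ℝ := fun j => A.f (R ^ j) x₀ with hp
  have hpI : ∀ j, p j ∈ Icc a b := fun j => A.f_mem _ _ hx₀
  have hpz : ∀ j, p j ∈ Ioc z x₀ := by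
    intro j
    constructor
    · have := (A.lt_iff (R ^ j) hz hx₀).mpr hzx
      rwa [A.fix_pow R j hz hRz] at this
    · exact A.pow_le R j hx₀ (hR x₀ ⟨hzx, le_refl _⟩).le
  have hstep : ∀ j, p (j + 1) < p j := by
    intro j
    show A.f (R ^ (j + 1)) x₀ < _
    rw [A.f_pow_succ R j hx₀]
    exact hR _ (hpz j)
  have hanti : Antitone p := antitone_nat_of_succ_le (fun j => (hstep j).le)
  have hp0 : p 0 = x₀ := by show A.f (R ^ 0) x₀ = x₀; rw [pow_zero, A.f_one x₀ hx₀]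
  have hpN : p N = A.f T x₀ := by show A.f (R ^ N) x₀ = _; rw [hN]
  have key : ∀ j < N, p i - p (i + 1) ≤ Real.exp (K * (x₀ - z)) * (p j - p (j + 1)) := by
    intro j hj
    set G := R ^ i * (R ^ j)⁻¹ with hG
    have hGc : Commute T G := (hc.pow_right i).mul_right (hc.pow_right j).inv_right
    have hGj : A.f G (p j) = p i := by
      show A.f (R ^ i * (R ^ j)⁻¹) (A.f (R ^ j) x₀) = A.f (R ^ i) x₀
      rw [← A.f_mul _ _ x₀ hx₀]; congr 1; group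
    have hGj1 : A.f G (p (j + 1)) = p (i + 1) := by
      show A.f (R ^ i * (R ^ j)⁻¹) (A.f (R ^ (j + 1)) x₀) = A.f (R ^ (i + 1)) x₀
      rw [← A.f_mul _ _ x₀ hx₀]; congr 1
      rw [pow_succ, pow_succ]; group
    have hGd : A.d G z = 1 := by
      rw [hG, A.d_mul _ _ z hz, A.fix_inv _ hz (A.fix_pow R j hz hRz),
        A.d_pow_fix R hz hRz hdR, A.d_inv_fix _ hz (A.fix_pow R j hz hRz)
        (A.d_pow_fix R hz hRz hdR j), one_mul]
    obtain ⟨ξ, hξ, hξ2⟩ := A.mvt G (hpI (j + 1)) (hpI j) (hstep j)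
    rw [hGj, hGj1] at hξ2
    have hξI : ξ ∈ Icc a b := A.mem_of_mem_Ioo (hpI (j + 1)) (hpI j) hξ
    rw [hξ2]
    apply mul_le_mul_of_nonneg_right _ (sub_nonneg.mpr (hstep j).le)
    apply A.kopell_bound hGc hz hx₀ hzx hTz hT hK0 hK hGd
    · rw [← hpN]
      exact ⟨(hanti (by omega : j + 1 ≤ N)).trans hξ.1.le, hξ.2.le.trans (hpz j).2⟩
    · rw [← hpN]
      have a1 := (A.lt_iff G (hpI (j + 1)) hξI).mpr hξ.1
      have a2 := (A.lt_iff G hξI (hpI j)).mpr hξ.2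
      rw [hGj1] at a1
      rw [hGj] at a2
      exact ⟨(hanti (by omega : i + 1 ≤ N)).trans a1.le, a2.le.trans (hpz i).2⟩
  have h1 : ∑ j ∈ Finset.range N, (p i - p (i + 1)) ≤
      ∑ j ∈ Finset.range N, Real.exp (K * (x₀ - z)) * (p j - p (j + 1)) :=
    Finset.sum_le_sum (fun j hj => key j (Finset.mem_range.mp hj))
  rw [Finset.sum_const, Finset.card_range, nsmul_eq_mul, ← Finset.mul_sum,
    Finset.sum_range_sub', hp0, hpN] at h1
  exact h1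

lemma eq_one_of_pow {t : ℝ} (ht : 0 < t) {m : ℕ} (hm : 2 ≤ m) (h : t ^ m = t) : t = 1 := by
  obtain ⟨j, rfl⟩ : ∃ j, m = j + 2 := ⟨m - 2, by omega⟩
  have h1 : t ^ (j + 1) = 1 := by
    have h2 : t ^ (j + 1) * t = 1 * t := by rw [← pow_succ, one_mul]; exact h
    exact mul_right_cancel₀ ht.ne' h2
  exact (pow_eq_one_iff_of_nonneg ht.le (by omega)).mp h1

/-- **Fixed points of `h` inside the support of `T`.** -/
theorem F2 {h T : Γ} {m : ℕ} (hm : 2 ≤ m) (hBS : h * T * h⁻¹ = T ^ m) {z w : ℝ}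
    (hz : z ∈ Icc a b) (hw : w ∈ Icc a b) (hzw : z < w) (hTz : A.f T z = z) (hTw : A.f T w = w)
    (hT : ∀ y ∈ Ioo z w, A.f T y < y) :
    ∃ q ∈ Ioo z w, A.f h q = q ∧
      ∀ x ∈ Ioo z w, ∃ C, ∀ n : ℕ, |A.f (h ^ n)⁻¹ x - q| * (m:ℝ) ^ n ≤ C := by
  obtain ⟨hhz, hhw⟩ := A.F1 hm hBS hz hw hzw hTz hTw hT
  have hIoo : ∀ g : Γ, A.f g z = z → A.f g w = w → ∀ y ∈ Ioo z w, A.f g y ∈ Ioo z w := by
    intro g g1 g2 y hy
    have hyI := A.mem_of_mem_Ioo hz hw hy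
    have a1 := (A.lt_iff g hz hyI).mpr hy.1
    have a2 := (A.lt_iff g hyI hw).mpr hy.2
    rw [g1] at a1; rw [g2] at a2
    exact ⟨a1, a2⟩
  have hinI : ∀ y ∈ Ioo z w, y ∈ Icc a b := fun y hy => A.mem_of_mem_Ioo hz hw hy
  -- the derivative of `T` at `z`
  have hdT : A.d T z = 1 := by
    apply eq_one_of_pow (A.d_pos T z hz) hm
    have h1 : A.d (T ^ m) z = A.d T z ^ m := by
      have : ∀ j : ℕ, A.d (T ^ j) z = A.d T z ^ j := by
        intro j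
        induction j with
        | zero => rw [pow_zero, pow_zero, A.d_one hz]
        | succ j ih => rw [pow_succ, A.d_mul _ _ z hz, hTz, ih, pow_succ]
      exact this m
    have h2 : A.d (h * T * h⁻¹) z = A.d T z := by
      rw [A.d_mul _ _ z hz, A.fix_inv h hz hhz, A.d_mul _ _ z hz, hTz]
      have h3 := A.d_inv_mul h hz
      rw [hhz] at h3
      calc A.d h z * A.d T z * A.d h⁻¹ z = A.d T z * (A.d h⁻¹ z * A.d h z) := by ring
        _ = A.d T z := by rw [h3, mul_one]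
    rw [← h1, ← hBS, h2]
  have hlim : ∀ y ∈ Ioo z w, Tendsto (fun n : ℕ => A.f (T ^ n) y) atTop (𝓝 z) := by
    intro y hy
    exact A.tendsto_left T hz (hinI y hy) hy.1 hTz
      (fun x hx => hT x ⟨hx.1, lt_of_le_of_lt hx.2 hy.2⟩)
  -- existence of the fixed point
  have hq : ∃ q ∈ Ioo z w, A.f h q = q := by
    set x₀ := (z + w) / 2 with hx₀def
    have hx₀ : x₀ ∈ Ioo z w := ⟨by linarith, by linarith⟩
    have hx₀I := hinI x₀ hx₀
    have hhx₀ : A.f h x₀ ∈ Ioo z w := hIoo h hhz hhw x₀ hx₀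
    have hhx₀I := hinI _ hhx₀
    have e1 := (hlim x₀ hx₀).eventually (gt_mem_nhds hhx₀.1)
    have e2 := (hlim _ hhx₀).eventually (gt_mem_nhds hx₀.1)
    obtain ⟨i, hi1, hi2⟩ := (e1.and e2).exists
    set p := A.f (T ^ i) x₀ with hp
    set p' := A.f (T ^ i)⁻¹ x₀ with hp'
    have hpI : p ∈ Icc a b := A.f_mem _ _ hx₀I
    have hp'I : p' ∈ Icc a b := A.f_mem _ _ hx₀I
    have hpzw : p ∈ Ioo z w := hIoo _ (A.fix_pow T i hz hTz) (A.fix_pow T i hw hTw) _ hx₀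
    have hp'zw : p' ∈ Ioo z w := hIoo _ (A.fix_inv _ hz (A.fix_pow T i hz hTz))
      (A.fix_inv _ hw (A.fix_pow T i hw hTw)) _ hx₀
    have hTx : ∀ n : ℕ, ∀ y ∈ Ioo z w, A.f (T ^ n) y ≤ y :=
      fun n y hy => A.pow_le T n (hinI y hy) (hT y hy).le
    obtain ⟨j, hj⟩ : ∃ j, m * i = i + j + i := ⟨m * i - i - i, by
      have : 2 * i ≤ m * i := Nat.mul_le_mul_right i hm
      omega⟩
    -- `h p ≤ p`
    have h1 : A.f h p ≤ p := by
      have : A.f h p = A.f (T ^ i) (A.f (T ^ j) (A.f (T ^ i) (A.f h x₀))) := by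
        rw [hp, ← A.f_mul _ _ x₀ hx₀I, bs_comm hBS, A.f_mul _ _ x₀ hx₀I, hj, pow_add, pow_add,
          A.f_mul _ _ _ hhx₀I, A.f_mul _ _ _ (A.f_mem _ _ hhx₀I)]
      rw [this, hp]
      rw [A.le_iff (T ^ i) (A.f_mem _ _ (A.f_mem _ _ hhx₀I)) hx₀I]
      refine le_trans (hTx j _ ?_) hi2.le
      exact hIoo _ (A.fix_pow T i hz hTz) (A.fix_pow T i hw hTw) _ hhx₀
    -- `p' ≤ h p'`
    have h2 : p' ≤ A.f h p' := by
      rw [← A.le_iff (T ^ (m * i)) hp'I (A.f_mem _ _ hp'I)]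
      have e3 : A.f (T ^ (m * i)) (A.f h p') = A.f h x₀ := by
        rw [← A.f_mul _ _ p' hp'I, ← bs_comm hBS, A.f_mul _ _ p' hp'I, hp', A.f_inv _ hx₀I]
      have e4 : A.f (T ^ (m * i)) p' = A.f (T ^ i) (A.f (T ^ j) x₀) := by
        rw [hj, pow_add, A.f_mul _ _ p' hp'I, hp', A.f_inv _ hx₀I, pow_add, A.f_mul _ _ x₀ hx₀I]
      rw [e3, e4]
      refine le_trans ?_ hi1.le
      exact (A.le_iff (T ^ i) (A.f_mem _ _ hx₀I) hx₀I).mpr (hTx j x₀ hx₀)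
    have hpp' : p ≤ p' := by
      have a1 : p ≤ x₀ := hTx i x₀ hx₀
      have a2 : x₀ ≤ p' := by
        have := hTx i p' hp'zw
        rwa [hp', A.f_inv _ hx₀I, ← hp'] at this
      exact a1.trans a2
    have hcont : ContinuousOn (fun x => A.f h x - x) (Icc p p') := by
      apply ContinuousOn.sub _ continuousOn_id
      exact (A.cont h).mono (fun x hx => A.mem_of_mem_Icc hpI hp'I hx)
    have hivt := intermediate_value_Icc hpp' hcont
    have h0 : (0:ℝ) ∈ Icc (A.f h p - p) (A.f h p' - p') := ⟨by linarith, by linarith⟩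
    obtain ⟨q, hq1, hq2⟩ := hivt h0
    refine ⟨q, ⟨lt_of_lt_of_le hpzw.1 hq1.1, lt_of_le_of_lt hq1.2 hp'zw.2⟩, ?_⟩
    simp only at hq2
    linarith
  obtain ⟨q, hq, hhq⟩ := hq
  refine ⟨q, hq, hhq, ?_⟩
  have hqI := hinI q hq
  obtain ⟨K, hK0, hK⟩ := A.loglip T
  -- the roots of `T`
  have hm0 : 0 < m := by omega
  set R : ℕ → Γ := fun n => (h ^ n)⁻¹ * T * h ^ n with hR
  have hRN : ∀ n, (R n) ^ (m ^ n) = T := by
    intro n
    have : ∀ j : ℕ, (R n) ^ j = (h ^ n)⁻¹ * T ^ j * h ^ n := by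
      intro j
      induction j with
      | zero => simp
      | succ j ih => rw [pow_succ, ih, hR, pow_succ]; group
    rw [this, ← bs_pow hBS n]; group
  have hhn : ∀ n, A.f (h ^ n) z = z := fun n => A.fix_pow h n hz hhz
  have hhnw : ∀ n, A.f (h ^ n) w = w := fun n => A.fix_pow h n hw hhw
  have hhnq : ∀ n, A.f (h ^ n) q = q := fun n => A.fix_pow h n hqI hhq
  have hRf : ∀ n, ∀ x ∈ Icc a b, A.f (R n) x = A.f (h ^ n)⁻¹ (A.f T (A.f (h ^ n) x)) := by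
    intro n x hx
    rw [hR]
    simp only
    rw [A.f_mul _ _ x hx, A.f_mul _ _ _ (A.f_mem _ _ hx)]
  have hRz : ∀ n, A.f (R n) z = z := by
    intro n
    rw [hRf n z hz, hhn, hTz, A.fix_inv _ hz (hhn n)]
  have hRd : ∀ n, A.d (R n) z = 1 := by
    intro n
    have h3 := A.d_inv_mul (h ^ n) hz
    rw [hhn] at h3
    have : A.d (R n) z = A.d (h ^ n)⁻¹ z * A.d T z * A.d (h ^ n) z := by
      rw [hR]
      simp only
      rw [A.d_mul _ _ z hz, hhn, A.d_mul _ _ z hz, hTz]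
    rw [this, hdT, mul_one, h3]
  have hRlt : ∀ n, ∀ x ∈ Ioo z w, A.f (R n) x < x := by
    intro n x hx
    have hxI := hinI x hx
    have h1 := hT _ (hIoo _ (hhn n) (hhnw n) x hx)
    have h2 := (A.lt_iff (h ^ n)⁻¹ (A.f_mem _ _ (A.f_mem _ _ hxI)) (A.f_mem _ _ hxI)).mpr h1
    rw [A.inv_f _ hxI] at h2
    rw [hRf n x hxI]
    exact h2
  -- left estimate
  set E1 := Real.exp (K * (q - z)) * (q - A.f T q) with hE1
  have hleft : ∀ n : ℕ, (m:ℝ) ^ n * (q - A.f (h ^ n)⁻¹ (A.f T q)) ≤ E1 := by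
    intro n
    have := A.tiles (hRN n) hz hqI hq.1 hTz
      (fun x hx => hT x ⟨hx.1, lt_of_le_of_lt hx.2 hq.2⟩) (hRz n) (hRd n)
      (fun x hx => hRlt n x ⟨hx.1, lt_of_le_of_lt hx.2 hq.2⟩) hK0 hK 0 (pow_pos hm0 n)
    rw [pow_zero, A.f_one q hqI, zero_add, pow_one, hRf n q hqI, hhnq] at this
    push_cast at this
    exact this
  -- right estimate
  set x₁ := A.f T⁻¹ q with hx₁
  have hTiz := A.fix_inv T hz hTz
  have hTiw := A.fix_inv T hw hTw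
  have hx₁zw : x₁ ∈ Ioo z w := hIoo T⁻¹ hTiz hTiw q hq
  have hx₁I := hinI x₁ hx₁zw
  have hTx₁ : A.f T x₁ = q := A.f_inv T hqI
  set E2 := Real.exp (K * (x₁ - z)) * (x₁ - q) with hE2
  have hright : ∀ n : ℕ, (m:ℝ) ^ n * (A.f (h ^ n)⁻¹ x₁ - q) ≤ E2 := by
    intro n
    have hpos : 0 < m ^ n := pow_pos hm0 n
    have := A.tiles (hRN n) hz hx₁I hx₁zw.1 hTz
      (fun x hx => hT x ⟨hx.1, lt_of_le_of_lt hx.2 hx₁zw.2⟩) (hRz n) (hRd n)
      (fun x hx => hRlt n x ⟨hx.1, lt_of_le_of_lt hx.2 hx₁zw.2⟩) hK0 hK (m ^ n - 1) (by omega)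
    rw [show m ^ n - 1 + 1 = m ^ n by omega, hRN n, hTx₁] at this
    have e5 : A.f (R n ^ (m ^ n - 1)) x₁ = A.f (h ^ n)⁻¹ x₁ := by
      have h6 : R n ^ (m ^ n - 1) = (R n)⁻¹ * T := by
        have h7 : R n * R n ^ (m ^ n - 1) = T := by
          rw [← pow_succ', show m ^ n - 1 + 1 = m ^ n by omega, hRN n]
        rw [← h7]; group
      have h8 : (R n)⁻¹ = (h ^ n)⁻¹ * T⁻¹ * h ^ n := by
        rw [hR]; simp only; group
      rw [h6, A.f_mul _ _ x₁ hx₁I, hTx₁, h8, A.f_mul _ _ q hqI, hhnq, A.f_mul _ _ q hqI]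
    rw [e5] at this
    push_cast at this
    exact this
  -- all points
  intro x hx
  have hxI := hinI x hx
  have hiL : ∃ i : ℕ, ∀ j ≥ i, A.f (h ^ j) (A.f T q) ≤ x := by
    have h1 : Tendsto (fun j : ℕ => A.f (T ^ (m ^ j)) q) atTop (𝓝 z) :=
      (hlim q hq).comp (tendsto_pow_atTop_atTop_of_one_lt (by omega))
    have h2 := h1.eventually (gt_mem_nhds hx.1)
    obtain ⟨i, hi⟩ := eventually_atTop.mp h2
    refine ⟨i, fun j hj => ?_⟩
    have h3 := hi j hj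
    rw [← bs_pow hBS j, A.f_mul _ _ q hqI, A.fix_inv _ hqI (hhnq j), A.f_mul _ _ q hqI] at h3
    exact h3.le
  have hiR : ∃ i : ℕ, ∀ j ≥ i, x ≤ A.f (h ^ j) x₁ := by
    rcases le_or_gt x q with hxq | hxq
    · refine ⟨0, fun j _ => ?_⟩
      refine hxq.trans ?_
      have := (A.le_iff (h ^ j) hqI hx₁I).mpr (A.lt_inv T hqI (hT q hq)).le
      rwa [hhnq] at this
    · obtain ⟨n₀, hn₀⟩ := A.exists_pow_gt T⁻¹ hqI hxI hxq.le (fun y hy => by
        have hy' : y ∈ Ioo z w := ⟨lt_of_lt_of_le hq.1 hy.1, lt_of_le_of_lt hy.2 hx.2⟩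
        exact A.lt_inv T (hinI y hy') (hT y hy'))
      obtain ⟨i, hi⟩ := eventually_atTop.mp
        ((tendsto_pow_atTop_atTop_of_one_lt (r := m) (by omega)).eventually_ge_atTop n₀)
      refine ⟨i, fun j hj => ?_⟩
      have h3 := hn₀ (m ^ j) (hi j hj)
      rw [← bs_pow (bs_inv hBS) j, A.f_mul _ _ q hqI, A.fix_inv _ hqI (hhnq j),
        A.f_mul _ _ q hqI] at h3
      exact h3.le
  obtain ⟨i1, hi1⟩ := hiL
  obtain ⟨i2, hi2⟩ := hiR
  set i := max i1 i2 with hi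
  have hL := hi1 i (le_max_left _ _)
  have hRr := hi2 i (le_max_right _ _)
  have hE1nn : 0 ≤ E1 := by
    have h1 := hT q hq
    have : 0 ≤ q - A.f T q := by linarith
    rw [hE1]; positivity
  have hE2nn : 0 ≤ E2 := by
    have h1 := A.lt_inv T hqI (hT q hq)
    have : 0 ≤ x₁ - q := by linarith
    rw [hE2]; positivity
  have hab : a ≤ b := hz.1.trans hz.2
  refine ⟨(E1 + E2 + (b - a)) * (m:ℝ) ^ i, ?_⟩
  intro n
  have hmR : (1:ℝ) ≤ m := by exact_mod_cast (by omega : 1 ≤ m)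
  have hTqI : A.f T q ∈ Icc a b := A.f_mem _ _ hqI
  rcases le_or_gt i n with hin | hin
  · obtain ⟨n', rfl⟩ : ∃ n', n = n' + i := ⟨n - i, by omega⟩
    have hback : ∀ v ∈ Icc a b, A.f (h ^ (n' + i))⁻¹ (A.f (h ^ i) v) = A.f (h ^ n')⁻¹ v := by
      intro v hv
      rw [← A.f_mul _ _ v hv]; congr 1
      rw [pow_add, mul_inv_rev, mul_assoc]
      have : (h ^ i)⁻¹ * ((h ^ n')⁻¹ * h ^ i) = (h ^ n')⁻¹ := by
        have hcomm : Commute ((h ^ n')⁻¹) (h ^ i) := (Commute.pow_pow_self h n' i).inv_left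
        rw [hcomm.eq]; group
      exact this
    have a1 := (A.le_iff (h ^ (n' + i))⁻¹ (A.f_mem _ _ hTqI) hxI).mpr hL
    have a2 := (A.le_iff (h ^ (n' + i))⁻¹ hxI (A.f_mem _ _ hx₁I)).mpr hRr
    rw [hback _ hTqI] at a1
    rw [hback _ hx₁I] at a2
    have b1 := hleft n'
    have b2 := hright n'
    have hpow : (0:ℝ) < (m:ℝ) ^ n' := by positivity
    have habs : |A.f (h ^ (n' + i))⁻¹ x - q| * (m:ℝ) ^ n' ≤ E1 + E2 := by
      rcases abs_cases (A.f (h ^ (n' + i))⁻¹ x - q) with ⟨h3, _⟩ | ⟨h3, _⟩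
      · rw [h3]
        have : (A.f (h ^ (n' + i))⁻¹ x - q) * (m:ℝ) ^ n' ≤
            (m:ℝ) ^ n' * (A.f (h ^ n')⁻¹ x₁ - q) := by
          rw [mul_comm]; exact mul_le_mul_of_nonneg_left (by linarith) hpow.le
        linarith
      · rw [h3]
        have : -(A.f (h ^ (n' + i))⁻¹ x - q) * (m:ℝ) ^ n' ≤
            (m:ℝ) ^ n' * (q - A.f (h ^ n')⁻¹ (A.f T q)) := by
          rw [mul_comm]; exact mul_le_mul_of_nonneg_left (by linarith) hpow.le
        linarith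
    have hsplit : (m:ℝ) ^ (n' + i) = (m:ℝ) ^ n' * (m:ℝ) ^ i := pow_add _ _ _
    rw [hsplit, ← mul_assoc]
    apply mul_le_mul_of_nonneg_right _ (by positivity)
    linarith
  · have h1 : |A.f (h ^ n)⁻¹ x - q| ≤ b - a := by
      have c1 := A.f_mem (h ^ n)⁻¹ x hxI
      rw [abs_le]; constructor <;> linarith [c1.1, c1.2, hqI.1, hqI.2]
    have h2 : (m:ℝ) ^ n ≤ (m:ℝ) ^ i := pow_le_pow_right₀ hmR hin.le
    calc |A.f (h ^ n)⁻¹ x - q| * (m:ℝ) ^ n ≤ (b - a) * (m:ℝ) ^ i := by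
          apply mul_le_mul h1 h2 (by positivity) (by linarith)
      _ ≤ _ := by
          apply mul_le_mul_of_nonneg_right _ (by positivity)
          linarith

end Act

end Pool.Agent.H63.Crit
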