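import Pool.Agent.H63.Crit.Scale

/-!
# The interval theorem
-/

namespace Pool.Agent.H63.Crit

open Set Filter Topology Asymptotics

/-- The relations used in the argument. -/
structure Rel {Γ : Type*} [Group Γ] (h h₂ T u : Γ) (m k l N : ℕ) : Prop where
  bs : h₂ * T * h₂⁻¹ = T ^ m
  r2a : Commute (T ^ N * (h⁻¹ * T * h) * (T ^ N)⁻¹) (h⁻¹ * T * h)
  r2b : Commute (T ^ N * (h⁻¹ * T * h) * (T ^ N)⁻¹) (h⁻¹ * h₂ * h)
  r3a : Commute (h₂⁻¹ * h) ((h ^ l)⁻¹ * T * h ^ l)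
  r3b : Commute (h₂⁻¹ * h) ((h ^ l)⁻¹ * h₂ * h ^ l)
  r4a : Commute ((u ^ (m ^ k))⁻¹ * (h⁻¹ * u * h)) ((h ^ l)⁻¹ * T * h ^ l)
  r4b : Commute ((u ^ (m ^ k))⁻¹ * (h⁻¹ * u * h)) ((h ^ l)⁻¹ * h₂ * h ^ l)
  r4c : Commute ((u⁻¹ ^ (m ^ k))⁻¹ * (h⁻¹ * u⁻¹ * h)) ((h ^ l)⁻¹ * T * h ^ l)
  r4d : Commute ((u⁻¹ ^ (m ^ k))⁻¹ * (h⁻¹ * u⁻¹ * h)) ((h ^ l)⁻¹ * h₂ * h ^ l)
  r5a : ∀ j : ℕ, Commute u (((h ^ j)⁻¹ * T ^ N * (h ^ l)⁻¹) * T * ((h ^ j)⁻¹ * T ^ N * (h ^ l)⁻¹)⁻¹)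
  r5b : ∀ j : ℕ, Commute u
    (((h ^ j)⁻¹ * T ^ N * (h ^ l)⁻¹) * h₂ * ((h ^ j)⁻¹ * T ^ N * (h ^ l)⁻¹)⁻¹)

lemma Rel.map {Γ Γ' : Type*} [Group Γ] [Group Γ'] (φ : Γ →* Γ') {h h₂ T u : Γ} {m k l N : ℕ}
    (R : Rel h h₂ T u m k l N) : Rel (φ h) (φ h₂) (φ T) (φ u) m k l N := by
  have c : ∀ {x y : Γ}, Commute x y → Commute (φ x) (φ y) := fun h => h.map φ
  constructor
  · have := congrArg φ R.bs; simpa using this
  · have := c R.r2a; simpa using this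
  · have := c R.r2b; simpa using this
  · have := c R.r3a; simpa using this
  · have := c R.r3b; simpa using this
  · have := c R.r4a; simpa using this
  · have := c R.r4b; simpa using this
  · have := c R.r4c; simpa using this
  · have := c R.r4d; simpa using this
  · intro j; have := c (R.r5a j); simpa using this
  · intro j; have := c (R.r5b j); simpa using this

lemma Rel.inv {Γ : Type*} [Group Γ] {h h₂ T u : Γ} {m k l N : ℕ}
    (R : Rel h h₂ T u m k l N) : Rel h h₂ T u⁻¹ m k l N :=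
  ⟨R.bs, R.r2a, R.r2b, R.r3a, R.r3b, R.r4c, R.r4d, by rw [inv_inv]; exact R.r4a,
    by rw [inv_inv]; exact R.r4b, fun j => (R.r5a j).inv_left, fun j => (R.r5b j).inv_left⟩

namespace Act

variable {Γ : Type*} [Group Γ] {a b : ℝ} (A : Act Γ (Icc a b))

lemma f_contAt (g : Γ) {x : ℝ} (hx : x ∈ Ioo a b) : ContinuousAt (A.f g) x :=
  (A.cont g).continuousAt (Icc_mem_nhds hx.1 hx.2)

lemma Ioo_mem (g : Γ) {x : ℝ} (hx : x ∈ Ioo a b) : A.f g x ∈ Ioo a b := by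
  have hab : a ≤ b := (hx.1.trans hx.2).le
  have hxI : x ∈ Icc a b := Ioo_subset_Icc_self hx
  have h1 := (A.lt_iff g ⟨le_refl _, hab⟩ hxI).mpr hx.1
  have h2 := (A.lt_iff g hxI ⟨hab, le_refl _⟩).mpr hx.2
  rw [A.fix_a hab] at h1
  rw [A.fix_b hab] at h2
  exact ⟨h1, h2⟩

/-- conjugated form of `toolA` -/
lemma toolA_conj {c g h₂ T : Γ} {m : ℕ} (hm : 2 ≤ m) (hBS : h₂ * T * h₂⁻¹ = T ^ m)
    (h1 : Commute c (g * T * g⁻¹)) (h2 : Commute c (g * h₂ * g⁻¹)) {x : ℝ} (hx : x ∈ Icc a b)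
    (hTx : A.f (g * T * g⁻¹) x ≠ x) : A.f c x = x := by
  have hBS' : (g * h₂ * g⁻¹) * (g * T * g⁻¹) * (g * h₂ * g⁻¹)⁻¹ = (g * T * g⁻¹) ^ m := by
    rw [conj_pow, ← hBS]; group
  rcases A.toolA hm hBS' h2 h1 hx with h | h
  · exact h
  · exact absurd h hTx

variable {h h₂ T u : Γ} {m k l N : ℕ}

lemma R1 (hm : 2 ≤ m) (R : Rel h h₂ T u m k l N) {x : ℝ} (hx : x ∈ Icc a b)
    (hTx : A.f T (A.f h x) ≠ A.f h x) : A.f T x ≠ x := by
  intro hcon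
  have h1 : A.f (T ^ N * (h⁻¹ * T * h) * (T ^ N)⁻¹) x = x := by
    apply A.toolA_conj hm R.bs (g := h⁻¹) _ _ hx
    · intro h2
      apply hTx
      rw [inv_inv, A.f_mul _ _ x hx, A.f_mul _ _ _ (A.f_mem _ _ hx)] at h2
      have h3 := congrArg (A.f h) h2
      rwa [A.f_inv h (A.f_mem _ _ (A.f_mem _ _ hx))] at h3
    · rw [inv_inv]; exact R.r2a
    · rw [inv_inv]; exact R.r2b
  have hN : A.f (T ^ N) x = x := A.fix_pow T N hx hcon
  have hNi : A.f (T ^ N)⁻¹ x = x := A.fix_inv _ hx hN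
  rw [A.f_mul _ _ x hx, hNi, A.f_mul _ _ x hx] at h1
  have h2 := congrArg (A.f (T ^ N)⁻¹) h1
  rw [A.inv_f _ (A.f_mem _ _ hx), hNi, A.f_mul _ _ x hx, A.f_mul _ _ _ (A.f_mem _ _ hx)] at h2
  apply hTx
  have h3 := congrArg (A.f h) h2
  rwa [A.f_inv h (A.f_mem _ _ (A.f_mem _ _ hx))] at h3

lemma back (hm : 2 ≤ m) (R : Rel h h₂ T u m k l N) (n : ℕ) {x : ℝ} (hx : x ∈ Icc a b)
    (hTx : A.f T x ≠ x) : A.f T (A.f (h ^ n)⁻¹ x) ≠ A.f (h ^ n)⁻¹ x := by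
  induction n with
  | zero => rw [pow_zero, inv_one, A.f_one x hx]; exact hTx
  | succ n ih =>
    rw [A.inv_pow_succ' h n hx]
    apply A.R1 hm R (A.f_mem _ _ (A.f_mem _ _ hx))
    rw [A.f_inv h (A.f_mem _ _ hx)]
    exact ih

lemma TA_iff (l : ℕ) {x : ℝ} (hx : x ∈ Icc a b) :
    A.f ((h ^ l)⁻¹ * T * h ^ l) x = x ↔ A.f T (A.f (h ^ l) x) = A.f (h ^ l) x := by
  rw [A.f_mul _ _ x hx, A.f_mul _ _ _ (A.f_mem _ _ hx)]
  constructor
  · intro h1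
    have h3 := congrArg (A.f (h ^ l)) h1
    rwa [A.f_inv _ (A.f_mem _ _ (A.f_mem _ _ hx))] at h3
  · intro h1
    rw [h1, A.inv_f _ hx]

/-- `h = h₂` on the support of `h⁻ˡ T hˡ` -/
lemma R2 (hm : 2 ≤ m) (R : Rel h h₂ T u m k l N) {x : ℝ} (hx : x ∈ Icc a b)
    (hTx : A.f ((h ^ l)⁻¹ * T * h ^ l) x ≠ x) : A.f h x = A.f h₂ x := by
  have h1 : A.f (h₂⁻¹ * h) x = x := by
    apply A.toolA_conj hm R.bs (g := (h ^ l)⁻¹) _ _ hx
    · rw [inv_inv]; exact hTx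
    · rw [inv_inv]; exact R.r3a
    · rw [inv_inv]; exact R.r3b
  rw [A.f_mul _ _ x hx] at h1
  have h2 := congrArg (A.f h₂) h1
  rwa [A.f_inv _ (A.f_mem _ _ hx)] at h2

/-- the relation between `u` and `h` on the support of `h⁻ˡ T hˡ` -/
lemma R4 (hm : 2 ≤ m) (R : Rel h h₂ T u m k l N) {x : ℝ} (hx : x ∈ Icc a b)
    (hTx : A.f ((h ^ l)⁻¹ * T * h ^ l) x ≠ x) :
    A.f (u ^ (m ^ k)) x = A.f h⁻¹ (A.f u (A.f h x)) := by
  have h1 : A.f ((u ^ (m ^ k))⁻¹ * (h⁻¹ * u * h)) x = x := by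
    apply A.toolA_conj hm R.bs (g := (h ^ l)⁻¹) _ _ hx
    · rw [inv_inv]; exact hTx
    · rw [inv_inv]; exact R.r4a
    · rw [inv_inv]; exact R.r4b
  rw [A.f_mul _ _ x hx] at h1
  have h2 := congrArg (A.f (u ^ (m ^ k))) h1
  rw [A.f_inv _ (A.f_mem _ _ hx), A.f_mul _ _ x hx, A.f_mul _ _ _ (A.f_mem _ _ hx)] at h2
  exact h2.symm

/-- good components -/
structure Good (h T : Γ) (m : ℕ) (z w q : ℝ) : Prop where
  hz : z ∈ Icc a b
  hw : w ∈ Icc a b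
  hq : q ∈ Ioo z w
  Tz : A.f T z = z
  Tw : A.f T w = w
  hT : ∀ y ∈ Ioo z w, A.f T y ≠ y
  hhq : A.f h q = q
  inv : ∀ v ∈ Ioo z w, A.f h⁻¹ v ∈ Ioo z w
  rate : ∀ v ∈ Ioo z w, ∃ C, ∀ n : ℕ, |A.f (h ^ n)⁻¹ v - q| * (m:ℝ) ^ n ≤ C

lemma tendsto_of_rate {m : ℕ} (hm : 2 ≤ m) {y : ℕ → ℝ} {q C : ℝ}
    (hC : ∀ n, |y n - q| * (m:ℝ) ^ n ≤ C) : Tendsto y atTop (𝓝 q) := by
  have hmR : (2:ℝ) ≤ m := by exact_mod_cast hm
  rw [tendsto_iff_norm_sub_tendsto_zero]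
  have h1 : Tendsto (fun n : ℕ => C * (1/2) ^ n) atTop (𝓝 (C * 0)) :=
    (tendsto_pow_atTop_nhds_zero_of_lt_one (by norm_num) (by norm_num)).const_mul C
  rw [mul_zero] at h1
  apply squeeze_zero (fun n => norm_nonneg _) _ h1
  intro n
  have hC0 : 0 ≤ C := le_trans (by positivity) (hC n)
  rw [Real.norm_eq_abs]
  have h2 : |y n - q| ≤ C / (m:ℝ) ^ n := by
    rw [le_div_iff₀ (by positivity)]; exact hC n
  refine h2.trans ?_
  rw [div_eq_mul_inv, one_div, inv_pow]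
  apply mul_le_mul_of_nonneg_left _ hC0
  apply inv_anti₀ (by positivity)
  exact pow_le_pow_left₀ (by norm_num) hmR _

lemma exists_good (hm : 2 ≤ m) (R : Rel h h₂ T u m k l N) {x : ℝ} (hx : x ∈ Icc a b)
    (hTx : A.f T x ≠ x) : ∃ z w q, A.Good h T m z w q ∧ A.f (h ^ l)⁻¹ x ∈ Ioo z w := by
  -- backward orbits for `h` are backward orbits for `h₂`
  have claim : ∀ x ∈ Icc a b, A.f T x ≠ x → ∀ j : ℕ,
      A.f (h ^ (l + j))⁻¹ x = A.f (h₂ ^ j)⁻¹ (A.f (h ^ l)⁻¹ x) := by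
    intro x hx hTx j
    induction j with
    | zero => rw [add_zero, pow_zero, inv_one, A.f_one _ (A.f_mem _ _ hx)]
    | succ j ih =>
      set v := A.f (h ^ (l + (j + 1)))⁻¹ x with hv
      have hvI : v ∈ Icc a b := A.f_mem _ _ hx
      have hhv : A.f h v = A.f (h ^ (l + j))⁻¹ x := by
        rw [hv, show l + (j + 1) = (l + j) + 1 by ring, A.inv_pow_succ' h (l + j) hx,
          A.f_inv h (A.f_mem _ _ hx)]
      have hv2 : A.f h v = A.f h₂ v := by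
        apply A.R2 hm R hvI
        rw [ne_eq, A.TA_iff l hvI]
        have h3 : A.f (h ^ l) v = A.f (h ^ (j + 1))⁻¹ x := by
          rw [hv, pow_add, mul_inv_rev]
          have hcomm : Commute ((h ^ (j + 1))⁻¹) ((h ^ l)⁻¹) :=
            ((Commute.pow_pow_self h (j + 1) l).inv_left).inv_right
          rw [hcomm.eq, A.f_mul _ _ x hx, A.f_inv _ (A.f_mem _ _ hx)]
        rw [h3]
        exact A.back hm R (j + 1) hx hTx
      rw [A.inv_pow_succ' h₂ j (A.f_mem _ _ hx), ← ih, ← hhv, hv2, A.inv_f h₂ hvI]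
  set y := A.f (h ^ l)⁻¹ x with hy
  have hyI : y ∈ Icc a b := A.f_mem _ _ hx
  have hTy : A.f T y ≠ y := A.back hm R l hx hTx
  -- component
  have hcomp : ∃ z w q, z ∈ Icc a b ∧ w ∈ Icc a b ∧ q ∈ Ioo z w ∧ y ∈ Ioo z w ∧ A.f T z = z ∧
      A.f T w = w ∧ (∀ v ∈ Ioo z w, A.f T v ≠ v) ∧
      (∀ v ∈ Ioo z w, ∃ C, ∀ n : ℕ, |A.f (h₂ ^ n)⁻¹ v - q| * (m:ℝ) ^ n ≤ C) := by
    rcases lt_or_gt_of_ne hTy with hlt | hgt
    · obtain ⟨z, hz, w, hw, hyzw, hTz, hTw, hT⟩ := A.component T hyI hlt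
      obtain ⟨q, hq, -, hr⟩ := A.F2 hm R.bs hz hw (hyzw.1.trans hyzw.2) hTz hTw hT
      exact ⟨z, w, q, hz, hw, hq, hyzw, hTz, hTw, fun v hv => (hT v hv).ne, hr⟩
    · obtain ⟨z, hz, w, hw, hyzw, hTz, hTw, hT⟩ := A.component T⁻¹ hyI (A.inv_lt T hyI hgt)
      obtain ⟨q, hq, -, hr⟩ := A.F2 hm (bs_inv R.bs) hz hw (hyzw.1.trans hyzw.2) hTz hTw hT
      refine ⟨z, w, q, hz, hw, hq, hyzw, (A.fix_inv_iff T hz).mp hTz,
        (A.fix_inv_iff T hw).mp hTw, ?_, hr⟩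
      intro v hv h1
      exact (hT v hv).ne (A.fix_inv T (A.mem_of_mem_Ioo hz hw hv) h1)
  obtain ⟨z, w, q, hz, hw, hq, hyzw, hTz, hTw, hT, hr⟩ := hcomp
  have hqI : q ∈ Icc a b := A.mem_of_mem_Ioo hz hw hq
  have hqIoo : q ∈ Ioo a b := ⟨lt_of_le_of_lt hz.1 hq.1, lt_of_lt_of_le hq.2 hw.2⟩
  -- `h q = q`
  have hhq : A.f h q = q := by
    obtain ⟨C, hC⟩ := hr y hyzw
    have hlim := tendsto_of_rate hm hC
    have h1 : Tendsto (fun j : ℕ => A.f (h ^ (l + j))⁻¹ x) atTop (𝓝 q) := by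
      have : (fun j : ℕ => A.f (h ^ (l + j))⁻¹ x) = fun j : ℕ => A.f (h₂ ^ j)⁻¹ y :=
        funext (fun j => claim x hx hTx j)
      rw [this]; exact hlim
    have h2 : Tendsto (fun j : ℕ => A.f h (A.f (h ^ (l + (j + 1)))⁻¹ x)) atTop (𝓝 (A.f h q)) :=
      (A.f_contAt h hqIoo).tendsto.comp (h1.comp (tendsto_add_atTop_nat 1))
    have h3 : (fun j : ℕ => A.f h (A.f (h ^ (l + (j + 1)))⁻¹ x)) =
        fun j : ℕ => A.f (h ^ (l + j))⁻¹ x := by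
      funext j
      rw [show l + (j + 1) = (l + j) + 1 by ring, A.inv_pow_succ' h (l + j) hx,
        A.f_inv h (A.f_mem _ _ hx)]
    rw [h3] at h2
    exact tendsto_nhds_unique h2 h1
  have hihq : A.f h⁻¹ q = q := A.fix_inv h hqI hhq
  -- invariance
  have hinv : ∀ v ∈ Ioo z w, A.f h⁻¹ v ∈ Ioo z w := by
    intro v hv
    have hvI : v ∈ Icc a b := A.mem_of_mem_Ioo hz hw hv
    constructor
    · by_contra hcon
      push Not at hcon
      have h1 : v ≤ A.f h z := by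
        have := (A.le_iff h (A.f_mem _ _ hvI) hz).mpr hcon
        rwa [A.f_inv h hvI] at this
      have h2 : A.f h z < q := by
        have := (A.lt_iff h hz hqI).mpr hq.1
        rwa [hhq] at this
      have h3 := hT (A.f h z) ⟨lt_of_lt_of_le hv.1 h1, h2.trans hq.2⟩
      exact A.R1 hm R hz h3 hTz
    · by_contra hcon
      push Not at hcon
      have h1 : A.f h w ≤ v := by
        have := (A.le_iff h hw (A.f_mem _ _ hvI)).mpr hcon
        rwa [A.f_inv h hvI] at this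
      have h2 : q < A.f h w := by
        have := (A.lt_iff h hqI hw).mpr hq.2
        rwa [hhq] at this
      have h3 := hT (A.f h w) ⟨hq.1.trans h2, lt_of_le_of_lt h1 hv.2⟩
      exact A.R1 hm R hw h3 hTw
  have hinvn : ∀ n : ℕ, ∀ v ∈ Ioo z w, A.f (h ^ n)⁻¹ v ∈ Ioo z w := by
    intro n v hv
    induction n with
    | zero => rw [pow_zero, inv_one, A.f_one v (A.mem_of_mem_Ioo hz hw hv)]; exact hv
    | succ n ih =>
      rw [A.inv_pow_succ' h n (A.mem_of_mem_Ioo hz hw hv)]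
      exact hinv _ ih
  refine ⟨z, w, q, ⟨hz, hw, hq, hTz, hTw, hT, hhq, hinv, ?_⟩, hyzw⟩
  intro v hv
  have hvI : v ∈ Icc a b := A.mem_of_mem_Ioo hz hw hv
  obtain ⟨C, hC⟩ := hr _ (hinvn l v hv)
  have hmR : (1:ℝ) ≤ m := by exact_mod_cast (by omega : 1 ≤ m)
  have hab : a ≤ b := hz.1.trans hz.2
  have hC0 : 0 ≤ C := le_trans (by positivity) (hC 0)
  refine ⟨(C + (b - a)) * (m:ℝ) ^ l, ?_⟩
  intro n
  rcases le_or_gt l n with hln | hln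
  · obtain ⟨j, rfl⟩ : ∃ j, n = l + j := ⟨n - l, by omega⟩
    have h1 := hC j
    rw [← claim v hvI (hT v hv) j] at h1
    have hsplit : (m:ℝ) ^ (l + j) = (m:ℝ) ^ j * (m:ℝ) ^ l := by rw [pow_add]; ring
    rw [hsplit, ← mul_assoc]
    apply mul_le_mul_of_nonneg_right _ (by positivity)
    linarith
  · have h1 : |A.f (h ^ n)⁻¹ v - q| ≤ b - a := by
      have c1 := A.f_mem (h ^ n)⁻¹ v hvI
      rw [abs_le]; constructor <;> linarith [c1.1, c1.2, hqI.1, hqI.2]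
    have h2 : (m:ℝ) ^ n ≤ (m:ℝ) ^ l := pow_le_pow_right₀ hmR hln.le
    calc |A.f (h ^ n)⁻¹ v - q| * (m:ℝ) ^ n ≤ (b - a) * (m:ℝ) ^ l := by
          apply mul_le_mul h1 h2 (by positivity) (by linarith)
      _ ≤ _ := by
          apply mul_le_mul_of_nonneg_right _ (by positivity)
          linarith

/-- flatness of `u` at `q` -/
lemma flat_u (hm : 2 ≤ m) (R : Rel h h₂ T u m k l N)
    (hsm : ContDiffOn ℝ ((k + 1 : ℕ) : WithTop ℕ∞) (A.f u) (Ioo a b)) {z w q : ℝ}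
    (G : A.Good h T m z w q) :
    (fun x => A.f u x - x) =o[𝓝 q] (fun x => (x - q) ^ (k + 1)) := by
  have hqI : q ∈ Icc a b := A.mem_of_mem_Ioo G.hz G.hw G.hq
  have hqIoo : q ∈ Ioo a b := ⟨lt_of_le_of_lt G.hz.1 G.hq.1, lt_of_lt_of_le G.hq.2 G.hw.2⟩
  have hNzw : A.f (T ^ N) q ∈ Ioo z w := by
    have h1 := (A.lt_iff (T ^ N) G.hz hqI).mpr G.hq.1
    have h2 := (A.lt_iff (T ^ N) hqI G.hw).mpr G.hq.2
    rw [A.fix_pow T N G.hz G.Tz] at h1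
    rw [A.fix_pow T N G.hw G.Tw] at h2
    exact ⟨h1, h2⟩
  obtain ⟨C, hC⟩ := G.rate _ hNzw
  have hlim := tendsto_of_rate hm hC
  apply flat_isLittleO (s := Ioo a b) isOpen_Ioo hqIoo hlim (k + 1)
  · exact hsm.sub contDiffOn_id
  · intro j
    set g := (h ^ j)⁻¹ * T ^ N * (h ^ l)⁻¹ with hg
    have hgq : A.f g q = A.f (h ^ j)⁻¹ (A.f (T ^ N) q) := by
      rw [hg, A.f_mul _ _ q hqI, A.fix_inv _ hqI (A.fix_pow h l hqI G.hhq), A.f_mul _ _ q hqI]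
    set p := A.f (h ^ j)⁻¹ (A.f (T ^ N) q) with hp
    have hpIoo : p ∈ Ioo a b := A.Ioo_mem _ (A.Ioo_mem _ hqIoo)
    have hpI : p ∈ Icc a b := Ioo_subset_Icc_self hpIoo
    have hTp : A.f (g * T * g⁻¹) p ≠ p := by
      rw [← hgq, ← A.f_mul _ _ q hqI]
      have : g * T * g⁻¹ * g = g * T := by group
      rw [this, A.f_mul _ _ q hqI]
      intro hcon
      exact G.hT q G.hq ((A.f_mono g).injOn (A.f_mem _ _ hqI) hqI hcon)
    have hcont : ContinuousAt (fun x => A.f (g * T * g⁻¹) x - x) p :=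
      (A.f_contAt _ hpIoo).sub continuousAt_id
    have hev : ∀ᶠ x in 𝓝 p, A.f (g * T * g⁻¹) x - x ≠ 0 :=
      hcont.eventually_ne (sub_ne_zero.mpr hTp)
    have hev2 : ∀ᶠ x in 𝓝 p, x ∈ Ioo a b := isOpen_Ioo.mem_nhds hpIoo
    filter_upwards [hev, hev2] with x hx1 hx2
    have := A.toolA_conj (c := u) hm R.bs (R.r5a j) (R.r5b j) (Ioo_subset_Icc_self hx2)
      (sub_ne_zero.mp hx1)
    simp [this]

/-- one-sided version -/
lemma id_left (hm : 2 ≤ m) {q x₁ : ℝ} (hx₁ : x₁ ∈ Icc a b) (hqI : q ∈ Icc a b)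
    (hhq : A.f h q = q)
    (rate : ∀ x ∈ Ico x₁ q, ∃ C, ∀ n : ℕ, |A.f (h ^ n)⁻¹ x - q| * (m:ℝ) ^ n ≤ C)
    (rel1 : ∀ y ∈ Ico x₁ q, A.f (u ^ (m ^ k)) (A.f h⁻¹ y) = A.f h⁻¹ (A.f u y))
    (rel2 : ∀ y ∈ Ico x₁ q, A.f (u⁻¹ ^ (m ^ k)) (A.f h⁻¹ y) = A.f h⁻¹ (A.f u⁻¹ y))
    (flat1 : (fun x => A.f u x - x) =o[𝓝 q] (fun x => (x - q) ^ (k + 1)))
    (flat2 : (fun x => A.f u⁻¹ x - x) =o[𝓝 q] (fun x => (x - q) ^ (k + 1))) :
    ∀ x ∈ Ico x₁ q, A.f u x = x := by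
  have hfix : ∀ v : Γ, (fun x => A.f v x - x) =o[𝓝 q] (fun x => (x - q) ^ (k + 1)) →
      A.f v q = q := by
    intro v hv
    have h1 := (isLittleO_iff.mp hv (c := 1) one_pos).self_of_nhds
    simp at h1
    linarith
  have hcontr : ∀ x ∈ Ico x₁ q, x < A.f h⁻¹ x := by
    intro x hx
    have hxI : x ∈ Icc a b := A.mem_of_mem_Icc hx₁ hqI ⟨hx.1, hx.2.le⟩
    by_contra hcon
    push Not at hcon
    obtain ⟨C, hC⟩ := rate x hx
    have hlim := tendsto_of_rate hm hC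
    have hle : ∀ n : ℕ, A.f (h ^ n)⁻¹ x ≤ x := by
      intro n
      rw [← inv_pow]
      exact A.pow_le h⁻¹ n hxI hcon
    have := le_of_tendsto' hlim hle
    linarith [hx.2]
  intro x hx
  have hxI : x ∈ Icc a b := A.mem_of_mem_Icc hx₁ hqI ⟨hx.1, hx.2.le⟩
  have h1 := A.scale_left hm hx₁ hqI hhq (hfix u flat1) hcontr rate rel1 flat1 x hx
  have h2 := A.scale_left hm hx₁ hqI hhq (hfix u⁻¹ flat2) hcontr rate rel2 flat2 x hx
  have h3 := (A.le_iff u (A.f_mem _ _ hxI) hxI).mpr h2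
  rw [A.f_inv u hxI] at h3
  exact le_antisymm h1 h3

/-- `u` is the identity near `q` -/
lemma id_near (hm : 2 ≤ m) (R : Rel h h₂ T u m k l N)
    (hsm : ContDiffOn ℝ ((k + 1 : ℕ) : WithTop ℕ∞) (A.f u) (Ioo a b))
    (hsm' : ContDiffOn ℝ ((k + 1 : ℕ) : WithTop ℕ∞) (A.f u⁻¹) (Ioo a b)) {z w q : ℝ}
    (G : A.Good h T m z w q) : ∀ᶠ x in 𝓝 q, A.f u x = x := by
  have hqI : q ∈ Icc a b := A.mem_of_mem_Ioo G.hz G.hw G.hq
  have hqIoo : q ∈ Ioo a b := ⟨lt_of_le_of_lt G.hz.1 G.hq.1, lt_of_lt_of_le G.hq.2 G.hw.2⟩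
  have hihq : A.f h⁻¹ q = q := A.fix_inv h hqI G.hhq
  have flat1 := A.flat_u hm R hsm G
  have flat2 := A.flat_u hm R.inv hsm' G
  have huq : A.f u q = q := by
    have h1 := (isLittleO_iff.mp flat1 (c := 1) one_pos).self_of_nhds
    simp at h1
    linarith
  set TA := (h ^ l)⁻¹ * T * h ^ l with hTA
  have hTAq : A.f TA q ≠ q := by
    rw [ne_eq, hTA, A.TA_iff l hqI, A.fix_pow h l hqI G.hhq]
    exact G.hT q G.hq
  have hcont : ContinuousAt (fun x => A.f (TA * h⁻¹) x - A.f h⁻¹ x) q :=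
    (A.f_contAt _ hqIoo).sub (A.f_contAt _ hqIoo)
  have hev1 : ∀ᶠ x in 𝓝 q, A.f (TA * h⁻¹) x - A.f h⁻¹ x ≠ 0 := by
    apply hcont.eventually_ne
    rw [A.f_mul _ _ q hqI, hihq]
    exact sub_ne_zero.mpr hTAq
  have hev2 : ∀ᶠ x in 𝓝 q, x ∈ Ioo z w := isOpen_Ioo.mem_nhds G.hq
  obtain ⟨δ, hδ, hball⟩ := Metric.eventually_nhds_iff_ball.mp (hev1.and hev2)
  have hballI : ∀ x ∈ Metric.ball q δ, x ∈ Icc a b := fun x hx =>
    A.mem_of_mem_Ioo G.hz G.hw (hball x hx).2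
  have hrel : ∀ v : Γ, Rel h h₂ T v m k l N → ∀ y ∈ Metric.ball q δ,
      A.f (v ^ (m ^ k)) (A.f h⁻¹ y) = A.f h⁻¹ (A.f v y) := by
    intro v Rv y hy
    have hyI := hballI y hy
    have h1 := (hball y hy).1
    rw [A.f_mul _ _ y hyI] at h1
    have h2 := A.R4 hm Rv (A.f_mem h⁻¹ y hyI) (sub_ne_zero.mp h1)
    rw [h2, A.f_inv h hyI]
  -- left side
  have hleft : ∀ x ∈ Ico (q - δ / 2) q, A.f u x = x := by
    have hin : ∀ x ∈ Ico (q - δ / 2) q, x ∈ Metric.ball q δ := by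
      intro x hx
      rw [Metric.mem_ball, Real.dist_eq, abs_of_nonpos (by linarith [hx.2])]
      linarith [hx.1]
    have hx₁ball : q - δ / 2 ∈ Metric.ball q δ := hin _ ⟨le_refl _, by linarith⟩
    exact A.id_left hm (hballI _ hx₁ball) hqI G.hhq
      (fun x hx => G.rate x (hball x (hin x hx)).2) (fun y hy => hrel u R y (hin y hy))
      (fun y hy => hrel u⁻¹ R.inv y (hin y hy)) flat1 flat2
  -- right side
  have hright : ∀ x ∈ Ioc q (q + δ / 2), A.f u x = x := by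
    have hin : ∀ x ∈ Ioc q (q + δ / 2), x ∈ Metric.ball q δ := by
      intro x hx
      rw [Metric.mem_ball, Real.dist_eq, abs_of_nonneg (by linarith [hx.1])]
      linarith [hx.2]
    have hx₁ball : q + δ / 2 ∈ Metric.ball q δ := hin _ ⟨by linarith, le_refl _⟩
    have hx₁I := hballI _ hx₁ball
    have hflat : ∀ v : Γ, (fun x => A.f v x - x) =o[𝓝 q] (fun x => (x - q) ^ (k + 1)) →
        (fun x => A.reflect.f v x - x) =o[𝓝 (-q)] (fun x => (x - -q) ^ (k + 1)) := by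
      intro v hv
      rw [isLittleO_iff] at hv ⊢
      intro ε hε
      have h1 := hv hε
      have h2 : Tendsto (fun x : ℝ => -x) (𝓝 (-q)) (𝓝 q) := by
        have := (continuous_neg (G := ℝ)).tendsto (-q)
        rwa [neg_neg] at this
      filter_upwards [h2.eventually h1] with x hx
      have e1 : A.reflect.f v x - x = -(A.f v (-x) - -x) := by
        show -A.f v (-x) - x = _; ring
      have e2 : ‖(x - -q) ^ (k + 1)‖ = ‖(-x - q) ^ (k + 1)‖ := by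
        rw [norm_pow, norm_pow, show x - -q = -(-x - q) by ring, norm_neg]
      rw [e1, norm_neg, e2]; exact hx
    have hneg : ∀ y ∈ Ico (-(q + δ / 2)) (-q), -y ∈ Ioc q (q + δ / 2) := fun y hy =>
      ⟨by linarith [hy.2], by linarith [hy.1]⟩
    have hid := A.reflect.id_left (h := h) (u := u) (k := k) hm (q := -q) (x₁ := -(q + δ / 2))
      ⟨by linarith [hx₁I.2], by linarith [hx₁I.1]⟩ ⟨by linarith [hqI.2], by linarith [hqI.1]⟩
      (by show -A.f h (- -q) = -q; rw [neg_neg, G.hhq])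
      (by
        intro x hx
        obtain ⟨C, hC⟩ := G.rate (-x) (hball _ (hin _ (hneg x hx))).2
        refine ⟨C, fun n => ?_⟩
        have e1 : A.reflect.f (h ^ n)⁻¹ x - -q = -(A.f (h ^ n)⁻¹ (-x) - q) := by
          show -A.f (h ^ n)⁻¹ (-x) - -q = _; ring
        rw [e1, abs_neg]; exact hC n)
      (by
        intro y hy
        show -A.f (u ^ (m ^ k)) (- -A.f h⁻¹ (-y)) = -A.f h⁻¹ (- -A.f u (-y))
        rw [neg_neg, neg_neg, hrel u R (-y) (hin _ (hneg y hy))])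
      (by
        intro y hy
        show -A.f (u⁻¹ ^ (m ^ k)) (- -A.f h⁻¹ (-y)) = -A.f h⁻¹ (- -A.f u⁻¹ (-y))
        rw [neg_neg, neg_neg, hrel u⁻¹ R.inv (-y) (hin _ (hneg y hy))])
      (hflat u flat1) (hflat u⁻¹ flat2)
    intro x hx
    have h1 := hid (-x) ⟨by linarith [hx.2], by linarith [hx.1]⟩
    have h2 : -A.f u (- -x) = -x := h1
    rw [neg_neg] at h2
    linarith
  rw [Metric.eventually_nhds_iff_ball]
  refine ⟨δ / 2, by positivity, ?_⟩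
  intro x hx
  rw [Metric.mem_ball, Real.dist_eq] at hx
  have hx' := abs_lt.mp hx
  rcases lt_trichotomy x q with h1 | h1 | h1
  · exact hleft x ⟨by linarith, h1⟩
  · rw [h1]; exact huq
  · exact hright x ⟨h1, by linarith⟩

/-- `u` is the identity on the support of `h⁻ˡ T hˡ` -/
lemma id_support (hm : 2 ≤ m) (R : Rel h h₂ T u m k l N)
    (hsm : ContDiffOn ℝ ((k + 1 : ℕ) : WithTop ℕ∞) (A.f u) (Ioo a b))
    (hsm' : ContDiffOn ℝ ((k + 1 : ℕ) : WithTop ℕ∞) (A.f u⁻¹) (Ioo a b)) {x : ℝ}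
    (hx : x ∈ Icc a b) (hTx : A.f ((h ^ l)⁻¹ * T * h ^ l) x ≠ x) : A.f u x = x := by
  have hTx' := hTx
  rw [ne_eq, A.TA_iff l hx] at hTx'
  set x' := A.f (h ^ l) x with hx'
  have hx'I : x' ∈ Icc a b := A.f_mem _ _ hx
  obtain ⟨z, w, q, G, hxzw⟩ := A.exists_good hm R hx'I hTx'
  rw [hx', A.inv_f _ hx] at hxzw
  obtain ⟨C, hC⟩ := G.rate x hxzw
  have hlim := tendsto_of_rate hm hC
  have hid := A.id_near hm R hsm hsm' G
  obtain ⟨n, hn⟩ := (hlim.eventually hid).exists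
  -- descend
  have hdesc : ∀ n : ℕ, A.f u (A.f (h ^ n)⁻¹ x) = A.f (h ^ n)⁻¹ x → A.f u x = x := by
    intro n
    induction n with
    | zero => rw [pow_zero, inv_one, A.f_one x hx]; exact fun h => h
    | succ n ih =>
      intro h1
      apply ih
      set y := A.f (h ^ (n + 1))⁻¹ x with hy
      have hyI : y ∈ Icc a b := A.f_mem _ _ hx
      have hhy : A.f h y = A.f (h ^ n)⁻¹ x := by
        rw [hy, A.inv_pow_succ' h n hx, A.f_inv h (A.f_mem _ _ hx)]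
      have hTy : A.f ((h ^ l)⁻¹ * T * h ^ l) y ≠ y := by
        rw [ne_eq, A.TA_iff l hyI]
        have h3 : A.f (h ^ l) y = A.f (h ^ (n + 1))⁻¹ x' := by
          rw [hy, hx', ← A.f_mul _ _ x hx, ← A.f_mul _ _ x hx]
          congr 1
          exact ((Commute.pow_pow_self h l (n + 1)).inv_right).eq
        rw [h3]
        exact A.back hm R (n + 1) hx'I hTx'
      have h4 := A.R4 hm R hyI hTy
      rw [A.fix_pow u _ hyI h1] at h4
      have h5 := congrArg (A.f h) h4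
      rw [A.f_inv h (A.f_mem _ _ (A.f_mem _ _ hyI))] at h5
      rw [← hhy]; exact h5.symm
  exact hdesc n hn

/-- **The interval theorem.** -/
theorem interval_theorem (hm : 2 ≤ m) (R : Rel h h₂ T u m k l N)
    (hsm : ContDiffOn ℝ ((k + 1 : ℕ) : WithTop ℕ∞) (A.f u) (Ioo a b))
    (hsm' : ContDiffOn ℝ ((k + 1 : ℕ) : WithTop ℕ∞) (A.f u⁻¹) (Ioo a b)) {x : ℝ}
    (hx : x ∈ Icc a b) :
    A.f (u * ((h ^ l)⁻¹ * T * h ^ l)) x = A.f (((h ^ l)⁻¹ * T * h ^ l) * u) x := by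
  set TA := (h ^ l)⁻¹ * T * h ^ l with hTA
  rw [A.f_mul u TA x hx, A.f_mul TA u x hx]
  have hid : ∀ y ∈ Icc a b, A.f TA y ≠ y → A.f u y = y := fun y hy hTy =>
    A.id_support hm R hsm hsm' hy hTy
  by_cases hTx : A.f TA x = x
  · rw [hTx]
    by_cases hTux : A.f TA (A.f u x) = A.f u x
    · exact hTux.symm
    · have h1 := hid _ (A.f_mem _ _ hx) hTux
      have h2 : A.f u x = x := (A.f_mono u).injOn (A.f_mem _ _ hx) hx h1
      rw [h2, hTx]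
  · rw [hid x hx hTx]
    apply hid _ (A.f_mem _ _ hx)
    intro h1
    exact hTx ((A.f_mono TA).injOn (A.f_mem _ _ hx) hx h1)

end Act

end Pool.Agent.H63.Crit
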