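import Pool.Agent.H63.Crit.ActInst
import Pool.Agent.H63.Crit.Interval

/-!
# Lifts of circle diffeomorphisms
-/

namespace Pool.Agent.H63.Crit

open Set Filter Topology

/-- the group of lifts -/
def LiftG (k : ℕ) : Subgroup (Equiv.Perm ℝ) where
  carrier := {F | StrictMono F ∧ (∀ x, F (x + 1) = F x + 1) ∧ ContDiff ℝ k F ∧
    ContDiff ℝ k (F⁻¹ : Equiv.Perm ℝ)}
  mul_mem' := by
    intro F G hF hG
    refine ⟨hF.1.comp hG.1, ?_, hF.2.2.1.comp hG.2.2.1, ?_⟩
    · intro x
      rw [Equiv.Perm.mul_apply, hG.2.1, hF.2.1, Equiv.Perm.mul_apply]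
    · rw [mul_inv_rev]
      exact hG.2.2.2.comp hF.2.2.2
  one_mem' := ⟨strictMono_id, fun x => rfl, contDiff_id, by rw [inv_one]; exact contDiff_id⟩
  inv_mem' := by
    intro F hF
    refine ⟨?_, ?_, hF.2.2.2, by rw [inv_inv]; exact hF.2.2.1⟩
    · intro x y hxy
      have : F (F⁻¹ x) < F (F⁻¹ y) := by simpa using hxy
      exact hF.1.lt_iff_lt.mp this
    · intro x
      apply F.injective
      rw [hF.2.1]
      simp

variable {k : ℕ}

lemma add_int (F : LiftG k) (x : ℝ) (n : ℤ) : F.1 (x + n) = F.1 x + n := by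
  induction n using Int.induction_on with
  | zero => simp
  | succ n ih =>
    push_cast at ih ⊢
    rw [← add_assoc, F.2.2.1, ih]; ring
  | pred n ih =>
    push_cast at ih ⊢
    have := F.2.2.1 (x + (-(n:ℝ) - 1))
    rw [show x + (-(n:ℝ) - 1) + 1 = x + -n by ring, ih] at this
    linarith

/-- translations -/
def tr (k : ℕ) (n : ℤ) : LiftG k :=
  ⟨Equiv.addRight (n : ℝ), by
    refine ⟨?_, ?_, ?_, ?_⟩
    · intro x y hxy; simpa using hxy
    · intro x; simp only [Equiv.coe_addRight]; ring
    · exact contDiff_id.add contDiff_const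
    · have : ((Equiv.addRight (n:ℝ))⁻¹ : Equiv.Perm ℝ) = Equiv.addRight (-(n:ℝ)) := by
        ext x
        rw [Equiv.Perm.inv_def]
        simp
      rw [this]
      exact contDiff_id.add contDiff_const⟩

lemma tr_apply (n : ℤ) (x : ℝ) : (tr k n).1 x = x + n := rfl

lemma tr_comm (n : ℤ) (F : LiftG k) : Commute (tr k n) F := by
  apply Subtype.ext
  ext x
  show (tr k n).1 (F.1 x) = F.1 ((tr k n).1 x)
  rw [tr_apply, tr_apply, add_int]

/-- the map of the circle induced by a lift -/
noncomputable def circ (F : ℝ → ℝ) (hF : ∀ x, F (x + 1) = F x + 1) : UnitAddCircle → UnitAddCircle :=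
  Function.Periodic.lift (f := fun x : ℝ => (F x : UnitAddCircle)) (c := (1:ℝ)) (by
    intro x
    simp only [hF]
    rw [AddCircle.coe_add, AddCircle.coe_period, add_zero])

lemma circ_coe (F : ℝ → ℝ) (hF : ∀ x, F (x + 1) = F x + 1) (x : ℝ) :
    circ F hF (x : UnitAddCircle) = (F x : UnitAddCircle) := by
  unfold circ
  exact Function.Periodic.lift_coe _ x

/-- projection of the group of lifts -/
noncomputable def proj (k : ℕ) : LiftG k →* Equiv.Perm UnitAddCircle where
  toFun F :=
    { toFun := circ F.1 F.2.2.1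
      invFun := circ (F⁻¹).1 (F⁻¹).2.2.1
      left_inv := by
        intro x
        induction x using QuotientAddGroup.induction_on with
        | H x =>
          show circ _ _ (circ _ _ (x : UnitAddCircle)) = (x : UnitAddCircle)
          rw [circ_coe, circ_coe]
          congr 1
          show (F⁻¹ * F).1 x = x
          rw [inv_mul_cancel]; rfl
      right_inv := by
        intro x
        induction x using QuotientAddGroup.induction_on with
        | H x =>
          show circ _ _ (circ _ _ (x : UnitAddCircle)) = (x : UnitAddCircle)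
          rw [circ_coe, circ_coe]
          congr 1
          show (F * F⁻¹).1 x = x
          rw [mul_inv_cancel]; rfl }
  map_one' := by
    ext x
    induction x using QuotientAddGroup.induction_on with
    | H x =>
      exact circ_coe _ (1 : LiftG k).2.2.1 x
  map_mul' := by
    intro F G
    ext x
    induction x using QuotientAddGroup.induction_on with
    | H x =>
      show circ _ (F * G).2.2.1 (x : UnitAddCircle) =
        circ _ F.2.2.1 (circ _ G.2.2.1 (x : UnitAddCircle))
      rw [circ_coe, circ_coe, circ_coe]; rfl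

lemma proj_coe (F : LiftG k) (x : ℝ) : proj k F (x : UnitAddCircle) = (F.1 x : UnitAddCircle) :=
  circ_coe _ F.2.2.1 x

lemma coe_eq_iff {x y : ℝ} : (x : UnitAddCircle) = (y : UnitAddCircle) ↔ ∃ n : ℤ, x = y + n := by
  rw [← sub_eq_zero, ← AddCircle.coe_sub, AddCircle.coe_eq_zero_iff]
  constructor
  · rintro ⟨n, hn⟩
    refine ⟨n, ?_⟩
    simp only [zsmul_eq_mul, mul_one] at hn
    linarith
  · rintro ⟨n, hn⟩
    refine ⟨n, ?_⟩
    simp only [zsmul_eq_mul, mul_one]
    linarith

lemma lift_add_int {F : ℝ → ℝ} (hF : ∀ x, F (x + 1) = F x + 1) (x : ℝ) (n : ℤ) :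
    F (x + n) = F x + n := by
  induction n using Int.induction_on with
  | zero => simp
  | succ n ih =>
    push_cast at ih ⊢
    rw [← add_assoc, hF, ih]; ring
  | pred n ih =>
    push_cast at ih ⊢
    have := hF (x + (-(n:ℝ) - 1))
    rw [show x + (-(n:ℝ) - 1) + 1 = x + -n by ring, ih] at this
    linarith

/-- a continuous function whose values are integers is constant -/
lemma int_const {g : ℝ → ℝ} (hg : Continuous g) (h : ∀ x, ∃ n : ℤ, g x = n) :
    ∃ n : ℤ, ∀ x, g x = n := by
  obtain ⟨n, hn⟩ := h 0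
  refine ⟨n, fun x => ?_⟩
  by_contra hne
  obtain ⟨m, hm⟩ := h x
  have hmn : m ≠ n := by rintro rfl; exact hne hm
  -- intermediate value
  have hpre : IsPreconnected (range g) := isPreconnected_range hg
  have hord := hpre.ordConnected
  rcases lt_or_gt_of_ne hmn with hlt | hgt
  · have h1 : (m:ℝ) + 1/2 ∈ Icc (g x) (g 0) := by
      rw [hm, hn]
      have : (m:ℝ) + 1 ≤ n := by exact_mod_cast hlt
      constructor <;> linarith
    obtain ⟨y, hy⟩ := hord.out (mem_range_self x) (mem_range_self 0) h1
    obtain ⟨r, hr⟩ := h y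
    rw [hr] at hy
    have h2 : (m:ℝ) < r := by linarith
    have h3 : (r:ℝ) < m + 1 := by linarith
    have h4 : m < r := by exact_mod_cast h2
    have h5 : r < m + 1 := by exact_mod_cast h3
    omega
  · have h1 : (n:ℝ) + 1/2 ∈ Icc (g 0) (g x) := by
      rw [hm, hn]
      have : (n:ℝ) + 1 ≤ m := by exact_mod_cast hgt
      constructor <;> linarith
    obtain ⟨y, hy⟩ := hord.out (mem_range_self 0) (mem_range_self x) h1
    obtain ⟨r, hr⟩ := h y
    rw [hr] at hy
    have h2 : (n:ℝ) < r := by linarith
    have h3 : (r:ℝ) < n + 1 := by linarith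
    have h4 : n < r := by exact_mod_cast h2
    have h5 : r < n + 1 := by exact_mod_cast h3
    omega

lemma lift_cont (F : LiftG k) : Continuous F.1 := F.2.2.2.1.continuous

/-- two lifts of the same map differ by a translation -/
lemma eq_tr_mul {F G : LiftG k} (h : proj k F = proj k G) : ∃ n : ℤ, F = tr k n * G := by
  have h1 : ∀ x, ∃ n : ℤ, F.1 x - G.1 x = n := by
    intro x
    have h2 := congrArg (fun e : Equiv.Perm UnitAddCircle => e (x : UnitAddCircle)) h
    simp only [proj_coe] at h2
    obtain ⟨n, hn⟩ := coe_eq_iff.mp h2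
    exact ⟨n, by linarith⟩
  obtain ⟨n, hn⟩ := int_const ((lift_cont F).sub (lift_cont G)) h1
  refine ⟨n, ?_⟩
  apply Subtype.ext
  ext x
  show F.1 x = (tr k n).1 (G.1 x)
  rw [tr_apply]
  have h3 : F.1 x - G.1 x = n := hn x
  linarith

lemma proj_tr (n : ℤ) : proj k (tr k n) = 1 := by
  ext x
  induction x using QuotientAddGroup.induction_on with
  | H x =>
    show proj k (tr k n) (x : UnitAddCircle) = (x : UnitAddCircle)
    rw [proj_coe, tr_apply]
    exact coe_eq_iff.mpr ⟨n, rfl⟩

/-- existence of lifts -/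
lemma exists_lift (e : DiffS k) : ∃ F : LiftG k, proj k F = e.1 := by
  obtain ⟨⟨F, hF, hFk⟩, ⟨G, hG, hGk⟩⟩ := e.2
  have hGF := hG.comp hF
  rw [inv_mul_cancel] at hGF
  have h1 : ∀ x, ∃ n : ℤ, G (F x) - x = n := by
    intro x
    have h2 := hGF.2.2 x
    rw [Equiv.Perm.one_apply] at h2
    obtain ⟨n, hn⟩ := coe_eq_iff.mp h2.symm
    exact ⟨n, by simp only [Function.comp] at hn; linarith⟩
  obtain ⟨n, hn⟩ := int_const ((hGk.continuous.comp hFk.continuous).sub continuous_id) h1
  have hFG := hF.comp hG
  rw [mul_inv_cancel] at hFG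
  have h1' : ∀ x, ∃ n : ℤ, F (G x) - x = n := by
    intro x
    have h2 := hFG.2.2 x
    rw [Equiv.Perm.one_apply] at h2
    obtain ⟨n, hn⟩ := coe_eq_iff.mp h2.symm
    exact ⟨n, by simp only [Function.comp] at hn; linarith⟩
  obtain ⟨n', hn'⟩ := int_const ((hFk.continuous.comp hGk.continuous).sub continuous_id) h1'
  -- the inverse of `F` is `G - n`
  have hleft : ∀ x, G (F x) - n = x := by
    intro x
    have h3 : G (F x) - x = n := hn x
    linarith
  have hright : ∀ x, F (G x - n) = x := by
    intro x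
    have e1 : F (G x - n) = F (G x) - n := by
      have := lift_add_int hF.2.1 (G x) (-n)
      push_cast at this
      rw [← sub_eq_add_neg, ← sub_eq_add_neg] at this
      exact this
    have e2 : F (G x) - x = n' := hn' x
    -- apply `G` and compare
    have e3 := hleft (G x - n)
    rw [e1] at e3
    have e4 : G (F (G x) - n) = G (F (G x)) - n := by
      have := lift_add_int hG.2.1 (F (G x)) (-n)
      push_cast at this
      rw [← sub_eq_add_neg, ← sub_eq_add_neg] at this
      exact this
    have e5 : F (G x) = x + n' := by linarith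
    have e6 : G (F (G x)) = G x + n' := by rw [e5]; exact lift_add_int hG.2.1 x n'
    have e7 := hleft (G x)
    rw [e1]
    linarith
  let E : Equiv.Perm ℝ :=
    { toFun := F
      invFun := fun x => G x - n
      left_inv := hleft
      right_inv := hright }
  have hE : E ∈ LiftG k := by
    refine ⟨hF.1, hF.2.1, hFk, ?_⟩
    exact hGk.sub contDiff_const
  refine ⟨⟨E, hE⟩, ?_⟩
  ext x
  induction x using QuotientAddGroup.induction_on with
  | H x =>
    show proj k ⟨E, hE⟩ (x : UnitAddCircle) = e.1 (x : UnitAddCircle)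
    rw [proj_coe, hF.2.2 x]
    rfl

end Pool.Agent.H63.Crit
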