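import Pool.Agent.H63.Crit.Circle

/-!
# The action of the group of lifts on the line, and the circle case of the main theorem
-/

namespace Pool.Agent.H63.Crit

open Set Filter Topology MeasureTheory

lemma bdd_of_periodic {g : ℝ → ℝ} (hg : Continuous g) (hp : ∀ x, g (x + 1) = g x) :
    ∃ B, ∀ x, |g x| ≤ B := by
  obtain ⟨B, hB⟩ := (isCompact_Icc (a := (0:ℝ)) (b := 1)).exists_bound_of_continuousOn hg.continuousOn
  refine ⟨B, fun x => ?_⟩
  have hp' : Function.Periodic g 1 := hp
  have h1 : g x = g (Int.fract x) := by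
    have := hp'.sub_zsmul_eq (x := x) ⌊x⌋
    rw [zsmul_eq_mul, mul_one] at this
    rw [Int.fract, this]
  rw [h1]
  exact hB _ ⟨Int.fract_nonneg x, (Int.fract_lt_one x).le⟩

lemma low_of_periodic {g : ℝ → ℝ} (hg : Continuous g) (hp : ∀ x, g (x + 1) = g x)
    (hpos : ∀ x, 0 < g x) : ∃ c > 0, ∀ x, c ≤ g x := by
  obtain ⟨x₀, hx₀, hmin⟩ := (isCompact_Icc (a := (0:ℝ)) (b := 1)).exists_isMinOn
    (nonempty_Icc.mpr zero_le_one) hg.continuousOn
  refine ⟨g x₀, hpos x₀, fun x => ?_⟩
  have hp' : Function.Periodic g 1 := hp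
  have h1 : g x = g (Int.fract x) := by
    have := hp'.sub_zsmul_eq (x := x) ⌊x⌋
    rw [zsmul_eq_mul, mul_one] at this
    rw [Int.fract, this]
  rw [h1]
  exact hmin ⟨Int.fract_nonneg x, (Int.fract_lt_one x).le⟩

lemma deriv_periodic {F : ℝ → ℝ} {c : ℝ} (hF : ∀ x, F (x + 1) = F x + c) :
    ∀ x, deriv F (x + 1) = deriv F x := by
  intro x
  have h1 : (fun y => F (y + 1)) = fun y => F y + c := funext hF
  have h2 := congrArg (fun f => deriv f x) h1
  simp only [deriv_comp_add_const, deriv_add_const] at h2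
  exact h2

/-- The action of the group of lifts on the line. -/
noncomputable def actR (k : ℕ) (hk : 2 ≤ k) : Act (LiftG k) univ :=
  have hdiff : ∀ e : LiftG k, Differentiable ℝ e.1 := fun e =>
    e.2.2.2.1.differentiable (by norm_cast; omega)
  have hmul : ∀ g g' : LiftG k, ∀ x, deriv (g * g').1 x = deriv g.1 (g'.1 x) * deriv g'.1 x := by
    intro g g' x
    exact (HasDerivAt.comp x (hdiff g _).hasDerivAt (hdiff g' x).hasDerivAt).deriv
  have hone : ∀ x, deriv (1 : LiftG k).1 x = 1 := fun x => deriv_id x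
  have hpos : ∀ g : LiftG k, ∀ x, 0 < deriv g.1 x := by
    intro g x
    have h1 : 0 ≤ deriv g.1 x := g.2.1.monotone.deriv_nonneg
    rcases h1.eq_or_lt with h2 | h2
    · exfalso
      have h3 := hmul g⁻¹ g x
      rw [← h2, mul_zero, inv_mul_cancel, hone x] at h3
      exact one_ne_zero h3
    · exact h2
  have hcd : ∀ g : LiftG k, ContDiff ℝ 1 (deriv g.1) := fun g => by
    have h1 : ContDiff ℝ ((1 : WithTop ℕ∞) + 1) g.1 := g.2.2.2.1.of_le (by norm_cast)
    exact (contDiff_succ_iff_deriv.mp h1).2.2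
  have hper : ∀ g : LiftG k, ∀ x, deriv g.1 (x + 1) = deriv g.1 x := fun g =>
    deriv_periodic g.2.2.1
  have hlip : ∀ g : LiftG k, ∃ K : ℝ, 0 ≤ K ∧ ∀ x ∈ (univ : Set ℝ), ∀ y ∈ (univ : Set ℝ),
      |deriv g.1 x - deriv g.1 y| ≤ K * |x - y| := by
    intro g
    have h1 : Continuous (deriv (deriv g.1)) := (hcd g).continuous_deriv (le_refl _)
    obtain ⟨B, hB⟩ := bdd_of_periodic h1 (deriv_periodic (c := 0) (fun x => by
      rw [hper g x, add_zero]))
    obtain ⟨K, hK⟩ := lip_of_deriv_bd (s := univ) convex_univ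
      ((hcd g).differentiable (by norm_num)).differentiableOn
      ⟨B, fun x _ => by rw [derivWithin_univ]; exact hB x⟩
    exact ⟨|K|, abs_nonneg K, fun x hx y hy => (hK x hx y hy).trans
      (mul_le_mul_of_nonneg_right (le_abs_self K) (abs_nonneg _))⟩
  { f := fun g => g.1
    d := fun g => deriv g.1
    ord := ordConnected_univ
    f_one := fun x _ => rfl
    f_mul := fun g g' x _ => rfl
    f_mem := fun g x _ => mem_univ _
    f_mono := fun g => g.2.1.strictMonoOn univ
    d_mul := fun g g' x _ => hmul g g' x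
    d_pos := fun g x _ => hpos g x
    hasDeriv := fun g x _ => (hdiff g x).hasDerivAt
    cont := fun g => (lift_cont g).continuousOn
    lip := hlip
    loglip := fun g => by
      obtain ⟨c, hc0, hc⟩ := low_of_periodic ((hcd g).continuous) (hper g) (hpos g)
      obtain ⟨K, hK0, hK⟩ := hlip g
      exact ⟨K / c, by positivity, loglip_of hc0 (fun x _ => hc x) hK⟩
    bdd := fun g => by
      obtain ⟨B, hB⟩ := bdd_of_periodic ((hcd g).continuous) (hper g)
      exact ⟨B, fun x _ => (le_abs_self _).trans (hB x)⟩ }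

variable {k : ℕ}

/-- lifts as elements of the monoid `CircleDeg1Lift` -/
def cd (F : LiftG k) : CircleDeg1Lift :=
  ⟨⟨F.1, F.2.1.monotone⟩, F.2.2.1⟩

lemma cd_mul (F G : LiftG k) : cd (F * G) = cd F * cd G := by
  ext x; rfl

lemma cd_tr (c : ℤ) : (cd (tr k c)).translationNumber = c := by
  apply CircleDeg1Lift.translationNumber_of_eq_add_int (x := 0)
  rfl

/-- in a Baumslag-Solitar pair on the circle, `T` has a fixed point -/
lemma exists_fixed {S T : LiftG k} (h : proj k (S * T * S⁻¹) = proj k (T ^ 2)) :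
    ∃ T' : LiftG k, proj k T' = proj k T ∧ ∃ x, T'.1 x = x := by
  obtain ⟨c, hc⟩ := eq_tr_mul h
  have h1 : (cd (S * T * S⁻¹)).translationNumber = (cd T).translationNumber := by
    symm
    apply CircleDeg1Lift.translationNumber_eq_of_semiconjBy (f := cd S)
    show cd S * cd T = cd (S * T * S⁻¹) * cd S
    rw [← cd_mul, ← cd_mul]; congr 1; group
  have h2 : (cd (S * T * S⁻¹)).translationNumber = c + 2 * (cd T).translationNumber := by
    have h3 : cd (T ^ 2) = cd T ^ 2 := by rw [sq, sq, cd_mul]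
    rw [hc, cd_mul, CircleDeg1Lift.translationNumber_mul_of_commute, cd_tr, h3,
      CircleDeg1Lift.translationNumber_pow]
    · push_cast; ring
    · show cd (tr k c) * cd (T ^ 2) = cd (T ^ 2) * cd (tr k c)
      rw [← cd_mul, ← cd_mul, (tr_comm c _).eq]
  have h4 : (cd T).translationNumber = ((-c : ℤ) : ℝ) := by push_cast; linarith
  have hcont : Continuous (cd T) := lift_cont T
  rw [CircleDeg1Lift.translationNumber_eq_int_iff _ hcont] at h4
  obtain ⟨x, hx⟩ := h4
  refine ⟨tr k c * T, ?_, x, ?_⟩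
  · rw [map_mul, proj_tr, one_mul]
  · show (tr k c).1 (T.1 x) = x
    have hx' : T.1 x = x + ((-c : ℤ) : ℝ) := hx
    rw [tr_apply, hx']; push_cast; ring

/-- commuting circle maps have commuting lifts if one of them has a fixed point -/
lemma lift_commute {g T : LiftG k} {x₀ : ℝ} (hx₀ : T.1 x₀ = x₀)
    (h : proj k (g * T * g⁻¹) = proj k T) : Commute g T := by
  obtain ⟨c, hc⟩ := eq_tr_mul h
  have hfix : (g * T * g⁻¹).1 (g.1 x₀) = g.1 x₀ := by
    show g.1 (T.1 ((g⁻¹).1 (g.1 x₀))) = g.1 x₀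
    have : (g⁻¹).1 (g.1 x₀) = x₀ := by
      show (g⁻¹ * g).1 x₀ = x₀
      rw [inv_mul_cancel]; rfl
    rw [this, hx₀]
  have h1 : T.1 (g.1 x₀) + c = g.1 x₀ := by
    rw [hc] at hfix
    exact hfix
  set y := g.1 x₀ with hy
  have hc0 : c = 0 := by
    set j := ⌊y - x₀⌋ with hj
    have hj1 : x₀ + j ≤ y := by have := Int.floor_le (y - x₀); linarith
    have hj2 : y < x₀ + j + 1 := by have := Int.lt_floor_add_one (y - x₀); linarith
    have e1 : T.1 (x₀ + j) = x₀ + j := by rw [add_int, hx₀]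
    have e2 : T.1 (x₀ + j + 1) = x₀ + j + 1 := by rw [T.2.2.1, e1]
    have h2 : x₀ + j ≤ T.1 y := by rw [← e1]; exact T.2.1.monotone hj1
    have h3 : T.1 y < x₀ + j + 1 := by rw [← e2]; exact T.2.1 hj2
    have h4 : (c:ℝ) < 1 := by linarith
    have h5 : (-1:ℝ) < c := by linarith
    have h6 : c < 1 := by exact_mod_cast h4
    have h7 : -1 < c := by exact_mod_cast h5
    omega
  have h8 : g * T * g⁻¹ = T := by
    rw [hc, hc0]
    apply Subtype.ext
    ext x
    show (tr k 0).1 (T.1 x) = T.1 x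
    rw [tr_apply]; simp
  show g * T = T * g
  calc g * T = (g * T * g⁻¹) * g := by group
    _ = T * g := by rw [h8]

/-- disjoint intervals inside an interval -/
lemma sum_disjoint_le {N : ℕ} {a b : ℕ → ℝ} {z L : ℝ} (hab : ∀ n, a n ≤ b n)
    (hL : ∀ n, z ≤ a n ∧ b n ≤ z + L) (hL0 : 0 ≤ L)
    (hdis : ∀ n m, n ≠ m → Disjoint (Ioo (a n) (b n)) (Ioo (a m) (b m))) :
    ∑ n ∈ Finset.range N, (b n - a n) ≤ L := by
  have h1 : volume (⋃ n ∈ Finset.range N, Ioo (a n) (b n)) =
      ∑ n ∈ Finset.range N, volume (Ioo (a n) (b n)) := by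
    apply measure_biUnion_finset
    · intro n _ m _ hnm; exact hdis n m hnm
    · intro n _; exact measurableSet_Ioo
  have h2 : (⋃ n ∈ Finset.range N, Ioo (a n) (b n)) ⊆ Icc z (z + L) := by
    intro x hx
    simp only [mem_iUnion] at hx
    obtain ⟨n, _, hx⟩ := hx
    exact ⟨(hL n).1.trans hx.1.le, hx.2.le.trans (hL n).2⟩
  have h3 := measure_mono (μ := volume) h2
  rw [h1, Real.volume_Icc] at h3
  simp only [Real.volume_Ioo] at h3
  rw [← ENNReal.ofReal_sum_of_nonneg (fun n _ => sub_nonneg.mpr (hab n))] at h3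
  have h4 := (ENNReal.ofReal_le_ofReal_iff (by linarith : (0:ℝ) ≤ z + L - z)).mp h3
  linarith

/-- **Components of the support of an element commuting with `g` have finite orbit.** -/
theorem GK (hk : 2 ≤ k) {g T : LiftG k} (hc : Commute g T) {z w : ℝ} (hzw : z < w)
    (hTz : T.1 z = z) (hTw : T.1 w = w) (hT : ∀ x ∈ Ioo z w, T.1 x < x) :
    ∃ n : ℕ, 1 ≤ n ∧ ∃ j : ℤ, (g ^ n).1 z = z + j := by
  by_contra hcon
  push Not at hcon
  set A := actR k hk with hA
  have hAf : ∀ F : LiftG k, A.f F = F.1 := fun F => rfl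
  set a : ℕ → ℝ := fun n => (g ^ n).1 z with ha
  set b : ℕ → ℝ := fun n => (g ^ n).1 w with hb
  have hab : ∀ n, a n < b n := fun n => (g ^ n).2.1 hzw
  have hcn : ∀ n, Commute (g ^ n) T := fun n => hc.pow_left n
  have hTa : ∀ n, T.1 (a n) = a n := by
    intro n
    have : (T * g ^ n).1 z = (g ^ n * T).1 z := by rw [(hcn n).eq]
    show (T * g ^ n).1 z = _
    rw [this]
    show (g ^ n).1 (T.1 z) = _
    rw [hTz]
  have hTin : ∀ n, ∀ x ∈ Ioo (a n) (b n), T.1 x < x := by
    intro n x hx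
    set y := ((g ^ n)⁻¹).1 x with hy
    have hxy : (g ^ n).1 y = x := by
      show (g ^ n * (g ^ n)⁻¹).1 x = x
      rw [mul_inv_cancel]; rfl
    have hy' : y ∈ Ioo z w := by
      constructor
      · apply (g ^ n).2.1.lt_iff_lt.mp; rw [hxy]; exact hx.1
      · apply (g ^ n).2.1.lt_iff_lt.mp; rw [hxy]; exact hx.2
    have h1 : T.1 x = (g ^ n).1 (T.1 y) := by
      rw [← hxy]
      show (T * g ^ n).1 y = (g ^ n * T).1 y
      rw [(hcn n).eq]
    rw [h1]
    conv_rhs => rw [← hxy]
    exact (g ^ n).2.1 (hT y hy')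
  -- reduction modulo one
  set j : ℕ → ℤ := fun n => ⌊a n - z⌋ with hj
  have hj1 : ∀ n, z ≤ a n - j n := fun n => by
    have := Int.floor_le (a n - z); simp only [hj]; linarith
  have hj2 : ∀ n, a n - j n < z + 1 := fun n => by
    have := Int.lt_floor_add_one (a n - z); simp only [hj]; linarith
  have hsub : ∀ F : LiftG k, ∀ x : ℝ, ∀ i : ℤ, F.1 (x - i) = F.1 x - i := by
    intro F x i
    have := add_int F x (-i)
    push_cast at this
    rw [← sub_eq_add_neg, ← sub_eq_add_neg] at this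
    exact this
  have hTa' : ∀ n, T.1 (a n - j n) = a n - j n := fun n => by rw [hsub, hTa]
  have hTin' : ∀ n, ∀ x ∈ Ioo (a n - j n) (b n - j n), T.1 x < x := by
    intro n x hx
    have h1 := hTin n (x + j n) ⟨by linarith [hx.1], by linarith [hx.2]⟩
    rw [add_int] at h1
    linarith
  have hb1 : ∀ n, b n - j n ≤ z + 1 := by
    intro n
    by_contra hlt
    push Not at hlt
    have h1 := hTin' n (z + 1) ⟨hj2 n, hlt⟩
    rw [T.2.2.1, hTz] at h1
    linarith
  have hdis : ∀ n m, n ≠ m → Disjoint (Ioo (a n - j n) (b n - j n))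
      (Ioo (a m - j m) (b m - j m)) := by
    have key : ∀ n m, m < n → Disjoint (Ioo (a n - j n) (b n - j n))
      (Ioo (a m - j m) (b m - j m)) := by
      intro n m hmn
      rw [Set.disjoint_left]
      intro x hx hx'
      rcases lt_trichotomy (a n - j n) (a m - j m) with h1 | h1 | h1
      · have := hTin' n _ ⟨h1, hx'.1.trans hx.2⟩
        rw [hTa'] at this
        exact lt_irrefl _ this
      · obtain ⟨r, rfl⟩ : ∃ r, n = m + r := ⟨n - m, by omega⟩
        have h2 : (g ^ m).1 ((g ^ r).1 z) = (g ^ m).1 (z + ((j (m + r) - j m : ℤ) : ℝ)) := by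
          rw [add_int]
          have h3 : (g ^ m).1 ((g ^ r).1 z) = a (m + r) := by
            show (g ^ m * g ^ r).1 z = (g ^ (m + r)).1 z
            rw [pow_add]
          have h4 : (g ^ m).1 z = a m := rfl
          rw [h3, h4]
          push_cast
          linarith
        exact hcon r (by omega) _ ((g ^ m).1.injective h2)
      · have := hTin' m _ ⟨h1, hx.1.trans hx'.2⟩
        rw [hTa'] at this
        exact lt_irrefl _ this
    intro n m hnm
    rcases lt_or_gt_of_ne hnm with h | h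
    · exact (key m n h).symm
    · exact key n m h
  have hsum : ∀ N, ∑ n ∈ Finset.range N, (b n - a n) ≤ 1 := by
    intro N
    have := sum_disjoint_le (N := N) (a := fun n => a n - j n) (b := fun n => b n - j n) (z := z)
      (L := 1) (fun n => by linarith [hab n]) (fun n => ⟨hj1 n, hb1 n⟩) zero_le_one hdis
    refine le_trans (le_of_eq ?_) this
    apply Finset.sum_congr rfl
    intro n _
    ring
  have hlen : Tendsto (fun n => b n - a n) atTop (𝓝 0) := by
    apply Summable.tendsto_atTop_zero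
    exact summable_of_sum_range_le (fun n => by linarith [hab n]) hsum
  -- the inverse of `T`
  set R := T⁻¹ with hR
  have hcR : ∀ i n, Commute (g ^ n) (R ^ i) := fun i n => (hc.inv_right).pow_pow n i
  have hRz : A.f R z = z := A.fix_inv T (mem_univ _) hTz
  have hRw : A.f R w = w := A.fix_inv T (mem_univ _) hTw
  obtain ⟨K, hK0, hK⟩ := A.loglip g
  have hbound : ∀ i : ℕ, ∀ x ∈ Ioo z w, A.d (R ^ i) x ≤ Real.exp (K * 1) := by
    intro i x hx
    have hRi : A.f (R ^ i) x ∈ Ioo z w := by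
      have h1 := (A.lt_iff (R ^ i) (mem_univ z) (mem_univ x)).mpr hx.1
      have h2 := (A.lt_iff (R ^ i) (mem_univ x) (mem_univ w)).mpr hx.2
      rw [A.fix_pow R i (mem_univ _) hRz] at h1
      rw [A.fix_pow R i (mem_univ _) hRw] at h2
      exact ⟨h1, h2⟩
    obtain ⟨L, hL0, hL⟩ := A.lip (R ^ i)
    have h1 : ∀ n : ℕ, A.d (R ^ i) x ≤ (1 + L * (b n - a n)) * Real.exp (K * 1) := by
      intro n
      have e1 : A.d (g ^ n) (A.f (R ^ i) x) * A.d (R ^ i) x =
          A.d (R ^ i) (A.f (g ^ n) x) * A.d (g ^ n) x := by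
        rw [← A.d_mul _ _ x (mem_univ _), ← A.d_mul _ _ x (mem_univ _), (hcR i n).eq]
      have e2 : |Real.log (A.d (g ^ n) x) - Real.log (A.d (g ^ n) (A.f (R ^ i) x))| ≤ K * 1 := by
        refine le_trans (A.dist_pow g hK (mem_univ _) (mem_univ _) n) ?_
        apply mul_le_mul_of_nonneg_left _ hK0
        refine le_trans ?_ (hsum n)
        apply Finset.sum_le_sum
        intro r _
        have c1 : a r < (g ^ r).1 x := (g ^ r).2.1 hx.1
        have c2 : (g ^ r).1 x < b r := (g ^ r).2.1 hx.2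
        have c3 : a r < (g ^ r).1 (A.f (R ^ i) x) := (g ^ r).2.1 hRi.1
        have c4 : (g ^ r).1 (A.f (R ^ i) x) < b r := (g ^ r).2.1 hRi.2
        rw [hAf]
        rw [abs_le]; constructor <;> linarith
      have e3 := Act.le_exp_mul (A.d_pos _ x (mem_univ _)) (A.d_pos _ _ (mem_univ _)) e2
      have e4 : A.d (R ^ i) (A.f (g ^ n) x) ≤ 1 + L * (b n - a n) := by
        have hRa : A.f (R ^ i) (a n) = a n :=
          A.fix_pow R i (mem_univ _) (A.fix_inv T (mem_univ _) (hTa n))
        have hTb : T.1 (b n) = b n := by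
          have : (T * g ^ n).1 w = (g ^ n * T).1 w := by rw [(hcn n).eq]
          show (T * g ^ n).1 w = _
          rw [this]
          show (g ^ n).1 (T.1 w) = _
          rw [hTw]
        have hRb : A.f (R ^ i) (b n) = b n :=
          A.fix_pow R i (mem_univ _) (A.fix_inv T (mem_univ _) hTb)
        obtain ⟨ξ, hξ, hξ1⟩ := A.exists_d_eq_one (R ^ i) (mem_univ _) (mem_univ _) (hab n) hRa hRb
        have h3 := hL (A.f (g ^ n) x) (mem_univ _) ξ (mem_univ _)
        rw [hξ1] at h3
        have c1 : a n < A.f (g ^ n) x := (g ^ n).2.1 hx.1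
        have c2 : A.f (g ^ n) x < b n := (g ^ n).2.1 hx.2
        have h4 : |A.f (g ^ n) x - ξ| ≤ b n - a n := by
          rw [abs_le]; constructor <;> linarith [hξ.1, hξ.2]
        have h5 := (le_abs_self _).trans (h3.trans (mul_le_mul_of_nonneg_left h4 hL0))
        linarith
      have p1 := A.d_pos (g ^ n) (A.f (R ^ i) x) (mem_univ _)
      have p2 := A.d_pos (R ^ i) (A.f (g ^ n) x) (mem_univ _)
      have h6 : A.d (g ^ n) (A.f (R ^ i) x) * A.d (R ^ i) x ≤
          A.d (g ^ n) (A.f (R ^ i) x) * ((1 + L * (b n - a n)) * Real.exp (K * 1)) := by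
        rw [e1]
        calc A.d (R ^ i) (A.f (g ^ n) x) * A.d (g ^ n) x
            ≤ (1 + L * (b n - a n)) * (Real.exp (K * 1) * A.d (g ^ n) (A.f (R ^ i) x)) := by
              apply mul_le_mul e4 e3 (A.d_pos _ _ (mem_univ _)).le
              exact p2.le.trans e4
          _ = _ := by ring
      exact le_of_mul_le_mul_left h6 p1
    have h2 : Tendsto (fun n : ℕ => (1 + L * (b n - a n)) * Real.exp (K * 1)) atTop
        (𝓝 ((1 + L * 0) * Real.exp (K * 1))) :=
      ((hlen.const_mul L).const_add 1).mul_const _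
    rw [mul_zero, add_zero, one_mul] at h2
    exact ge_of_tendsto' h2 h1
  refine A.unbounded R (z := z) (y := (z + w) / 2) (mem_univ _) (mem_univ _) (by linarith) hRz ?_
    (E := Real.exp (K * 1)) (n := fun j => j) tendsto_id ?_
  · intro x hx
    exact A.lt_inv T (mem_univ _) (hT x ⟨hx.1, by linarith [hx.2]⟩)
  · intro i x hx
    exact hbound i x ⟨hx.1, by linarith [hx.2]⟩

end Pool.Agent.H63.Crit
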