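import Pool.Agent.H63.Crit.ActInst
import Pool.Agent.H63.Crit.Interval

/-!
# The interval case of the main theorem
-/

namespace Pool.Agent.H63.Crit

open Set Filter Topology

lemma ext_of_extI {e e' : Equiv.Perm (Icc (0:ℝ) 1)} (h : ∀ x ∈ Icc (0:ℝ) 1, extI e x = extI e' x) :
    e = e' := by
  ext x
  have := h x x.2
  rw [extI_of_mem _ x.2, extI_of_mem _ x.2] at this
  exact this

theorem core_I {A : Type*} [Group A] {h h₂ T u : A} {m k l N : ℕ} (hm : 2 ≤ m) (hk : 1 ≤ k)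
    (R : Rel h h₂ T u m k l N)
    (hne : u * ((h ^ l)⁻¹ * T * h ^ l) ≠ ((h ^ l)⁻¹ * T * h ^ l) * u)
    (ρ : A →* DiffI (k + 1)) : ¬ Function.Injective ρ := by
  intro hinj
  apply hne
  apply hinj
  have R' := R.map ρ
  have hsm : ∀ g : DiffI (k + 1),
      ContDiffOn ℝ ((k + 1 : ℕ) : WithTop ℕ∞) ((actI (k + 1) (by omega)).f g) (Ioo 0 1) :=
    fun g => g.2.2.1.mono Ioo_subset_Icc_self
  have key := fun x (hx : x ∈ Icc (0:ℝ) 1) =>
    (actI (k + 1) (by omega)).interval_theorem hm R' (hsm _) (hsm _) hx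
  have h2 : ρ (u * ((h ^ l)⁻¹ * T * h ^ l)) =
      ρ u * ((ρ h ^ l)⁻¹ * ρ T * ρ h ^ l) := by simp
  have h3 : ρ (((h ^ l)⁻¹ * T * h ^ l) * u) =
      ((ρ h ^ l)⁻¹ * ρ T * ρ h ^ l) * ρ u := by simp
  rw [h2, h3]
  apply Subtype.ext
  exact ext_of_extI key

end Pool.Agent.H63.Crit
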