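import Pool.Agent.H63.Crit.CircleAct

/-!
# The circle case of the main theorem
-/

namespace Pool.Agent.H63.Crit

open Set Filter Topology

variable {k : ℕ}

/-- a map with a fixed point which is not the identity has a component of its support -/
lemma exists_comp (hk : 2 ≤ k) {T : LiftG k} {x₀ : ℝ} (hx₀ : T.1 x₀ = x₀) (hne : T ≠ 1) :
    ∃ z w, z < w ∧ T.1 z = z ∧ T.1 w = w ∧
      ((∀ x ∈ Ioo z w, T.1 x < x) ∨ (∀ x ∈ Ioo z w, (T⁻¹).1 x < x)) := by
  set A := actR k hk with hA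
  have hex : ∃ y, T.1 y ≠ y := by
    by_contra hcon
    push Not at hcon
    apply hne
    apply Subtype.ext
    ext y
    exact hcon y
  obtain ⟨y, hy⟩ := hex
  have key : ∀ R : LiftG k, R.1 x₀ = x₀ → y < R.1 y →
      ∃ z w, z < w ∧ R.1 z = z ∧ R.1 w = w ∧ (∀ x ∈ Ioo z w, x < R.1 x) := by
    intro R hR hyR
    set j := ⌊y - x₀⌋ with hj
    have hj1 : x₀ + j ≤ y := by have := Int.floor_le (y - x₀); linarith
    have hj2 : y ≤ x₀ + ((j + 1 : ℤ) : ℝ) := by
      have := Int.lt_floor_add_one (y - x₀); push_cast; linarith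
    have e1 : A.f R (x₀ + j) = x₀ + j := by show R.1 _ = _; rw [add_int, hR]
    have e2 : A.f R (x₀ + ((j + 1 : ℤ) : ℝ)) = x₀ + ((j + 1 : ℤ) : ℝ) := by
      show R.1 _ = _; rw [add_int, hR]
    obtain ⟨z, hz1, hz2, hz3⟩ := A.exists_left R (mem_univ _) (mem_univ _) hj1 e1 hyR
    obtain ⟨w, hw1, hw2, hw3⟩ := A.exists_right R (mem_univ _) (mem_univ _) hj2 e2 hyR
    refine ⟨z, w, hz1.2.trans hw1.1, hz2, hw2, ?_⟩
    intro x hx
    rcases le_total x y with h | h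
    · exact hz3 x ⟨hx.1, h⟩
    · exact hw3 x ⟨h, hx.2⟩
  rcases lt_or_gt_of_ne hy with hlt | hgt
  · have h1 : y < (T⁻¹).1 y := A.lt_inv T (mem_univ _) hlt
    obtain ⟨z, w, hzw, hz, hw, h⟩ := key T⁻¹ (A.fix_inv T (mem_univ _) hx₀) h1
    refine ⟨z, w, hzw, (A.fix_inv_iff T (mem_univ _)).mp hz, (A.fix_inv_iff T (mem_univ _)).mp hw,
      Or.inl ?_⟩
    intro x hx
    have := A.inv_lt T⁻¹ (mem_univ _) (h x hx)
    rwa [inv_inv] at this
  · obtain ⟨z, w, hzw, hz, hw, h⟩ := key T hx₀ hgt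
    refine ⟨z, w, hzw, hz, hw, Or.inr ?_⟩
    intro x hx
    exact A.inv_lt T (mem_univ _) (h x hx)

lemma GK' (hk : 2 ≤ k) {g T : LiftG k} (hc : Commute g T) {z w : ℝ} (hzw : z < w)
    (hTz : T.1 z = z) (hTw : T.1 w = w)
    (hT : (∀ x ∈ Ioo z w, T.1 x < x) ∨ (∀ x ∈ Ioo z w, (T⁻¹).1 x < x)) :
    ∃ n : ℕ, 1 ≤ n ∧ ∃ j : ℤ, (g ^ n).1 z = z + j := by
  rcases hT with h | h
  · exact GK hk hc hzw hTz hTw h
  · exact GK hk hc.inv_right hzw ((actR k hk).fix_inv T (mem_univ _) hTz)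
      ((actR k hk).fix_inv T (mem_univ _) hTw) h

lemma pow_period {g : LiftG k} {z : ℝ} {n : ℕ} {j : ℤ} (h : (g ^ n).1 z = z + j) (m : ℕ) :
    ∃ j' : ℤ, (g ^ (n * m)).1 z = z + j' := by
  induction m with
  | zero => exact ⟨0, by simp⟩
  | succ m ih =>
    obtain ⟨j', hj'⟩ := ih
    refine ⟨j' + j, ?_⟩
    have e1 : (g ^ (n * (m + 1))).1 z = (g ^ n).1 ((g ^ (n * m)).1 z) := by
      show _ = (g ^ n * g ^ (n * m)).1 z
      rw [← pow_add]; congr 2; ring_nf
    rw [e1, hj', add_int, h]; push_cast; ring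

/-- restriction of an action on the line to an invariant interval -/
def Act.restrict {Γ : Type*} [Group Γ] (A : Act Γ univ) {Δ : Type*} [Group Δ] (φ : Δ →* Γ)
    {a b : ℝ} (ha : ∀ g, A.f (φ g) a = a) (hb : ∀ g, A.f (φ g) b = b) : Act Δ (Icc a b) where
  f := fun g => A.f (φ g)
  d := fun g => A.d (φ g)
  ord := ordConnected_Icc
  f_one := fun x _ => by rw [map_one]; exact A.f_one x (mem_univ _)
  f_mul := fun g g' x _ => by rw [map_mul]; exact A.f_mul _ _ x (mem_univ _)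
  f_mem := fun g x hx => by
    constructor
    · rw [← ha g]; exact (A.le_iff _ (mem_univ _) (mem_univ _)).mpr hx.1
    · rw [← hb g]; exact (A.le_iff _ (mem_univ _) (mem_univ _)).mpr hx.2
  f_mono := fun g => (A.f_mono _).mono (subset_univ _)
  d_mul := fun g g' x _ => by rw [map_mul]; exact A.d_mul _ _ x (mem_univ _)
  d_pos := fun g x _ => A.d_pos _ x (mem_univ _)
  hasDeriv := fun g x _ => A.hasDeriv _ x (by rw [interior_univ]; exact mem_univ _)
  cont := fun g => (A.cont _).mono (subset_univ _)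
  lip := fun g => by
    obtain ⟨K, hK0, hK⟩ := A.lip (φ g)
    exact ⟨K, hK0, fun x _ y _ => hK x (mem_univ _) y (mem_univ _)⟩
  loglip := fun g => by
    obtain ⟨K, hK0, hK⟩ := A.loglip (φ g)
    exact ⟨K, hK0, fun x _ y _ => hK x (mem_univ _) y (mem_univ _)⟩
  bdd := fun g => by
    obtain ⟨K, hK⟩ := A.bdd (φ g)
    exact ⟨K, fun x _ => hK x (mem_univ _)⟩

/-- the stabiliser of a point in the group of lifts -/
def Stab (k : ℕ) (z : ℝ) : Subgroup (LiftG k) where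
  carrier := {F | F.1 z = z}
  mul_mem' := by
    intro F G hF hG
    show F.1 (G.1 z) = z
    rw [show G.1 z = z from hG, show F.1 z = z from hF]
  one_mem' := rfl
  inv_mem' := by
    intro F hF
    have h1 : (F⁻¹ * F).1 z = z := by rw [inv_mul_cancel]; rfl
    have h2 : (F⁻¹).1 (F.1 z) = z := h1
    rw [show F.1 z = z from hF] at h2
    exact h2

lemma Stab.proj_injective (z : ℝ) :
    Function.Injective ((proj k).comp (Stab k z).subtype) := by
  intro F G h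
  have h' : proj k F.1 = proj k G.1 := h
  obtain ⟨c, hc⟩ := eq_tr_mul h'
  have h1 : F.1.1 z = z := F.2
  have h2 : G.1.1 z = z := G.2
  have h3 : F.1.1 z = G.1.1 z + c := by rw [hc]; rfl
  have h4 : (c:ℝ) = 0 := by linarith
  have h5 : c = 0 := by exact_mod_cast h4
  apply Subtype.ext
  rw [hc, h5]
  apply Subtype.ext
  ext x
  show (tr k 0).1 (G.1.1 x) = G.1.1 x
  rw [tr_apply]; simp

lemma Rel.of_injective {Γ Γ' : Type*} [Group Γ] [Group Γ'] (φ : Γ →* Γ')
    (hφ : Function.Injective φ) {h h₂ T u : Γ} {m k l N : ℕ}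
    (R : Rel (φ h) (φ h₂) (φ T) (φ u) m k l N) : Rel h h₂ T u m k l N := by
  have c : ∀ {x y : Γ}, Commute (φ x) (φ y) → Commute x y := by
    intro x y h
    apply hφ
    rw [map_mul, map_mul]; exact h
  constructor
  · apply hφ; simpa using R.bs
  · apply c; simpa using R.r2a
  · apply c; simpa using R.r2b
  · apply c; simpa using R.r3a
  · apply c; simpa using R.r3b
  · apply c; simpa using R.r4a
  · apply c; simpa using R.r4b
  · apply c; simpa using R.r4c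
  · apply c; simpa using R.r4d
  · intro j; apply c; simpa using R.r5a j
  · intro j; apply c; simpa using R.r5b j

theorem core_S {A : Type*} [Group A] {h h₂ T u s t : A} {l N : ℕ} (hk : 1 ≤ k)
    (R : ∀ n ≥ 1, Rel (h ^ n) (h₂ ^ n) (T ^ n) (u ^ n) (2 ^ n) k l N)
    (hne : ∀ n ≥ 1, u ^ n * (((h ^ n) ^ l)⁻¹ * T ^ n * (h ^ n) ^ l) ≠
      (((h ^ n) ^ l)⁻¹ * T ^ n * (h ^ n) ^ l) * u ^ n)
    (hst : s * t * s⁻¹ = t ^ 2) (ht : t ≠ 1) (c1 : Commute h t) (c2 : Commute h₂ t)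
    (c3 : Commute T t) (c4 : Commute u t)
    (ρ : A →* DiffS (k + 1)) : ¬ Function.Injective ρ := by
  intro hinj
  have hk2 : 2 ≤ k + 1 := by omega
  -- lifts
  obtain ⟨S', hS'⟩ := exists_lift (ρ s)
  obtain ⟨T0, hT0⟩ := exists_lift (ρ t)
  have hBS : proj (k + 1) (S' * T0 * S'⁻¹) = proj (k + 1) (T0 ^ 2) := by
    rw [map_mul, map_mul, map_inv, map_pow, hS', hT0]
    have h1 := congrArg ρ hst
    rw [map_mul, map_mul, map_inv, map_pow] at h1
    exact congrArg Subtype.val h1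
  obtain ⟨T1, hT1, x₀, hx₀⟩ := exists_fixed hBS
  rw [hT0] at hT1
  have hT1ne : T1 ≠ 1 := by
    intro h1
    rw [h1, map_one] at hT1
    apply ht
    apply hinj
    rw [map_one]
    exact Subtype.ext hT1.symm
  obtain ⟨z, w, hzw, hz, hw, hdir⟩ := exists_comp hk2 hx₀ hT1ne
  -- periods
  have hper : ∀ g : A, Commute g t → ∃ G : LiftG (k + 1), proj (k + 1) G = (ρ g).1 ∧
      ∃ n : ℕ, 1 ≤ n ∧ ∃ j : ℤ, (G ^ n).1 z = z + j := by
    intro g hg
    obtain ⟨G, hG⟩ := exists_lift (ρ g)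
    refine ⟨G, hG, ?_⟩
    have hcomm : Commute G T1 := by
      apply lift_commute hx₀
      rw [map_mul, map_mul, map_inv, hG, hT1]
      have h1 : g * t * g⁻¹ = t := by rw [hg.eq]; group
      have h2 := congrArg ρ h1
      rw [map_mul, map_mul, map_inv] at h2
      exact congrArg Subtype.val h2
    exact GK' hk2 hcomm hzw hz hw hdir
  obtain ⟨H, hH, n1, hn1, j1, hj1⟩ := hper h c1
  obtain ⟨H₂, hH₂, n2, hn2, j2, hj2⟩ := hper h₂ c2
  obtain ⟨T', hT', n3, hn3, j3, hj3⟩ := hper T c3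
  obtain ⟨U, hU, n4, hn4, j4, hj4⟩ := hper u c4
  set n := n1 * (n2 * (n3 * n4)) with hn
  have hn0 : 1 ≤ n := by
    have : 0 < n := by rw [hn]; positivity
    omega
  obtain ⟨i1, hi1⟩ := pow_period hj1 (n2 * (n3 * n4))
  obtain ⟨i2, hi2⟩ := pow_period hj2 (n1 * (n3 * n4))
  obtain ⟨i3, hi3⟩ := pow_period hj3 (n1 * (n2 * n4))
  obtain ⟨i4, hi4⟩ := pow_period hj4 (n1 * (n2 * n3))
  rw [show n2 * (n1 * (n3 * n4)) = n by rw [hn]; ring] at hi2
  rw [show n3 * (n1 * (n2 * n4)) = n by rw [hn]; ring] at hi3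
  rw [show n4 * (n1 * (n2 * n3)) = n by rw [hn]; ring] at hi4
  rw [← hn] at hi1
  -- elements of the stabiliser
  have hmk : ∀ (G : LiftG (k + 1)) (i : ℤ), (G ^ n).1 z = z + i →
      ∃ G' : Stab (k + 1) z, proj (k + 1) G'.1 = proj (k + 1) G ^ n := by
    intro G i hi
    refine ⟨⟨tr (k + 1) (-i) * G ^ n, ?_⟩, ?_⟩
    · show (tr (k + 1) (-i)).1 ((G ^ n).1 z) = z
      rw [tr_apply, hi]; push_cast; ring
    · show proj (k + 1) (tr (k + 1) (-i) * G ^ n) = _
      rw [map_mul, proj_tr, one_mul, map_pow]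
  obtain ⟨H', hH'⟩ := hmk H i1 hi1
  obtain ⟨H₂', hH₂'⟩ := hmk H₂ i2 hi2
  obtain ⟨T'', hT''⟩ := hmk T' i3 hi3
  obtain ⟨U', hU'⟩ := hmk U i4 hi4
  set σ := (proj (k + 1)).comp (Stab (k + 1) z).subtype with hσ
  have hσinj : Function.Injective σ := Stab.proj_injective z
  set τ := (DiffS (k + 1)).subtype.comp ρ with hτ
  have hτinj : Function.Injective τ := fun x y hxy => hinj (Subtype.ext hxy)
  have q1 : σ H' = τ (h ^ n) := by
    show proj (k + 1) H'.1 = _
    rw [hH', hH, map_pow]; rfl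
  have q2 : σ H₂' = τ (h₂ ^ n) := by
    show proj (k + 1) H₂'.1 = _
    rw [hH₂', hH₂, map_pow]; rfl
  have q3 : σ T'' = τ (T ^ n) := by
    show proj (k + 1) T''.1 = _
    rw [hT'', hT', map_pow]; rfl
  have q4 : σ U' = τ (u ^ n) := by
    show proj (k + 1) U'.1 = _
    rw [hU', hU, map_pow]; rfl
  have R1 : Rel (σ H') (σ H₂') (σ T'') (σ U') (2 ^ n) k l N := by
    rw [q1, q2, q3, q4]
    exact (R n hn0).map τ
  have R2 := R1.of_injective σ hσinj
  -- the action on the interval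
  set A' : Act (Stab (k + 1) z) (Icc z (z + 1)) :=
    (actR (k + 1) hk2).restrict (Stab (k + 1) z).subtype (fun g => g.2)
      (fun g => by
        show g.1.1 (z + 1) = z + 1
        rw [g.1.2.2.1, show g.1.1 z = z from g.2]) with hA'
  have hAf : ∀ g : Stab (k + 1) z, A'.f g = g.1.1 := fun g => rfl
  have hm : 2 ≤ 2 ^ n := by
    calc 2 = 2 ^ 1 := by norm_num
      _ ≤ 2 ^ n := Nat.pow_le_pow_right (by norm_num) hn0
  have hsm : ∀ g : Stab (k + 1) z,
      ContDiffOn ℝ ((k + 1 : ℕ) : WithTop ℕ∞) (A'.f g) (Ioo z (z + 1)) :=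
    fun g => g.1.2.2.2.1.contDiffOn
  have key := fun x (hx : x ∈ Icc z (z + 1)) =>
    A'.interval_theorem hm R2 (hsm _) (hsm _) hx
  have heq : U' * ((H' ^ l)⁻¹ * T'' * H' ^ l) = ((H' ^ l)⁻¹ * T'' * H' ^ l) * U' := by
    apply Subtype.ext
    apply Subtype.ext
    ext x
    set i := ⌊x - z⌋ with hi
    have hx1 : z ≤ x - i := by have := Int.floor_le (x - z); linarith
    have hx2 : x - i ≤ z + 1 := by have := Int.lt_floor_add_one (x - z); linarith
    have h1 := key (x - i) ⟨hx1, hx2⟩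
    rw [hAf, hAf] at h1
    have e1 := add_int (U' * ((H' ^ l)⁻¹ * T'' * H' ^ l)).1 (x - i) i
    have e2 := add_int (((H' ^ l)⁻¹ * T'' * H' ^ l) * U').1 (x - i) i
    rw [sub_add_cancel] at e1 e2
    rw [e1, e2, h1]
  apply hne n hn0
  apply hτinj
  have h2 := congrArg σ heq
  simp only [map_mul, map_inv, map_pow] at h2 ⊢
  rw [q1, q3, q4] at h2
  simp only [map_pow] at h2
  exact h2

end Pool.Agent.H63.Crit
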