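import Mathlib

/-!
# Groups of diffeomorphisms of the interval and of the circle: definitions
-/

namespace Pool.Agent.H63.Crit

open Set

/-- The function `ℝ → ℝ` which on `[0,1]` is the self-map `e` of the interval `[0,1]`
(and which is extended by constants outside of `[0,1]`; these values play no role below). -/
noncomputable def extI (e : Equiv.Perm (Icc (0:ℝ) 1)) (x : ℝ) : ℝ :=
  (e (projIcc 0 1 zero_le_one x) : ℝ)

/-- `e` is an orientation-preserving `C^k` diffeomorphism of the compact interval `I = [0,1]`: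
an increasing bijection of `[0,1]` such that it and its inverse are of class `C^k` on `[0,1]`
(one-sided derivatives at the end points). -/
def IsDiffI (k : ℕ) (e : Equiv.Perm (Icc (0:ℝ) 1)) : Prop :=
  StrictMono e ∧ ContDiffOn ℝ k (extI e) (Icc 0 1) ∧ ContDiffOn ℝ k (extI e⁻¹) (Icc 0 1)

/-- `e` belongs to `Diff₊^{k,Lip}(I)`: it is an orientation-preserving `C^k` diffeomorphism of
`I = [0,1]` whose `k`-th derivative is Lipschitz continuous on `[0,1]`. -/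
def IsDiffLipI (k : ℕ) (e : Equiv.Perm (Icc (0:ℝ) 1)) : Prop :=
  IsDiffI k e ∧ ∃ C : NNReal, LipschitzOnWith C (iteratedDerivWithin k (extI e) (Icc 0 1)) (Icc 0 1)

/-- `F : ℝ → ℝ` is an (increasing, degree one) lift of the self-map `e` of the circle `ℝ/ℤ`. -/
def IsLift (F : ℝ → ℝ) (e : Equiv.Perm UnitAddCircle) : Prop :=
  StrictMono F ∧ (∀ x, F (x + 1) = F x + 1) ∧ ∀ x : ℝ, e (x : UnitAddCircle) = (F x : UnitAddCircle)

/-- `e` is an orientation-preserving `C^k` diffeomorphism of the circle `S¹ = ℝ/ℤ`: it and its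
inverse have lifts of class `C^k`. -/
def IsDiffS (k : ℕ) (e : Equiv.Perm UnitAddCircle) : Prop :=
  (∃ F : ℝ → ℝ, IsLift F e ∧ ContDiff ℝ k F) ∧ (∃ F : ℝ → ℝ, IsLift F e⁻¹ ∧ ContDiff ℝ k F)

/-- `e` belongs to `Diff₊^{k,Lip}(S¹)`: it is an orientation-preserving `C^k` diffeomorphism of
`S¹ = ℝ/ℤ` whose `k`-th derivative is Lipschitz continuous. -/
def IsDiffLipS (k : ℕ) (e : Equiv.Perm UnitAddCircle) : Prop :=
  IsDiffS k e ∧ ∃ F : ℝ → ℝ, IsLift F e ∧ ContDiff ℝ k F ∧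
    ∃ C : NNReal, LipschitzWith C (iteratedDeriv k F)

lemma extI_mem (e : Equiv.Perm (Icc (0:ℝ) 1)) (x : ℝ) : extI e x ∈ Icc (0:ℝ) 1 :=
  (e (projIcc 0 1 zero_le_one x)).2

lemma extI_of_mem (e : Equiv.Perm (Icc (0:ℝ) 1)) {x : ℝ} (hx : x ∈ Icc (0:ℝ) 1) :
    extI e x = e ⟨x, hx⟩ := by
  unfold extI; rw [projIcc_of_mem _ hx]

lemma extI_mul (e e' : Equiv.Perm (Icc (0:ℝ) 1)) (x : ℝ) :
    extI (e * e') x = extI e (extI e' x) := by
  unfold extI; rw [projIcc_val]; rfl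

lemma extI_one {x : ℝ} (hx : x ∈ Icc (0:ℝ) 1) : extI 1 x = x := by
  rw [extI_of_mem _ hx]; rfl

lemma IsDiffI.mul {k : ℕ} {e e' : Equiv.Perm (Icc (0:ℝ) 1)} (h : IsDiffI k e) (h' : IsDiffI k e') :
    IsDiffI k (e * e') := by
  refine ⟨h.1.comp h'.1, ?_, ?_⟩
  · have : extI (e * e') = extI e ∘ extI e' := funext (extI_mul e e')
    rw [this]
    exact h.2.1.comp h'.2.1 (fun x _ => extI_mem _ _)
  · have : extI (e * e')⁻¹ = extI e'⁻¹ ∘ extI e⁻¹ := by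
      rw [mul_inv_rev]; exact funext (extI_mul e'⁻¹ e⁻¹)
    rw [this]
    exact h'.2.2.comp h.2.2 (fun x _ => extI_mem _ _)

lemma IsDiffI.one (k : ℕ) : IsDiffI k 1 := by
  have : ContDiffOn ℝ k (extI 1) (Icc 0 1) :=
    contDiffOn_id.congr (fun x hx => extI_one hx)
  exact ⟨strictMono_id, this, by rw [inv_one]; exact this⟩

lemma IsDiffI.inv {k : ℕ} {e : Equiv.Perm (Icc (0:ℝ) 1)} (h : IsDiffI k e) : IsDiffI k e⁻¹ := by
  refine ⟨?_, h.2.2, by rw [inv_inv]; exact h.2.1⟩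
  intro x y hxy
  have : e (e⁻¹ x) < e (e⁻¹ y) := by simpa using hxy
  exact h.1.lt_iff_lt.mp this

/-- The group `Diff₊^k(I)` of orientation-preserving `C^k` diffeomorphisms of `I = [0,1]`. -/
def DiffI (k : ℕ) : Subgroup (Equiv.Perm (Icc (0:ℝ) 1)) where
  carrier := {e | IsDiffI k e}
  mul_mem' := fun h h' => h.mul h'
  one_mem' := IsDiffI.one k
  inv_mem' := fun h => h.inv

lemma IsLift.comp {F F' : ℝ → ℝ} {e e' : Equiv.Perm UnitAddCircle} (h : IsLift F e)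
    (h' : IsLift F' e') : IsLift (F ∘ F') (e * e') := by
  refine ⟨h.1.comp h'.1, ?_, ?_⟩
  · intro x; simp only [Function.comp]; rw [h'.2.1, h.2.1]
  · intro x
    rw [Equiv.Perm.mul_apply, h'.2.2, h.2.2]; rfl

lemma IsDiffS.mul {k : ℕ} {e e' : Equiv.Perm UnitAddCircle} (h : IsDiffS k e)
    (h' : IsDiffS k e') : IsDiffS k (e * e') := by
  obtain ⟨⟨F, hF1, hF2⟩, ⟨G, hG1, hG2⟩⟩ := h
  obtain ⟨⟨F', hF1', hF2'⟩, ⟨G', hG1', hG2'⟩⟩ := h'
  exact ⟨⟨F ∘ F', hF1.comp hF1', hF2.comp hF2'⟩,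
    ⟨G' ∘ G, by rw [mul_inv_rev]; exact hG1'.comp hG1, hG2'.comp hG2⟩⟩

lemma IsDiffS.one (k : ℕ) : IsDiffS k 1 := by
  have : IsLift (fun x => x) 1 := ⟨strictMono_id, fun x => rfl, fun x => rfl⟩
  exact ⟨⟨fun x => x, this, contDiff_id⟩, ⟨fun x => x, by rw [inv_one]; exact this, contDiff_id⟩⟩

lemma IsDiffS.inv {k : ℕ} {e : Equiv.Perm UnitAddCircle} (h : IsDiffS k e) : IsDiffS k e⁻¹ :=
  ⟨h.2, by rw [inv_inv]; exact h.1⟩

/-- The group `Diff₊^k(S¹)` of orientation-preserving `C^k` diffeomorphisms of `S¹ = ℝ/ℤ`. -/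
def DiffS (k : ℕ) : Subgroup (Equiv.Perm UnitAddCircle) where
  carrier := {e | IsDiffS k e}
  mul_mem' := fun h h' => h.mul h'
  one_mem' := IsDiffS.one k
  inv_mem' := fun h => h.inv

end Pool.Agent.H63.Crit
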