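import Pool.Agent.H63.Crit.Interval
import Pool.Agent.H61.BSPair
import Pool.Agent.H33.LipElem

/-!
# The relations in the source group
-/

namespace Pool.Agent.H63.Crit

open Set Filter Topology

/-- `e` is supported in `[lo, hi]` -/
def Sup (e : ℝ ≃o ℝ) (lo hi : ℝ) : Prop := ∀ x, (x ≤ lo ∨ hi ≤ x) → e x = x

lemma oi_lt (e : ℝ ≃o ℝ) {x y : ℝ} : e x < e y ↔ x < y := e.lt_iff_lt

lemma oi_le (e : ℝ ≃o ℝ) {x y : ℝ} : e x ≤ e y ↔ x ≤ y := e.le_iff_le

lemma oi_mul (e e' : ℝ ≃o ℝ) (x : ℝ) : (e * e') x = e (e' x) := rfl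

lemma oi_inv_self (e : ℝ ≃o ℝ) (x : ℝ) : e⁻¹ (e x) = x := e.symm_apply_apply x

lemma oi_self_inv (e : ℝ ≃o ℝ) (x : ℝ) : e (e⁻¹ x) = x := e.apply_symm_apply x

lemma oi_pow_succ (e : ℝ ≃o ℝ) (n : ℕ) (x : ℝ) : (e ^ (n + 1)) x = e ((e ^ n) x) := by
  rw [pow_succ', oi_mul]

lemma oi_pow_succ' (e : ℝ ≃o ℝ) (n : ℕ) (x : ℝ) : (e ^ (n + 1)) x = (e ^ n) (e x) := by
  rw [pow_succ, oi_mul]

lemma oi_fix_inv (e : ℝ ≃o ℝ) {x : ℝ} (h : e x = x) : e⁻¹ x = x := by
  have := oi_inv_self e x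
  rwa [h] at this

lemma oi_fix_pow (e : ℝ ≃o ℝ) (n : ℕ) {x : ℝ} (h : e x = x) : (e ^ n) x = x := by
  induction n with
  | zero => rfl
  | succ n ih => rw [oi_pow_succ, ih, h]

lemma oi_commute {e e' : ℝ ≃o ℝ} (h : ∀ x, e (e' x) = e' (e x)) : Commute e e' := by
  show e * e' = e' * e
  ext x; exact h x

lemma Sup.pow {e : ℝ ≃o ℝ} {lo hi : ℝ} (h : Sup e lo hi) (n : ℕ) : Sup (e ^ n) lo hi :=
  fun x hx => oi_fix_pow e n (h x hx)

lemma Sup.conj {e : ℝ ≃o ℝ} {lo hi : ℝ} (h : Sup e lo hi) (g : ℝ ≃o ℝ) :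
    Sup (g * e * g⁻¹) (g lo) (g hi) := by
  intro x hx
  have h1 : g⁻¹ x ≤ lo ∨ hi ≤ g⁻¹ x := by
    rcases hx with hx | hx
    · left; rw [← oi_le g, oi_self_inv]; exact hx
    · right; rw [← oi_le g, oi_self_inv]; exact hx
  rw [oi_mul, oi_mul, h _ h1, oi_self_inv]

lemma Sup.mono {e : ℝ ≃o ℝ} {lo hi lo' hi' : ℝ} (h : Sup e lo hi) (h1 : lo' ≤ lo) (h2 : hi ≤ hi') :
    Sup e lo' hi' := by
  intro x hx
  apply h
  rcases hx with hx | hx
  · left; linarith
  · right; linarith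

/-- disjoint supports -/
lemma comm_of_disjoint {e e' : ℝ ≃o ℝ} {lo hi lo' hi' : ℝ} (h : Sup e lo hi) (h' : Sup e' lo' hi')
    (hd : hi ≤ lo') : Commute e e' := by
  apply oi_commute
  intro x
  rcases le_or_gt x hi with hx | hx
  · have h1 : e' x = x := h' x (Or.inl (hx.trans hd))
    have h2 : e x ≤ hi := by
      have := (oi_le e).mpr hx
      rwa [h hi (Or.inr (le_refl _))] at this
    rw [h1, h' _ (Or.inl (h2.trans hd))]
  · have h1 : e x = x := h x (Or.inr hx.le)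
    rw [h1]
    rcases le_or_gt x lo' with hx' | hx'
    · rw [h' x (Or.inl hx'), h1]
    · apply h _ (Or.inr _)
      have := (oi_lt e').mpr hx'
      rw [h' lo' (Or.inl (le_refl _))] at this
      linarith

/-- a map which is the identity on the support -/
lemma comm_of_fix {c e : ℝ ≃o ℝ} {lo hi : ℝ} (hc : ∀ x ∈ Icc lo hi, c x = x) (h : Sup e lo hi) :
    Commute c e := by
  rcases le_or_gt lo hi with hle | hlt
  · have hclo : c lo = lo := hc lo ⟨le_refl _, hle⟩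
    have hchi : c hi = hi := hc hi ⟨hle, le_refl _⟩
    apply oi_commute
    intro x
    by_cases hx : x ∈ Icc lo hi
    · have h1 : e x ∈ Icc lo hi := by
        constructor
        · have := (oi_le e).mpr hx.1
          rwa [h lo (Or.inl (le_refl _))] at this
        · have := (oi_le e).mpr hx.2
          rwa [h hi (Or.inr (le_refl _))] at this
      rw [hc _ h1, hc x hx]
    · rw [mem_Icc, not_and_or, not_le, not_le] at hx
      rcases hx with hx | hx
      · rw [h x (Or.inl hx.le)]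
        symm
        apply h _ (Or.inl _)
        have := (oi_lt c).mpr hx
        rw [hclo] at this
        exact this.le
      · rw [h x (Or.inr hx.le)]
        symm
        apply h _ (Or.inr _)
        have := (oi_lt c).mpr hx
        rw [hchi] at this
        exact this.le
  · have : e = 1 := by
      ext x
      rcases le_or_gt x lo with h1 | h1
      · exact h x (Or.inl h1)
      · exact h x (Or.inr (hlt.trans h1).le)
    rw [this]; exact Commute.one_right c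

/-- multiplication by eight -/
noncomputable def scl : ℝ ≃o ℝ := OrderIso.mulLeft₀ 8 (by norm_num)

lemma scl_apply (x : ℝ) : scl x = 8 * x := rfl

lemma scl_inv (x : ℝ) : scl⁻¹ x = x / 8 := by
  have h1 : scl (x / 8) = x := by rw [scl_apply]; ring
  have h2 := oi_inv_self scl (x / 8)
  rw [h1] at h2; exact h2

/-- Data of the construction -/
structure Data (a b u : ℝ ≃o ℝ) (k N : ℕ) : Prop where
  a_id : ∀ x, 1 ≤ |x| → a x = x
  b_id : ∀ x, 1 ≤ |x| → b x = x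
  a_two : ∀ x, |x| ≤ 1/8 → a x = 2 * x
  ab : ∀ x, a (b x) = b (b (a x))
  b_lt : ∀ x, |x| < 1 → x < b x
  hN : 1/2 ≤ (b ^ N) (-1/2)
  u_pos : ∀ x, 0 ≤ x → u x = x
  u_neg : ∀ x, x ≤ -8 → u x = x
  u_lt : ∀ x, -1 ≤ x → x < 0 → x < u x
  u_two : ∀ x, -1/2 ≤ x → x ≤ 0 → u (2 * x) = 2 * (u ^ (2 ^ k)) x

variable {a b u : ℝ ≃o ℝ} {k N : ℕ}

namespace Data

lemma supA (D : Data a b u k N) : Sup a (-1) 1 := by
  intro x hx
  apply D.a_id
  rcases hx with hx | hx
  · rw [abs_of_nonpos (by linarith)]; linarith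
  · rw [abs_of_nonneg (by linarith)]; exact hx

lemma supB (D : Data a b u k N) : Sup b (-1) 1 := by
  intro x hx
  apply D.b_id
  rcases hx with hx | hx
  · rw [abs_of_nonpos (by linarith)]; linarith
  · rw [abs_of_nonneg (by linarith)]; exact hx

lemma h_two (D : Data a b u k N) {x : ℝ} (hx : |x| ≤ 1) : (scl * a * scl⁻¹) x = 2 * x := by
  rw [oi_mul, oi_mul, scl_inv, D.a_two, scl_apply]
  · ring
  · rw [abs_div, abs_of_pos (by norm_num : (0:ℝ) < 8)]; linarith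

lemma h_pow (D : Data a b u k N) (n : ℕ) : ∀ {x : ℝ}, |x| * 2 ^ n ≤ 1 →
    ((scl * a * scl⁻¹) ^ n) x = 2 ^ n * x := by
  induction n with
  | zero => intro x _; simp
  | succ n ih =>
    intro x hx
    rw [pow_succ] at hx
    have h0 : 0 ≤ |x| * 2 ^ n := by positivity
    rw [oi_pow_succ, ih (by linarith), D.h_two]
    · rw [pow_succ]; ring
    · rw [abs_mul, abs_of_pos (by positivity : (0:ℝ) < 2 ^ n)]; linarith

lemma h_inv_pow (D : Data a b u k N) (n : ℕ) {x : ℝ} (hx : |x| ≤ 1) :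
    (((scl * a * scl⁻¹) ^ n)⁻¹) x = x / 2 ^ n := by
  have hp : (0:ℝ) < 2 ^ n := by positivity
  have h1 : ((scl * a * scl⁻¹) ^ n) (x / 2 ^ n) = x := by
    rw [D.h_pow n]
    · field_simp
    · rw [abs_div, abs_of_pos hp, div_mul_cancel₀ _ hp.ne']; exact hx
  have h2 := oi_inv_self ((scl * a * scl⁻¹) ^ n) (x / 2 ^ n)
  rw [h1] at h2
  exact h2

lemma a_pow (D : Data a b u k N) (n : ℕ) : ∀ {x : ℝ}, |x| * 2 ^ n ≤ 1/4 →
    (a ^ n) x = 2 ^ n * x := by
  induction n with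
  | zero => intro x _; simp
  | succ n ih =>
    intro x hx
    rw [pow_succ] at hx
    have h0 : 0 ≤ |x| * 2 ^ n := by positivity
    rw [oi_pow_succ, ih (by linarith), D.a_two]
    · rw [pow_succ]; ring
    · rw [abs_mul, abs_of_pos (by positivity : (0:ℝ) < 2 ^ n)]; linarith

lemma b_mem (D : Data a b u k N) {x : ℝ} (hx : |x| < 1) : |b x| < 1 := by
  rw [abs_lt] at hx ⊢
  have h1 : b (-1) = -1 := D.b_id (-1) (by norm_num)
  have h2 : b 1 = 1 := D.b_id 1 (by norm_num)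
  constructor
  · have := (oi_lt b).mpr hx.1; rwa [h1] at this
  · have := (oi_lt b).mpr hx.2; rwa [h2] at this

lemma b_pow_lt (D : Data a b u k N) {n : ℕ} (hn : 1 ≤ n) {x : ℝ} (hx : |x| < 1) :
    x < (b ^ n) x := by
  obtain ⟨m, rfl⟩ : ∃ m, n = m + 1 := ⟨n - 1, by omega⟩
  have key : ∀ m : ℕ, |(b ^ m) x| < 1 ∧ x ≤ (b ^ m) x := by
    intro m
    induction m with
    | zero => exact ⟨hx, le_refl _⟩
    | succ m ih =>
      rw [oi_pow_succ]
      exact ⟨D.b_mem ih.1, ih.2.trans (D.b_lt _ ih.1).le⟩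
  rw [oi_pow_succ]
  exact lt_of_le_of_lt (key m).2 (D.b_lt _ (key m).1)

lemma b_pow_mono (D : Data a b u k N) {m n : ℕ} (hmn : m ≤ n) {x : ℝ} (hx : |x| < 1) :
    (b ^ m) x ≤ (b ^ n) x := by
  induction n with
  | zero => rw [Nat.le_zero.mp hmn]
  | succ n ih =>
    rcases Nat.lt_or_ge m (n + 1) with h | h
    · refine (ih (by omega)).trans ?_
      rw [oi_pow_succ]
      have hmem : ∀ m : ℕ, |(b ^ m) x| < 1 := by
        intro m
        induction m with
        | zero => exact hx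
        | succ m ih => rw [oi_pow_succ]; exact D.b_mem ih
      exact (D.b_lt _ (hmem n)).le
    · rw [le_antisymm hmn h]

/-- orbits of `u` starting in `[-1, 0)` -/
lemma u_pow (D : Data a b u k N) (n : ℕ) {x : ℝ} (h1 : -1 ≤ x) (h2 : x < 0) :
    x ≤ (u ^ n) x ∧ (u ^ n) x < 0 := by
  induction n with
  | zero => exact ⟨le_refl _, h2⟩
  | succ n ih =>
    rw [oi_pow_succ]
    refine ⟨ih.1.trans (D.u_lt _ (h1.trans ih.1) ih.2).le, ?_⟩
    have := (oi_lt u).mpr ih.2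
    rwa [D.u_pos 0 (le_refl _)] at this

lemma u_pow_lt (D : Data a b u k N) {n : ℕ} (hn : 1 ≤ n) {x : ℝ} (h1 : -1 ≤ x) (h2 : x < 0) :
    x < (u ^ n) x := by
  obtain ⟨m, rfl⟩ : ∃ m, n = m + 1 := ⟨n - 1, by omega⟩
  have h := D.u_pow m h1 h2
  rw [oi_pow_succ]
  exact lt_of_le_of_lt h.1 (D.u_lt _ (h1.trans h.1) h.2)

/-- scaling relation for powers of `u` -/
lemma u_scale1 (D : Data a b u k N) (j : ℕ) {x : ℝ} (hx : -1/2 ≤ x) :
    (u ^ j) (2 * x) = 2 * (u ^ (j * 2 ^ k)) x := by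
  rcases lt_or_ge x 0 with h0 | h0
  · induction j with
    | zero => simp
    | succ j ih =>
      rw [oi_pow_succ, ih]
      have h1 := D.u_pow (j * 2 ^ k) (by linarith) h0
      rw [D.u_two _ (by linarith [h1.1]) h1.2.le, ← oi_mul, ← pow_add]
      congr 3
      ring
  · rw [oi_fix_pow u _ (D.u_pos _ (by linarith)), oi_fix_pow u _ (D.u_pos _ h0)]

lemma u_scale (D : Data a b u k N) (n : ℕ) : ∀ (j : ℕ) {x : ℝ}, -1 ≤ x * 2 ^ n →
    (u ^ j) (2 ^ n * x) = 2 ^ n * (u ^ (j * (2 ^ n) ^ k)) x := by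
  induction n with
  | zero => intro j x _; simp
  | succ n ih =>
    intro j x hx
    have hpos : (0:ℝ) < 2 ^ n := by positivity
    have h1 : -1/2 ≤ 2 ^ n * x := by rw [pow_succ] at hx; linarith
    have h2 : -1 ≤ x * 2 ^ n := by linarith
    have e1 : (2:ℝ) ^ (n + 1) * x = 2 * (2 ^ n * x) := by rw [pow_succ]; ring
    rw [e1, D.u_scale1 j h1, ih _ h2, pow_succ]
    have e2 : j * 2 ^ k * (2 ^ n) ^ k = j * (2 ^ (n + 1)) ^ k := by
      rw [pow_succ, mul_pow]; ring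
    rw [e2]; ring

/-- a lower bound for the speed of `u` -/
lemma u_slow (D : Data a b u k N) (r : ℕ) (hr : u (-1) * 2 ^ r ≤ -1) (n : ℕ) :
    (u ^ n) (-1) * 2 ^ (r * n) ≤ -1 := by
  have h2k : 1 ≤ 2 ^ k := Nat.one_le_pow _ _ (by norm_num)
  -- `u (2 x) ≥ 2 u x`
  have hdbl : ∀ x, -1/2 ≤ x → x < 0 → 2 * u x ≤ u (2 * x) := by
    intro x h1 h2
    rw [D.u_two x h1 h2.le]
    have h3 : u x ≤ (u ^ (2 ^ k)) x := by
      obtain ⟨q, hq⟩ : ∃ q, 2 ^ k = q + 1 := ⟨2 ^ k - 1, by omega⟩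
      rw [hq, oi_pow_succ, oi_le]
      exact (D.u_pow q (by linarith) h2).1
    linarith
  have hscale : ∀ j : ℕ, u (-(1 / 2 ^ j)) * 2 ^ j ≤ u (-1) := by
    intro j
    induction j with
    | zero => simp
    | succ j ih =>
      have hp : (0:ℝ) < 2 ^ j := by positivity
      have hp1 : (1:ℝ) ≤ 2 ^ j := one_le_pow₀ (by norm_num)
      have h1 := hdbl (-(1 / 2 ^ (j + 1))) (by
        rw [pow_succ, neg_div, neg_le_neg_iff]
        rw [div_le_div_iff₀ (by positivity) (by norm_num)]; linarith) (by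
        have : (0:ℝ) < 1 / 2 ^ (j + 1) := by positivity
        linarith)
      have e1 : 2 * (-(1 / (2:ℝ) ^ (j + 1))) = -(1 / 2 ^ j) := by
        rw [pow_succ]; field_simp
      rw [e1] at h1
      calc u (-(1 / 2 ^ (j + 1))) * 2 ^ (j + 1) = (2 * u (-(1 / 2 ^ (j + 1)))) * 2 ^ j := by
            rw [pow_succ]; ring
        _ ≤ u (-(1 / 2 ^ j)) * 2 ^ j := mul_le_mul_of_nonneg_right h1 hp.le
        _ ≤ u (-1) := ih
  induction n with
  | zero => simp
  | succ n ih =>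
    have hp : (0:ℝ) < 2 ^ (r * n) := by positivity
    have hpr : (0:ℝ) < 2 ^ r := by positivity
    have h1 : (u ^ n) (-1) ≤ -(1 / 2 ^ (r * n)) := by
      rw [← neg_div, le_div_iff₀ hp]; exact ih
    rw [oi_pow_succ]
    have h2 : u ((u ^ n) (-1)) ≤ u (-(1 / 2 ^ (r * n))) := (oi_le u).mpr h1
    calc u ((u ^ n) (-1)) * 2 ^ (r * (n + 1)) = (u ((u ^ n) (-1)) * 2 ^ (r * n)) * 2 ^ r := by
          rw [mul_add, mul_one, pow_add]; ring
      _ ≤ (u (-(1 / 2 ^ (r * n))) * 2 ^ (r * n)) * 2 ^ r := by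
          apply mul_le_mul_of_nonneg_right _ hpr.le
          exact mul_le_mul_of_nonneg_right h2 hp.le
      _ ≤ u (-1) * 2 ^ r := mul_le_mul_of_nonneg_right (hscale _) hpr.le
      _ ≤ -1 := hr

/-- **The relations.** -/
theorem rel (D : Data a b u k N) : ∃ l : ℕ, ∀ n ≥ 1,
    Rel ((scl * a * scl⁻¹) ^ n) (a ^ n) (b ^ n) (u ^ n) (2 ^ n) k l N ∧
    (u ^ n * ((((scl * a * scl⁻¹) ^ n) ^ l)⁻¹ * b ^ n * ((scl * a * scl⁻¹) ^ n) ^ l) ≠
      ((((scl * a * scl⁻¹) ^ n) ^ l)⁻¹ * b ^ n * ((scl * a * scl⁻¹) ^ n) ^ l) * u ^ n) := by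
  set h := scl * a * scl⁻¹ with hh
  have hu1 : u (-1) < 0 := by
    have := (oi_lt u).mpr (show (-1:ℝ) < 0 by norm_num)
    rwa [D.u_pos 0 (le_refl _)] at this
  obtain ⟨r, hr⟩ : ∃ r : ℕ, u (-1) * 2 ^ r ≤ -1 := by
    obtain ⟨r, hr⟩ := pow_unbounded_of_one_lt (1 / (-u (-1))) (show (1:ℝ) < 2 by norm_num)
    refine ⟨r, ?_⟩
    have h1 : 0 < -u (-1) := by linarith
    rw [div_lt_iff₀ h1] at hr
    linarith
  refine ⟨r + 3, fun n hn => ?_⟩
  set l := r + 3 with hl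
  -- powers of two
  have hp : ∀ j : ℕ, (0:ℝ) < 2 ^ j := fun j => by positivity
  set ε : ℝ := 1 / 2 ^ (n * l) with hε
  have hε0 : 0 < ε := by positivity
  have hεn : ε * 2 ^ n ≤ 1/4 := by
    rw [hε, div_mul_eq_mul_div, one_mul, div_le_div_iff₀ (hp _) (by norm_num)]
    have e1 : n * l = n + (n * (r + 2)) := by rw [hl]; ring
    have e2 : 2 ≤ n * (r + 2) := by nlinarith
    rw [e1, pow_add]
    have e3 : (2:ℝ) ^ 2 ≤ 2 ^ (n * (r + 2)) := pow_le_pow_right₀ (by norm_num) e2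
    nlinarith [hp n]
  have h2n : (2:ℝ) ≤ 2 ^ n := by
    calc (2:ℝ) = 2 ^ 1 := by norm_num
      _ ≤ 2 ^ n := pow_le_pow_right₀ (by norm_num) hn
  have hε8 : ε ≤ 1/8 := by nlinarith
  have hHl : (h ^ n) ^ l = h ^ (n * l) := by rw [pow_mul]
  have hHlinv : ∀ {x : ℝ}, |x| ≤ 1 → (((h ^ n) ^ l)⁻¹) x = x * ε := by
    intro x hx
    rw [hHl, D.h_inv_pow _ hx, hε]; ring
  have hHlp1 : (((h ^ n) ^ l)⁻¹) 1 = ε := by rw [hHlinv (by norm_num)]; ring
  have hHlm1 : (((h ^ n) ^ l)⁻¹) (-1) = -ε := by rw [hHlinv (by norm_num)]; ring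
  -- supports of the small pair
  have supAn : Sup (a ^ n) (-1) 1 := D.supA.pow n
  have supBn : Sup (b ^ n) (-1) 1 := D.supB.pow n
  have supsA : Sup (((h ^ n) ^ l)⁻¹ * a ^ n * (h ^ n) ^ l) (-ε) ε := by
    have := supAn.conj ((h ^ n) ^ l)⁻¹
    rwa [hHlp1, hHlm1, inv_inv] at this
  have supsB : Sup (((h ^ n) ^ l)⁻¹ * b ^ n * (h ^ n) ^ l) (-ε) ε := by
    have := supBn.conj ((h ^ n) ^ l)⁻¹
    rwa [hHlp1, hHlm1, inv_inv] at this
  have hHn : ∀ x ∈ Icc (-ε) ε, (h ^ n) x = 2 ^ n * x := by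
    intro x hx
    apply D.h_pow n
    have : |x| ≤ ε := abs_le.mpr hx
    nlinarith [hp n, abs_nonneg x]
  have hHninv : ∀ {x : ℝ}, |x| ≤ 1 → (h ^ n)⁻¹ x = x / 2 ^ n := fun hx => D.h_inv_pow n hx
  -- scaling relation, both forms
  have hrel1 : ∀ x ∈ Icc (-ε) ε, ((u ^ n) ^ ((2 ^ n) ^ k)) x = (h ^ n)⁻¹ ((u ^ n) ((h ^ n) x)) := by
    intro x hx
    have h1 := D.u_scale n n (x := x) (by nlinarith [hp n, hx.1])
    rw [hHn x hx, h1, ← pow_mul]
    have h2 : |2 ^ n * (u ^ (n * (2 ^ n) ^ k)) x| ≤ 1 := by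
      rcases lt_or_ge x 0 with h0 | h0
      · have h3 := D.u_pow (n * (2 ^ n) ^ k) (x := x) (by linarith [hx.1]) h0
        rw [abs_le]
        constructor
        · nlinarith [hp n, hx.1]
        · nlinarith [hp n]
      · rw [oi_fix_pow u _ (D.u_pos _ h0), abs_of_nonneg (by positivity)]
        nlinarith [hp n, hx.2]
    rw [hHninv h2]
    field_simp
  have hslow := D.u_slow r hr n
  have hrel2 : ∀ x ∈ Icc (-ε) ε,
      (((u ^ n)⁻¹) ^ ((2 ^ n) ^ k)) x = (h ^ n)⁻¹ (((u ^ n)⁻¹) ((h ^ n) x)) := by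
    intro x hx
    rw [hHn x hx, inv_pow, ← pow_mul]
    set y := ((u ^ (n * (2 ^ n) ^ k))⁻¹) x with hy
    have hxy : (u ^ (n * (2 ^ n) ^ k)) y = x := oi_self_inv _ _
    have hy1 : -1 ≤ y * 2 ^ n := by
      rcases lt_or_ge x 0 with h0 | h0
      · -- compare with `-2⁻ⁿ`
        have h3 := D.u_scale n n (x := -(1 / 2 ^ n)) (by
          rw [neg_mul, one_div, inv_mul_cancel₀ (hp n).ne'])
        have e1 : (2:ℝ) ^ n * -(1 / 2 ^ n) = -1 := by field_simp
        rw [e1] at h3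
        -- h3 : u^n (-1) = 2^n * u^(..) (-2^-n)
        have h4 : (u ^ (n * (2 ^ n) ^ k)) (-(1 / 2 ^ n)) ≤ x := by
          have h5 : (u ^ (n * (2 ^ n) ^ k)) (-(1 / 2 ^ n)) = (u ^ n) (-1) / 2 ^ n := by
            rw [h3]; field_simp
          rw [h5, div_le_iff₀ (hp n)]
          have h6 : (u ^ n) (-1) ≤ -(1 / 2 ^ (r * n)) := by
            rw [← neg_div, le_div_iff₀ (hp _)]; exact hslow
          have h7 : -(1 / 2 ^ (r * n)) ≤ x * 2 ^ n := by
            have h8 : -ε * 2 ^ n ≤ x * 2 ^ n := mul_le_mul_of_nonneg_right hx.1 (hp n).le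
            refine le_trans ?_ h8
            rw [neg_mul, neg_le_neg_iff, hε, div_mul_eq_mul_div, one_mul,
              div_le_div_iff₀ (hp _) (hp _), one_mul, ← pow_add]
            apply pow_le_pow_right₀ (by norm_num)
            rw [hl]; nlinarith
          linarith
        have h9 : -(1 / 2 ^ n) ≤ y := by
          rw [← oi_le (u ^ (n * (2 ^ n) ^ k)), hxy]; exact h4
        have h10 := mul_le_mul_of_nonneg_right h9 (hp n).le
        rw [neg_mul, one_div, inv_mul_cancel₀ (hp n).ne'] at h10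
        exact h10
      · have h3 : y = x := by
          rw [hy]; exact oi_fix_inv _ (oi_fix_pow u _ (D.u_pos _ h0))
        rw [h3]; nlinarith [hp n]
    have h11 := D.u_scale n n hy1
    rw [hxy] at h11
    have h12 : ((u ^ n)⁻¹) (2 ^ n * x) = 2 ^ n * y := by
      rw [← h11, oi_inv_self]
    rw [h12]
    have hy2 : y ≤ ε := by
      rcases lt_or_ge y 0 with h0 | h0
      · linarith
      · have : y = x := by rw [← hxy, oi_fix_pow u _ (D.u_pos _ h0)]
        rw [this]; exact hx.2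
    have h13 : |2 ^ n * y| ≤ 1 := by
      rw [abs_le]; constructor
      · linarith
      · nlinarith [hp n]
    rw [hHninv h13]
    field_simp
  -- `b^(n N)` moves to the right
  have hbN : ∀ x, -1/2 ≤ x → 1/2 ≤ ((b ^ n) ^ N) x := by
    intro x hx
    have h1 : ((b ^ n) ^ N) (-1/2) ≤ ((b ^ n) ^ N) x := (oi_le _).mpr hx
    refine le_trans ?_ h1
    refine D.hN.trans ?_
    rw [← pow_mul]
    apply D.b_pow_mono _ (by rw [abs_of_neg] <;> norm_num)
    nlinarith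
  have hH0 : ∀ j : ℕ, ∀ x : ℝ, 0 ≤ x → 0 ≤ (((h ^ n) ^ j)⁻¹) x := by
    intro j x hx
    have h1 : (((h ^ n) ^ j)⁻¹) 0 = 0 := by
      rw [← pow_mul, D.h_inv_pow _ (by norm_num)]; simp
    rw [← h1, oi_le]; exact hx
  have hg : ∀ j : ℕ, 0 ≤ (((h ^ n) ^ j)⁻¹ * (b ^ n) ^ N * ((h ^ n) ^ l)⁻¹) (-1) := by
    intro j
    rw [oi_mul, oi_mul, hHlm1]
    apply hH0
    have := hbN (-ε) (by linarith)
    linarith
  refine ⟨⟨?_, ?_, ?_, ?_, ?_, ?_, ?_, ?_, ?_, ?_, ?_⟩, ?_⟩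
  · -- bs
    have h1 : a * b * a⁻¹ = b ^ 2 := by
      ext x
      rw [oi_mul, oi_mul, D.ab, oi_self_inv, sq, oi_mul]
    have h2 := bs_pow h1 n
    have h3 : a ^ n * b ^ n * (a ^ n)⁻¹ = (a ^ n * b * (a ^ n)⁻¹) ^ n := by rw [conj_pow]
    rw [h3, h2, ← pow_mul, ← pow_mul, mul_comm]
  · -- r2a
    have s1 : Sup ((h ^ n)⁻¹ * b ^ n * h ^ n) (-(1/2)) (1/2) := by
      have := supBn.conj (h ^ n)⁻¹
      rw [inv_inv, hHninv (by norm_num), hHninv (by norm_num)] at this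
      apply this.mono
      · rw [neg_div, neg_le_neg_iff]
        rw [div_le_div_iff₀ (hp n) (by norm_num)]; linarith
      · rw [div_le_div_iff₀ (hp n) (by norm_num)]; linarith
    have s2 := s1.conj ((b ^ n) ^ N)
    exact (comm_of_disjoint s1 s2 (hbN _ (by norm_num))).symm
  · -- r2b
    have s1 : Sup ((h ^ n)⁻¹ * b ^ n * h ^ n) (-(1/2)) (1/2) := by
      have := supBn.conj (h ^ n)⁻¹
      rw [inv_inv, hHninv (by norm_num), hHninv (by norm_num)] at this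
      apply this.mono
      · rw [neg_div, neg_le_neg_iff]
        rw [div_le_div_iff₀ (hp n) (by norm_num)]; linarith
      · rw [div_le_div_iff₀ (hp n) (by norm_num)]; linarith
    have s1' : Sup ((h ^ n)⁻¹ * a ^ n * h ^ n) (-(1/2)) (1/2) := by
      have := supAn.conj (h ^ n)⁻¹
      rw [inv_inv, hHninv (by norm_num), hHninv (by norm_num)] at this
      apply this.mono
      · rw [neg_div, neg_le_neg_iff]
        rw [div_le_div_iff₀ (hp n) (by norm_num)]; linarith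
      · rw [div_le_div_iff₀ (hp n) (by norm_num)]; linarith
    have s2 := s1.conj ((b ^ n) ^ N)
    exact (comm_of_disjoint s1' s2 (hbN _ (by norm_num))).symm
  · -- r3a
    apply comm_of_fix _ supsB
    intro x hx
    rw [oi_mul, hHn x hx, ← D.a_pow n, oi_inv_self]
    have : |x| ≤ ε := abs_le.mpr hx
    nlinarith [hp n, abs_nonneg x]
  · apply comm_of_fix _ supsA
    intro x hx
    rw [oi_mul, hHn x hx, ← D.a_pow n, oi_inv_self]
    have : |x| ≤ ε := abs_le.mpr hx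
    nlinarith [hp n, abs_nonneg x]
  · apply comm_of_fix _ supsB
    intro x hx
    rw [oi_mul, oi_mul, oi_mul, ← hrel1 x hx, oi_inv_self]
  · apply comm_of_fix _ supsA
    intro x hx
    rw [oi_mul, oi_mul, oi_mul, ← hrel1 x hx, oi_inv_self]
  · apply comm_of_fix _ supsB
    intro x hx
    rw [oi_mul, oi_mul, oi_mul, ← hrel2 x hx, oi_inv_self]
  · apply comm_of_fix _ supsA
    intro x hx
    rw [oi_mul, oi_mul, oi_mul, ← hrel2 x hx, oi_inv_self]
  · intro j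
    apply comm_of_fix _ (supBn.conj _)
    intro x hx
    exact oi_fix_pow u n (D.u_pos x ((hg j).trans hx.1))
  · intro j
    apply comm_of_fix _ (supAn.conj _)
    intro x hx
    exact oi_fix_pow u n (D.u_pos x ((hg j).trans hx.1))
  · -- non-commutation
    intro hcon
    have h1 := congrArg (fun e : ℝ ≃o ℝ => e (-ε)) hcon
    simp only [oi_mul] at h1
    have h2 : (((h ^ n) ^ l)⁻¹) ((b ^ n) (((h ^ n) ^ l) (-ε))) = -ε := by
      have := supsB (-ε) (Or.inl (le_refl _))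
      rwa [oi_mul, oi_mul] at this
    rw [h2] at h1
    set p := (u ^ n) (-ε) with hpdef
    have hp1 : -ε < p := D.u_pow_lt hn (by linarith) (by linarith)
    have hp2 : p < 0 := (D.u_pow n (by linarith) (by linarith)).2
    -- `h1 : p = TA p`
    have h3 := congrArg (fun x => ((h ^ n) ^ l) x) h1
    simp only [oi_self_inv] at h3
    have h4 : |((h ^ n) ^ l) p| < 1 := by
      rw [abs_lt]
      constructor
      · rw [← oi_lt (((h ^ n) ^ l)⁻¹), oi_inv_self, hHlm1]; exact hp1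
      · rw [← oi_lt (((h ^ n) ^ l)⁻¹), oi_inv_self, hHlp1]; linarith
    have h5 := D.b_pow_lt hn h4
    rw [← h3] at h5
    exact lt_irrefl _ h5

end Data

end Pool.Agent.H63.Crit
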