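import Pool.Agent.H63.Crit.CL
import Pool.Agent.H63.Crit.Source
import Pool.Agent.H63.Crit.CircleAct

/-!
# Smoothness of the generators, and the embedding into the groups of diffeomorphisms
-/

namespace Pool.Agent.H63.Crit

open Set Filter Topology

lemma CL.const (n : ℕ) (s : Set ℝ) (c : ℝ) : CL s n (fun _ => c) := by
  induction n generalizing c with
  | zero => exact ⟨⟨0, fun x _ y _ => by simp⟩, ⟨|c|, fun x _ => le_refl _⟩⟩
  | succ n ih =>
    refine ⟨differentiableOn_const c, ⟨|c|, fun x _ => le_refl _⟩, ?_⟩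
    apply (ih 0).congr
    intro x _
    rw [derivWithin_fun_const]
    rfl

/-- The group of `C^{k,Lip}` diffeomorphisms of the line with bounded derivatives. -/
def CLG (k : ℕ) : Subgroup (ℝ ≃o ℝ) where
  carrier := {e | (Differentiable ℝ e ∧ CL univ (k - 1) (derivWithin e univ)) ∧
    (Differentiable ℝ (e⁻¹ : ℝ ≃o ℝ) ∧ CL univ (k - 1) (derivWithin (e⁻¹ : ℝ ≃o ℝ) univ))}
  mul_mem' := by
    intro e e' h h'
    have key : ∀ f g : ℝ ≃o ℝ, (Differentiable ℝ f ∧ CL univ (k - 1) (derivWithin f univ)) →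
        (Differentiable ℝ g ∧ CL univ (k - 1) (derivWithin g univ)) →
        (Differentiable ℝ (f * g : ℝ ≃o ℝ) ∧ CL univ (k - 1) (derivWithin (f * g : ℝ ≃o ℝ) univ)) := by
      intro f g hf hg
      have hfg : ((f * g : ℝ ≃o ℝ) : ℝ → ℝ) = (f : ℝ → ℝ) ∘ (g : ℝ → ℝ) := rfl
      rw [hfg]
      exact ⟨hf.1.comp hg.1, cl_comp (F := (f : ℝ → ℝ)) (G := (g : ℝ → ℝ)) uniqueDiffOn_univ
        convex_univ (mapsTo_univ _ _)
        hf.1.differentiableOn hg.1.differentiableOn hf.2 hg.2⟩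
    refine ⟨key e e' h.1 h'.1, ?_⟩
    rw [mul_inv_rev]
    exact key _ _ h'.2 h.2
  one_mem' := by
    have key : (Differentiable ℝ (1 : ℝ ≃o ℝ) ∧
        CL univ (k - 1) (derivWithin (1 : ℝ ≃o ℝ) univ)) := by
      refine ⟨differentiable_id, ?_⟩
      apply (CL.const (k - 1) univ 1).congr
      intro x _
      show (1:ℝ) = derivWithin (fun y => y) univ x
      rw [derivWithin_univ, deriv_id'']
    exact ⟨key, by rw [inv_one]; exact key⟩
  inv_mem' := by
    intro e h
    exact ⟨h.2, by rw [inv_inv]; exact h.1⟩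

lemma affine_mem {e : ℝ ≃o ℝ} {c d : ℝ} (hc : 0 < c) (h : ∀ x, e x = c * x + d) (k : ℕ) :
    e ∈ CLG k := by
  have key : ∀ (f : ℝ → ℝ) (c d : ℝ), (∀ x, f x = c * x + d) →
      (Differentiable ℝ f ∧ CL univ (k - 1) (derivWithin f univ)) := by
    intro f c d hf
    have hf' : f = fun x => c * x + d := funext hf
    have hd : ∀ x, HasDerivAt f c x := by
      intro x
      rw [hf']
      have := ((hasDerivAt_id x).const_mul c).add_const d
      simpa using this
    refine ⟨fun x => (hd x).differentiableAt, ?_⟩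
    apply (CL.const (k - 1) univ c).congr
    intro x _
    rw [derivWithin_univ, (hd x).deriv]
  refine ⟨key e c d h, key _ c⁻¹ (-(c⁻¹ * d)) ?_⟩
  intro x
  have h1 : e (c⁻¹ * x + -(c⁻¹ * d)) = x := by
    rw [h]; field_simp; ring
  have h2 := oi_inv_self e (c⁻¹ * x + -(c⁻¹ * d))
  rw [h1] at h2
  exact h2

/-- bounded iterated derivatives -/
lemma bdd_iteratedDeriv {f : ℝ → ℝ} {n : ℕ} (hf : ContDiff ℝ n f) {lo hi : ℝ}
    (hsup : ∀ x, (x < lo ∨ hi < x) → f x = x) {i : ℕ} (hi1 : 1 ≤ i) (hin : i ≤ n) :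
    ∃ B, ∀ x, |iteratedDeriv i f x| ≤ B := by
  have hc : Continuous (iteratedDeriv i f) := hf.continuous_iteratedDeriv i (by exact_mod_cast hin)
  obtain ⟨B, hB⟩ := (isCompact_Icc (a := lo) (b := hi)).exists_bound_of_continuousOn hc.continuousOn
  refine ⟨max B 1, fun x => ?_⟩
  by_cases hx : x ∈ Icc lo hi
  · exact (hB x hx).trans (le_max_left _ _)
  · rw [mem_Icc, not_and_or, not_le, not_le] at hx
    have hev : f =ᶠ[𝓝 x] (fun y => y) := by
      rcases hx with hx | hx
      · filter_upwards [Iio_mem_nhds hx] with y hy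
        exact hsup y (Or.inl hy)
      · filter_upwards [Ioi_mem_nhds hx] with y hy
        exact hsup y (Or.inr hy)
    rw [hev.iteratedDeriv_eq i]
    refine le_trans ?_ (le_max_right _ _)
    obtain ⟨j, rfl⟩ : ∃ j, i = j + 1 := ⟨i - 1, by omega⟩
    rw [iteratedDeriv_succ', deriv_id'', iteratedDeriv_const]
    split_ifs <;> norm_num

lemma cl_of_support {f : ℝ → ℝ} {k : ℕ} (hk : 1 ≤ k) (hf : ContDiff ℝ k f) {lo hi : ℝ}
    (hsup : ∀ x, (x < lo ∨ hi < x) → f x = x) (hlip : Lip univ (iteratedDeriv k f)) :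
    Differentiable ℝ f ∧ CL univ (k - 1) (derivWithin f univ) := by
  obtain ⟨j, rfl⟩ : ∃ j, k = j + 1 := ⟨k - 1, by omega⟩
  rw [Nat.add_sub_cancel]
  have hf' : ContDiff ℝ ((j : WithTop ℕ∞) + 1) f := by exact_mod_cast hf
  rw [contDiff_succ_iff_deriv] at hf'
  refine ⟨hf'.1, ?_⟩
  apply CL.of_contDiffOn uniqueDiffOn_univ
  · rw [derivWithin_univ]; exact hf'.2.2.contDiffOn
  · rw [← iteratedDerivWithin_succ', iteratedDerivWithin_univ]; exact hlip
  · intro i hi
    rw [← iteratedDerivWithin_succ', iteratedDerivWithin_univ]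
    obtain ⟨B, hB⟩ := bdd_iteratedDeriv hf hsup (i := i + 1) (by omega) (by omega)
    exact ⟨B, fun x _ => hB x⟩

lemma lip_of_smooth {f : ℝ → ℝ} {k : ℕ} (hf : ContDiff ℝ ((k + 1 : ℕ) : WithTop ℕ∞) f) {lo hi : ℝ}
    (hsup : ∀ x, (x < lo ∨ hi < x) → f x = x) : Lip univ (iteratedDeriv k f) := by
  obtain ⟨B, hB⟩ := bdd_iteratedDeriv hf hsup (i := k + 1) (by omega) (le_refl _)
  apply lip_of_deriv_bd convex_univ
  · apply Differentiable.differentiableOn
    exact hf.differentiable_iteratedDeriv k (by exact_mod_cast Nat.lt_succ_self k)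
  · refine ⟨B, fun x _ => ?_⟩
    rw [derivWithin_univ, ← iteratedDeriv_succ]
    exact hB x

lemma smooth_mem {e : ℝ ≃o ℝ} {lo hi : ℝ} {k : ℕ} (hk : 1 ≤ k)
    (h1 : ContDiff ℝ ((⊤ : ℕ∞) : WithTop ℕ∞) e) (h2 : ContDiff ℝ ((⊤ : ℕ∞) : WithTop ℕ∞) e.symm)
    (hsup : ∀ x, (x < lo ∨ hi < x) → e x = x) : e ∈ CLG k := by
  have hsup' : ∀ x, (x < lo ∨ hi < x) → e.symm x = x := by
    intro x hx
    have := hsup x hx
    have h3 := e.symm_apply_apply x
    rwa [this] at h3
  have hle : ∀ j : ℕ, ((j : ℕ) : WithTop ℕ∞) ≤ ((⊤ : ℕ∞) : WithTop ℕ∞) := by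
    intro j
    exact_mod_cast (le_top : (j : ℕ∞) ≤ ⊤)
  exact ⟨cl_of_support hk (h1.of_le (hle k)) hsup (lip_of_smooth (h1.of_le (hle (k + 1))) hsup),
    cl_of_support hk (h2.of_le (hle k)) hsup' (lip_of_smooth (h2.of_le (hle (k + 1))) hsup')⟩

lemma lip_mem {e : ℝ ≃o ℝ} {lo hi : ℝ} {k : ℕ} (hk : 1 ≤ k) (h1 : ContDiff ℝ k e)
    (h1' : ∃ C, LipschitzWith C (iteratedDeriv k e)) (h2 : ContDiff ℝ k e.symm)
    (hsup : ∀ x, (x < lo ∨ hi < x) → e x = x) : e ∈ CLG k := by
  have hlip : Lip univ (iteratedDeriv k e) := by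
    obtain ⟨C, hC⟩ := h1'
    exact Lip.of_lipschitzOnWith hC.lipschitzOnWith
  have hf := cl_of_support hk h1 hsup hlip
  have hk0 : ((k : ℕ) : WithTop ℕ∞) ≠ 0 := by
    have : k ≠ 0 := by omega
    exact_mod_cast this
  have hd2 : Differentiable ℝ e.symm := h2.differentiable hk0
  refine ⟨hf, hd2, ?_⟩
  apply cl_inv uniqueDiffOn_univ convex_univ (mapsTo_univ _ _) hf.1.differentiableOn
    hd2.differentiableOn (fun x _ => e.apply_symm_apply x) _ hf.2
  -- lower bound for the derivative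
  have hpos : ∀ x, 0 < deriv e x := by
    intro x
    have h3 : 0 ≤ deriv e x := e.monotone.deriv_nonneg
    rcases h3.eq_or_lt with h4 | h4
    · exfalso
      have h5 : HasDerivAt (e.symm ∘ e) (deriv e.symm (e x) * deriv e x) x :=
        HasDerivAt.comp x (hd2 _).hasDerivAt (hf.1 x).hasDerivAt
      have h6 : (e.symm ∘ e) = fun y => y := funext (fun y => e.symm_apply_apply y)
      rw [h6, ← h4, mul_zero] at h5
      exact zero_ne_one (h5.unique (hasDerivAt_id x))
    · exact h4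
  have hcont : Continuous (deriv e) := h1.continuous_deriv (by exact_mod_cast hk)
  rcases (Icc lo hi).eq_empty_or_nonempty with hem | hne
  · refine ⟨1, one_pos, fun x _ => ?_⟩
    rw [derivWithin_univ]
    have hid : (e : ℝ → ℝ) = fun y => y := by
      funext y
      apply hsup
      have : y ∉ Icc lo hi := by rw [hem]; simp
      rw [mem_Icc, not_and_or, not_le, not_le] at this
      exact this
    rw [hid, deriv_id'']
  · obtain ⟨x₀, hx₀, hmin⟩ := (isCompact_Icc (a := lo) (b := hi)).exists_isMinOn hne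
      hcont.continuousOn
    refine ⟨min (deriv e x₀) 1, lt_min (hpos x₀) one_pos, fun x _ => ?_⟩
    rw [derivWithin_univ]
    by_cases hx : x ∈ Icc lo hi
    · exact (min_le_left _ _).trans (hmin hx)
    · rw [mem_Icc, not_and_or, not_le, not_le] at hx
      have hev : (e : ℝ → ℝ) =ᶠ[𝓝 x] (fun y => y) := by
        rcases hx with hx | hx
        · filter_upwards [Iio_mem_nhds hx] with y hy
          exact hsup y (Or.inl hy)
        · filter_upwards [Ioi_mem_nhds hx] with y hy
          exact hsup y (Or.inr hy)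
      rw [hev.deriv_eq, deriv_id'']
      exact min_le_right _ _

lemma mem_contDiff {e : ℝ ≃o ℝ} {k : ℕ} (hk : 1 ≤ k) (h : e ∈ CLG k) :
    ContDiff ℝ k e ∧ Lip univ (iteratedDeriv k e) := by
  obtain ⟨j, rfl⟩ : ∃ j, k = j + 1 := ⟨k - 1, by omega⟩
  have h1 := h.1
  rw [Nat.add_sub_cancel] at h1
  obtain ⟨h2, h3⟩ := h1.2.contDiffOn uniqueDiffOn_univ
  rw [← iteratedDerivWithin_succ', iteratedDerivWithin_univ] at h3
  refine ⟨?_, h3⟩
  rw [derivWithin_univ, contDiffOn_univ] at h2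
  have : ContDiff ℝ ((j : WithTop ℕ∞) + 1) e := by
    rw [contDiff_succ_iff_deriv]
    exact ⟨h1.1, fun h => absurd h (by simp), h2⟩
  exact_mod_cast this

/-- maps supported in `[1/31, 30/31]` -/
def K0 : Subgroup (ℝ ≃o ℝ) where
  carrier := {e | Sup e (1/31) (30/31)}
  mul_mem' := by
    intro e e' h h' x hx
    rw [oi_mul, h' x hx, h x hx]
  one_mem' := fun x _ => rfl
  inv_mem' := fun {e} h x hx => oi_fix_inv e (h x hx)

lemma K0.zero (e : K0) : e.1 0 = 0 := e.2 0 (Or.inl (by norm_num))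

lemma K0.one (e : K0) : e.1 1 = 1 := e.2 1 (Or.inr (by norm_num))

lemma K0.mem_Icc (e : K0) {x : ℝ} (hx : x ∈ Icc (0:ℝ) 1) : e.1 x ∈ Icc (0:ℝ) 1 := by
  constructor
  · rw [← K0.zero e, oi_le]; exact hx.1
  · rw [← K0.one e, oi_le]; exact hx.2

/-- the embedding into the permutations of the interval -/
def toI : K0 →* Equiv.Perm (Icc (0:ℝ) 1) where
  toFun e :=
    { toFun := fun x => ⟨e.1 x, K0.mem_Icc e x.2⟩
      invFun := fun x => ⟨(e⁻¹).1 x, K0.mem_Icc e⁻¹ x.2⟩
      left_inv := fun x => Subtype.ext (oi_inv_self e.1 x)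
      right_inv := fun x => Subtype.ext (oi_self_inv e.1 x) }
  map_one' := rfl
  map_mul' := fun _ _ => rfl

lemma toI_apply (e : K0) (x : Icc (0:ℝ) 1) : (toI e x : ℝ) = e.1 x := rfl

lemma toI_injective : Function.Injective toI := by
  intro e e' h
  apply Subtype.ext
  ext x
  by_cases hx : x ∈ Icc (0:ℝ) 1
  · have := congrArg (fun f : Equiv.Perm (Icc (0:ℝ) 1) => (f ⟨x, hx⟩ : ℝ)) h
    exact this
  · have hx' : x ≤ 1/31 ∨ 30/31 ≤ x := by
      rw [Set.mem_Icc, not_and_or, not_le, not_le] at hx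
      rcases hx with hx | hx
      · left; linarith
      · right; linarith
    rw [e.2 x hx', e'.2 x hx']

lemma extI_toI (e : K0) : EqOn (extI (toI e)) e.1 (Icc 0 1) := by
  intro x hx
  rw [extI_of_mem _ hx]; rfl

lemma isDiffLipI {k : ℕ} (hk : 1 ≤ k) (e : K0) (he : e.1 ∈ CLG k) : IsDiffLipI k (toI e) := by
  obtain ⟨h1, h2⟩ := mem_contDiff hk he
  obtain ⟨h3, -⟩ := mem_contDiff hk ((CLG k).inv_mem he)
  refine ⟨⟨?_, h1.contDiffOn.congr (extI_toI e), ?_⟩, ?_⟩
  · intro x y hxy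
    exact (oi_lt e.1).mpr hxy
  · rw [← map_inv]
    exact h3.contDiffOn.congr (extI_toI e⁻¹)
  · obtain ⟨K, hK⟩ := h2
    have hu : UniqueDiffOn ℝ (Icc (0:ℝ) 1) := uniqueDiffOn_Icc zero_lt_one
    have h4 : ∀ x ∈ Icc (0:ℝ) 1, iteratedDerivWithin k (extI (toI e)) (Icc 0 1) x =
        iteratedDeriv k e.1 x := by
      intro x hx
      rw [iteratedDerivWithin_congr (extI_toI e) hx,
        iteratedDerivWithin_eq_iteratedDeriv hu h1.contDiffAt hx]
    apply Lip.lipschitzOnWith
    refine ⟨K, fun x hx y hy => ?_⟩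
    rw [h4 x hx, h4 y hy]
    exact hK x (mem_univ _) y (mem_univ _)

/-- periodic extension -/
noncomputable def perExt (e : K0) (x : ℝ) : ℝ := ⌊x⌋ + e.1 (Int.fract x)

lemma fract_mem (e : K0) (x : ℝ) : 0 ≤ e.1 (Int.fract x) ∧ e.1 (Int.fract x) < 1 := by
  constructor
  · rw [← K0.zero e, oi_le]; exact Int.fract_nonneg x
  · rw [← K0.one e, oi_lt]; exact Int.fract_lt_one x

lemma perExt_floor (e : K0) (x : ℝ) : ⌊perExt e x⌋ = ⌊x⌋ := by
  rw [Int.floor_eq_iff]
  have := fract_mem e x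
  unfold perExt
  constructor <;> linarith

lemma perExt_fract (e : K0) (x : ℝ) : Int.fract (perExt e x) = e.1 (Int.fract x) := by
  rw [Int.fract, perExt_floor]; unfold perExt; ring

lemma perExt_mul (e e' : K0) (x : ℝ) : perExt (e * e') x = perExt e (perExt e' x) := by
  have : perExt e (perExt e' x) = ⌊perExt e' x⌋ + e.1 (Int.fract (perExt e' x)) := rfl
  rw [this, perExt_floor, perExt_fract]; rfl

lemma perExt_one (x : ℝ) : perExt 1 x = x := by
  show ⌊x⌋ + Int.fract x = x
  exact Int.floor_add_fract x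

lemma perExt_add_one (e : K0) (x : ℝ) : perExt e (x + 1) = perExt e x + 1 := by
  unfold perExt
  rw [Int.floor_add_one, Int.fract_add_one]; push_cast; ring

lemma perExt_strictMono (e : K0) : StrictMono (perExt e) := by
  intro x y hxy
  have hx := fract_mem e x
  have hy := fract_mem e y
  rcases (Int.floor_le_floor hxy.le).eq_or_lt with h | h
  · unfold perExt
    have h1 : Int.fract x < Int.fract y := by
      unfold Int.fract; rw [h]; linarith
    have h2 := (oi_lt e.1).mpr h1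
    rw [h]; linarith
  · have h1 : (⌊x⌋ : ℝ) + 1 ≤ ⌊y⌋ := by exact_mod_cast h
    unfold perExt
    linarith

/-- local charts for the periodic extension -/
lemma perExt_chart (e : K0) (n : ℤ) {x : ℝ} (hx : x ∈ Ioo ((n:ℝ) - 1/31) (n + 1 + 1/31)) :
    perExt e x = n + e.1 (x - n) := by
  rcases lt_or_ge x n with h1 | h1
  · have hf : ⌊x⌋ = n - 1 := by
      rw [Int.floor_eq_iff]; push_cast
      constructor <;> linarith [hx.1]
    have hfr : Int.fract x = x - n + 1 := by rw [Int.fract, hf]; push_cast; ring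
    unfold perExt
    rw [hf, hfr, e.2 (x - n + 1) (Or.inr (by linarith [hx.1])), e.2 (x - n) (Or.inl (by linarith))]
    push_cast; ring
  · rcases lt_or_ge x (n + 1) with h2 | h2
    · have hf : ⌊x⌋ = n := by
        rw [Int.floor_eq_iff]
        constructor <;> linarith
      unfold perExt
      rw [Int.fract, hf]
    · have hf : ⌊x⌋ = n + 1 := by
        rw [Int.floor_eq_iff]; push_cast
        constructor <;> linarith [hx.2]
      have hfr : Int.fract x = x - n - 1 := by rw [Int.fract, hf]; push_cast; ring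
      unfold perExt
      rw [hf, hfr, e.2 (x - n - 1) (Or.inl (by linarith [hx.2])),
        e.2 (x - n) (Or.inr (by linarith))]
      push_cast; ring

lemma perExt_eventually (e : K0) (n : ℤ) {x : ℝ} (hx : x ∈ Ioo ((n:ℝ) - 1/31) (n + 1 + 1/31)) :
    perExt e =ᶠ[𝓝 x] (fun y => (n:ℝ) + e.1 (y - n)) := by
  filter_upwards [isOpen_Ioo.mem_nhds hx] with y hy
  exact perExt_chart e n hy

lemma floor_chart (x : ℝ) : x ∈ Ioo ((⌊x⌋:ℝ) - 1/31) (⌊x⌋ + 1 + 1/31) :=
  ⟨by linarith [Int.floor_le x], by linarith [Int.lt_floor_add_one x]⟩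

lemma perExt_contDiff {k : ℕ} (e : K0) (h : ContDiff ℝ k e.1) : ContDiff ℝ k (perExt e) := by
  rw [contDiff_iff_contDiffAt]
  intro x
  have h1 : ContDiffAt ℝ k (fun y => ((⌊x⌋ : ℤ) : ℝ) + e.1 (y - ⌊x⌋)) x :=
    (contDiff_const.add (h.comp (contDiff_id.sub contDiff_const))).contDiffAt
  exact h1.congr_of_eventuallyEq (perExt_eventually e ⌊x⌋ (floor_chart x))

lemma perExt_iteratedDeriv {k : ℕ} (hk : 1 ≤ k) (e : K0) (n : ℤ) {x : ℝ}
    (hx : x ∈ Ioo ((n:ℝ) - 1/31) (n + 1 + 1/31)) :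
    iteratedDeriv k (perExt e) x = iteratedDeriv k e.1 (x - n) := by
  rw [(perExt_eventually e n hx).iteratedDeriv_eq k, iteratedDeriv_const_add (by omega)]
  have := iteratedDeriv_comp_sub_const k (e.1 : ℝ → ℝ) (n : ℝ)
  exact congrFun this x

lemma perExt_lip {k : ℕ} (hk : 1 ≤ k) (e : K0) (h : Lip univ (iteratedDeriv k e.1)) :
    Lip univ (iteratedDeriv k (perExt e)) := by
  obtain ⟨K, hK⟩ := h
  have hK0 : 0 ≤ K := by
    have := hK 0 (mem_univ _) 1 (mem_univ _)
    rw [show |(0:ℝ) - 1| = 1 by norm_num, mul_one] at this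
    exact (abs_nonneg _).trans this
  set G := iteratedDeriv k (perExt e) with hG
  have hchart : ∀ (n : ℤ) (x : ℝ), x ∈ Icc (n:ℝ) (n + 1) → G x = iteratedDeriv k e.1 (x - n) := by
    intro n x hx
    exact perExt_iteratedDeriv hk e n ⟨by linarith [hx.1], by linarith [hx.2]⟩
  have hloc : ∀ (n : ℤ) (x y : ℝ), x ∈ Icc (n:ℝ) (n + 1) → y ∈ Icc (n:ℝ) (n + 1) →
      |G x - G y| ≤ K * |x - y| := by
    intro n x y hx hy
    rw [hchart n x hx, hchart n y hy]
    have := hK (x - n) (mem_univ _) (y - n) (mem_univ _)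
    rwa [show x - n - (y - n) = x - y by ring] at this
  have hint : ∀ n : ℤ, G n = iteratedDeriv k e.1 0 := by
    intro n
    rw [hchart n n ⟨le_refl _, by linarith⟩, sub_self]
  have key : ∀ x y : ℝ, x ≤ y → |G x - G y| ≤ K * |x - y| := by
    intro x y hxy
    set n := ⌊x⌋ with hn
    have hx : x ∈ Icc (n:ℝ) (n + 1) := ⟨Int.floor_le x, (Int.lt_floor_add_one x).le⟩
    rcases le_or_gt y (n + 1) with h | h
    · exact hloc n x y hx ⟨hx.1.trans hxy, h⟩
    · set m := ⌊y⌋ with hm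
      have hy : y ∈ Icc (m:ℝ) (m + 1) := ⟨Int.floor_le y, (Int.lt_floor_add_one y).le⟩
      have hnm : n + 1 ≤ m := by
        rw [hm, Int.le_floor]; push_cast; exact h.le
      have hnm' : (n:ℝ) + 1 ≤ m := by exact_mod_cast hnm
      have e1 : G ((n:ℝ) + 1) = G m := by
        have := hint (n + 1)
        push_cast at this
        rw [this, hint m]
      have h1 := hloc n x ((n:ℝ) + 1) hx ⟨by linarith, le_refl _⟩
      have h2 := hloc m m y ⟨le_refl _, by linarith⟩ hy
      have a1 : |x - ((n:ℝ) + 1)| = (n:ℝ) + 1 - x := by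
        rw [abs_of_nonpos (by linarith [hx.2])]; ring
      have a2 : |(m:ℝ) - y| = y - m := by
        rw [abs_of_nonpos (by linarith [hy.1])]; ring
      have a3 : |x - y| = y - x := by
        rw [abs_of_nonpos (by linarith)]; ring
      rw [a1] at h1
      rw [a2] at h2
      rw [a3]
      have h3 : G x - G y = (G x - G ((n:ℝ) + 1)) + (G m - G y) := by rw [e1]; ring
      rw [h3]
      refine (abs_add_le _ _).trans ?_
      nlinarith
  refine ⟨K, fun x _ y _ => ?_⟩
  rcases le_total x y with h | h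
  · exact key x y h
  · rw [abs_sub_comm, abs_sub_comm x y]; exact key y x h

/-- the embedding into the group of lifts -/
noncomputable def toLift : K0 →* LiftG 0 where
  toFun e :=
    ⟨{ toFun := perExt e
       invFun := perExt e⁻¹
       left_inv := fun x => by rw [← perExt_mul, inv_mul_cancel, perExt_one]
       right_inv := fun x => by rw [← perExt_mul, mul_inv_cancel, perExt_one] },
      by
        have hc : ∀ e : K0, ContDiff ℝ ((0 : ℕ) : WithTop ℕ∞) (perExt e) := fun e =>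
          perExt_contDiff e (contDiff_zero.mpr e.1.continuous)
        exact ⟨perExt_strictMono e, perExt_add_one e, hc e, hc e⁻¹⟩⟩
  map_one' := by
    apply Subtype.ext
    ext x
    exact perExt_one x
  map_mul' := by
    intro e e'
    apply Subtype.ext
    ext x
    exact perExt_mul e e' x

/-- the embedding into the permutations of the circle -/
noncomputable def toS : K0 →* Equiv.Perm UnitAddCircle := (proj 0).comp toLift

lemma toS_coe (e : K0) (x : ℝ) : toS e (x : UnitAddCircle) = (perExt e x : UnitAddCircle) :=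
  proj_coe (toLift e) x

lemma isLift_perExt (e : K0) : IsLift (perExt e) (toS e) :=
  ⟨perExt_strictMono e, perExt_add_one e, toS_coe e⟩

lemma toS_injective : Function.Injective toS := by
  rw [injective_iff_map_eq_one]
  intro e he
  have h1 : proj 0 (toLift e) = proj 0 1 := by
    rw [map_one]; exact he
  obtain ⟨n, hn⟩ := eq_tr_mul h1
  rw [mul_one] at hn
  have h2 : ∀ x, perExt e x = x + n := by
    intro x
    have : (toLift e).1 x = (tr 0 n).1 x := by rw [hn]
    exact this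
  have h3 : (n:ℝ) = 0 := by
    have h4 := h2 0
    have h5 := perExt_chart e 0 (x := 0) (by norm_num)
    rw [h5] at h4
    have h6 := K0.zero e
    simp only [Int.cast_zero, sub_zero, zero_add] at h4
    rw [h6] at h4
    linarith
  apply Subtype.ext
  ext x
  show e.1 x = x
  by_cases hx : x ∈ Icc (0:ℝ) 1
  · have h5 := perExt_chart e 0 (x := x) ⟨by push_cast; linarith [hx.1], by push_cast; linarith [hx.2]⟩
    rw [h2 x, h3] at h5
    simp only [Int.cast_zero, sub_zero, zero_add, add_zero] at h5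
    exact h5.symm
  · apply e.2 x
    rw [Set.mem_Icc, not_and_or, not_le, not_le] at hx
    rcases hx with hx | hx
    · left; linarith
    · right; linarith

lemma isDiffLipS {k : ℕ} (hk : 1 ≤ k) (e : K0) (he : e.1 ∈ CLG k) : IsDiffLipS k (toS e) := by
  obtain ⟨h1, h2⟩ := mem_contDiff hk he
  obtain ⟨h3, -⟩ := mem_contDiff hk ((CLG k).inv_mem he)
  refine ⟨⟨⟨perExt e, isLift_perExt e, perExt_contDiff e h1⟩,
    ⟨perExt e⁻¹, by rw [← map_inv]; exact isLift_perExt e⁻¹, perExt_contDiff e⁻¹ h3⟩⟩,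
    perExt e, isLift_perExt e, perExt_contDiff e h1, ?_⟩
  obtain ⟨C, hC⟩ := (perExt_lip hk e h2).lipschitzOnWith
  exact ⟨C, lipschitzOnWith_univ.mp hC⟩

end Pool.Agent.H63.Crit
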