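import Pool.Agent.H63.Crit.CoreI
import Pool.Agent.H63.Crit.CoreS
import Pool.Agent.H63.Crit.Smooth

/-!
# The final assembly
-/

namespace Pool.Agent.H63.Crit

open Set Filter Topology

lemma oi_iterate (e : ℝ ≃o ℝ) (n : ℕ) (x : ℝ) : (e ^ n) x = e^[n] x := by
  induction n generalizing x with
  | zero => rfl
  | succ n ih => rw [oi_pow_succ', ih, Function.iterate_succ_apply]

/-- the chart `x ↦ (x + 9) / 31` -/
noncomputable def aff : ℝ ≃o ℝ :=
  OrderIso.mulLeft₀ (1/31) (by norm_num) * OrderIso.addRight (9:ℝ)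

lemma aff_apply (x : ℝ) : aff x = (1/31) * (x + 9) := rfl

/-- the translation by twenty -/
noncomputable def tau : ℝ ≃o ℝ := OrderIso.addRight (20:ℝ)

lemma tau_apply (x : ℝ) : tau x = x + 20 := rfl

/-- conjugation by the chart -/
noncomputable def cj (e : ℝ ≃o ℝ) (he : Sup e (-8) 21) : K0 :=
  ⟨aff * e * aff⁻¹, by
    have h := he.conj aff
    rw [aff_apply, aff_apply] at h
    exact h.mono (by norm_num) (by norm_num)⟩

/-- conjugating back -/
noncomputable def back : K0 →* (ℝ ≃o ℝ) := (MulAut.conj aff⁻¹).toMonoidHom.comp K0.subtype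

lemma back_apply (e : K0) : back e = aff⁻¹ * e.1 * aff := by
  show aff⁻¹ * e.1 * (aff⁻¹)⁻¹ = _
  rw [inv_inv]

lemma back_injective : Function.Injective back := by
  intro e e' h
  rw [back_apply, back_apply] at h
  apply Subtype.ext
  exact mul_left_cancel (mul_right_cancel h)

lemma back_cj (e : ℝ ≃o ℝ) (he : Sup e (-8) 21) : back (cj e he) = e := by
  rw [back_apply]
  show aff⁻¹ * (aff * e * aff⁻¹) * aff = e
  group

lemma cj_mem {k : ℕ} {e : ℝ ≃o ℝ} (he : Sup e (-8) 21) (h : e ∈ CLG k) : (cj e he).1 ∈ CLG k := by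
  have ha : aff ∈ CLG k := affine_mem (c := 1/31) (d := 9/31) (by norm_num)
    (fun x => by rw [aff_apply]; ring) k
  exact (CLG k).mul_mem ((CLG k).mul_mem ha h) ((CLG k).inv_mem ha)

/-- The source group. -/
theorem source (k : ℕ) (hk : 1 ≤ k) : ∃ (h h₂ T u s t : K0) (l N : ℕ),
    (h.1 ∈ CLG k ∧ h₂.1 ∈ CLG k ∧ T.1 ∈ CLG k ∧ u.1 ∈ CLG k ∧ s.1 ∈ CLG k ∧ t.1 ∈ CLG k) ∧
    (∀ n ≥ 1, Rel (h ^ n) (h₂ ^ n) (T ^ n) (u ^ n) (2 ^ n) k l N) ∧
    (∀ n ≥ 1, u ^ n * (((h ^ n) ^ l)⁻¹ * T ^ n * (h ^ n) ^ l) ≠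
      (((h ^ n) ^ l)⁻¹ * T ^ n * (h ^ n) ^ l) * u ^ n) ∧
    s * t * s⁻¹ = t ^ 2 ∧ t ≠ 1 ∧ Commute h t ∧ Commute h₂ t ∧ Commute T t ∧ Commute u t := by
  obtain ⟨a, b, ha1, ha2, hb1, hb2, a_id, b_id, a_two, ab, b_lt, N, hN⟩ :=
    Pool.Agent.H61.BSPair.exists_BS_pair
  obtain ⟨u, hu1, hu2, hu3, u_pos, u_neg, u_lt, u_two⟩ :=
    Pool.Agent.H33.LipElem.exists_u k hk
  have D : Data a b u k N := by
    refine ⟨a_id, b_id, a_two, ab, b_lt, ?_, u_pos, u_neg, u_lt, ?_⟩
    · rw [oi_iterate]; exact hN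
    · intro x h1 h2
      rw [oi_iterate]; exact u_two x h1 h2
  obtain ⟨l, hl⟩ := D.rel
  -- smoothness
  have ma : a ∈ CLG k := smooth_mem (lo := -1) (hi := 1) hk ha1 ha2 (by
    intro x hx; apply a_id
    rcases hx with hx | hx
    · exact le_abs.mpr (Or.inr (by linarith))
    · exact le_abs.mpr (Or.inl hx.le))
  have mb : b ∈ CLG k := smooth_mem (lo := -1) (hi := 1) hk hb1 hb2 (by
    intro x hx; apply b_id
    rcases hx with hx | hx
    · exact le_abs.mpr (Or.inr (by linarith))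
    · exact le_abs.mpr (Or.inl hx.le))
  have mu : u ∈ CLG k := lip_mem (lo := -8) (hi := 0) hk hu1 hu2 hu3 (by
    intro x hx
    rcases hx with hx | hx
    · exact u_neg x hx.le
    · exact u_pos x hx.le)
  have mscl : scl ∈ CLG k := affine_mem (c := 8) (d := 0) (by norm_num)
    (fun x => by rw [scl_apply]; ring) k
  have mtau : tau ∈ CLG k := affine_mem (c := 1) (d := 20) (by norm_num)
    (fun x => by rw [tau_apply]; ring) k
  have mh : scl * a * scl⁻¹ ∈ CLG k :=
    (CLG k).mul_mem ((CLG k).mul_mem mscl ma) ((CLG k).inv_mem mscl)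
  have ms : tau * a * tau⁻¹ ∈ CLG k :=
    (CLG k).mul_mem ((CLG k).mul_mem mtau ma) ((CLG k).inv_mem mtau)
  have mt : tau * b * tau⁻¹ ∈ CLG k :=
    (CLG k).mul_mem ((CLG k).mul_mem mtau mb) ((CLG k).inv_mem mtau)
  -- supports
  have sa : Sup a (-1) 1 := D.supA
  have sb : Sup b (-1) 1 := D.supB
  have su : Sup u (-8) 0 := by
    intro x hx
    rcases hx with hx | hx
    · exact u_neg x hx
    · exact u_pos x hx
  have sh : Sup (scl * a * scl⁻¹) (-8) 8 := by
    have := sa.conj scl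
    rw [scl_apply, scl_apply] at this
    exact this.mono (by norm_num) (by norm_num)
  have ss : Sup (tau * a * tau⁻¹) 19 21 := by
    have := sa.conj tau
    rw [tau_apply, tau_apply] at this
    exact this.mono (by norm_num) (by norm_num)
  have st : Sup (tau * b * tau⁻¹) 19 21 := by
    have := sb.conj tau
    rw [tau_apply, tau_apply] at this
    exact this.mono (by norm_num) (by norm_num)
  have sa' : Sup a (-8) 21 := sa.mono (by norm_num) (by norm_num)
  have sb' : Sup b (-8) 21 := sb.mono (by norm_num) (by norm_num)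
  have su' : Sup u (-8) 21 := su.mono (by norm_num) (by norm_num)
  have sh' : Sup (scl * a * scl⁻¹) (-8) 21 := sh.mono (by norm_num) (by norm_num)
  have ss' : Sup (tau * a * tau⁻¹) (-8) 21 := ss.mono (by norm_num) (by norm_num)
  have st' : Sup (tau * b * tau⁻¹) (-8) 21 := st.mono (by norm_num) (by norm_num)
  have hab : a * b * a⁻¹ = b ^ 2 := by
    rw [mul_inv_eq_iff_eq_mul]
    ext x
    rw [pow_two]
    exact ab x
  have com : ∀ {e f : ℝ ≃o ℝ} (he : Sup e (-8) 21) (hf : Sup f (-8) 21), Commute e f →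
      Commute (cj e he) (cj f hf) := by
    intro e f he hf h
    apply back_injective
    rw [map_mul, map_mul, back_cj, back_cj]
    exact h
  refine ⟨cj _ sh', cj _ sa', cj _ sb', cj _ su', cj _ ss', cj _ st', l, N,
    ⟨cj_mem _ mh, cj_mem _ ma, cj_mem _ mb, cj_mem _ mu, cj_mem _ ms, cj_mem _ mt⟩,
    ?_, ?_, ?_, ?_, ?_, ?_, ?_, ?_⟩
  · intro n hn
    apply Rel.of_injective back back_injective
    rw [map_pow, map_pow, map_pow, map_pow, back_cj, back_cj, back_cj, back_cj]
    exact (hl n hn).1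
  · intro n hn hc
    apply (hl n hn).2
    have := congrArg back hc
    simpa only [map_mul, map_pow, map_inv, back_cj] using this
  · apply back_injective
    simp only [map_mul, map_pow, map_inv, back_cj]
    have e1 : tau * a * tau⁻¹ * (tau * b * tau⁻¹) * (tau * a * tau⁻¹)⁻¹ =
        tau * (a * b * a⁻¹) * tau⁻¹ := by group
    have e2 : (tau * b * tau⁻¹) ^ 2 = tau * b ^ 2 * tau⁻¹ := by
      rw [pow_two, pow_two]; group
    rw [e1, e2, hab]
  · intro h1
    have h2 := congrArg back h1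
    rw [back_cj, map_one] at h2
    have h3 : b = 1 := by
      have : b = tau⁻¹ * (tau * b * tau⁻¹) * tau := by group
      rw [this, h2]; group
    have h4 := b_lt 0 (by norm_num)
    rw [h3] at h4
    exact absurd h4 (lt_irrefl _)
  · exact com _ _ (comm_of_disjoint sh st (by norm_num))
  · exact com _ _ (comm_of_disjoint sa st (by norm_num))
  · exact com _ _ (comm_of_disjoint sb st (by norm_num))
  · exact com _ _ (comm_of_disjoint su st (by norm_num))

theorem final (k : ℕ) (hk : 1 ≤ k) :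
    (∃ G : Subgroup (Equiv.Perm (Icc (0:ℝ) 1)), G.FG ∧ (∀ g ∈ G, IsDiffLipI k g) ∧
      ∀ ρ : G →* DiffI (k + 1), ¬ Function.Injective ρ) ∧
    (∃ G : Subgroup (Equiv.Perm UnitAddCircle), G.FG ∧ (∀ g ∈ G, IsDiffLipS k g) ∧
      ∀ ρ : G →* DiffS (k + 1), ¬ Function.Injective ρ) := by
  obtain ⟨h, h₂, T, u, s, t, l, N, ⟨mh, mh₂, mT, mu, ms, mt⟩, R, hne, hst, ht, c1, c2, c3, c4⟩ :=
    source k hk
  let S : Set K0 := {h, h₂, T, u, s, t}
  have hS : S.Finite := Set.toFinite _
  let G0 : Subgroup K0 := Subgroup.closure S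
  have hG0 : ∀ e ∈ G0, e.1 ∈ CLG k := by
    have h1 : G0 ≤ (CLG k).comap K0.subtype := by
      rw [Subgroup.closure_le]
      rintro e (rfl | rfl | rfl | rfl | rfl | rfl)
      · exact mh
      · exact mh₂
      · exact mT
      · exact mu
      · exact ms
      · exact mt
    intro e he
    exact h1 he
  -- the elements of the group
  let h' : G0 := ⟨h, Subgroup.subset_closure (by simp [S])⟩
  let h₂' : G0 := ⟨h₂, Subgroup.subset_closure (by simp [S])⟩
  let T' : G0 := ⟨T, Subgroup.subset_closure (by simp [S])⟩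
  let u' : G0 := ⟨u, Subgroup.subset_closure (by simp [S])⟩
  let s' : G0 := ⟨s, Subgroup.subset_closure (by simp [S])⟩
  let t' : G0 := ⟨t, Subgroup.subset_closure (by simp [S])⟩
  have R' : ∀ n ≥ 1, Rel (h' ^ n) (h₂' ^ n) (T' ^ n) (u' ^ n) (2 ^ n) k l N := by
    intro n hn
    apply Rel.of_injective G0.subtype G0.subtype_injective
    exact R n hn
  have hne' : ∀ n ≥ 1, u' ^ n * (((h' ^ n) ^ l)⁻¹ * T' ^ n * (h' ^ n) ^ l) ≠
      (((h' ^ n) ^ l)⁻¹ * T' ^ n * (h' ^ n) ^ l) * u' ^ n := by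
    intro n hn hc
    exact hne n hn (congrArg Subtype.val hc)
  have hst' : s' * t' * s'⁻¹ = t' ^ 2 := Subtype.ext hst
  have ht' : t' ≠ 1 := fun hc => ht (congrArg Subtype.val hc)
  have c1' : Commute h' t' := Subtype.ext c1
  have c2' : Commute h₂' t' := Subtype.ext c2
  have c3' : Commute T' t' := Subtype.ext c3
  have c4' : Commute u' t' := Subtype.ext c4
  constructor
  · refine ⟨G0.map toI, ?_, ?_, ?_⟩
    · rw [Subgroup.fg_iff]
      exact ⟨toI '' S, (MonoidHom.map_closure toI S).symm, hS.image _⟩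
    · rintro _ ⟨e, he, rfl⟩
      exact isDiffLipI hk e (hG0 e he)
    · intro ρ hρ
      have h1 := R' 1 (le_refl _)
      have h2 := hne' 1 (le_refl _)
      simp only [pow_one] at h1 h2
      refine core_I (A := G0) (le_refl 2) hk h1 h2 (ρ.comp (toI.subgroupMap G0)) ?_
      rw [MonoidHom.coe_comp]
      apply hρ.comp
      intro x y hxy
      exact Subtype.ext (toI_injective (congrArg Subtype.val hxy))
  · refine ⟨G0.map toS, ?_, ?_, ?_⟩
    · rw [Subgroup.fg_iff]
      exact ⟨toS '' S, (MonoidHom.map_closure toS S).symm, hS.image _⟩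
    · rintro _ ⟨e, he, rfl⟩
      exact isDiffLipS hk e (hG0 e he)
    · intro ρ hρ
      refine core_S (A := G0) hk R' hne' hst' ht' c1' c2' c3' c4' (ρ.comp (toS.subgroupMap G0)) ?_
      rw [MonoidHom.coe_comp]
      apply hρ.comp
      intro x y hxy
      exact Subtype.ext (toS_injective (congrArg Subtype.val hxy))

end Pool.Agent.H63.Crit
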