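import Pool.Agent.H63.Crit.Act

/-!
# Kopell's lemma and centralisers of Baumslag-Solitar pairs
-/

namespace Pool.Agent.H63.Crit

open Set Filter Topology

namespace Act

variable {Γ : Type*} [Group Γ] {I : Set ℝ} (A : Act Γ I)

/-- the basic estimate behind Kopell's lemma -/
lemma kopell_bound {F G : Γ} (hc : Commute F G) {z x₀ : ℝ} (hz : z ∈ I) (hx₀ : x₀ ∈ I)
    (hzx : z < x₀) (hFz : A.f F z = z) (hF : ∀ x ∈ Ioc z x₀, A.f F x < x) {K : ℝ} (hK0 : 0 ≤ K)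
    (hK : ∀ x ∈ I, ∀ y ∈ I, |Real.log (A.d F x) - Real.log (A.d F y)| ≤ K * |x - y|)
    (hd : A.d G z = 1) {x : ℝ} (hx : x ∈ Icc (A.f F x₀) x₀)
    (hGx : A.f G x ∈ Icc (A.f F x₀) x₀) : A.d G x ≤ Real.exp (K * (x₀ - z)) := by
  have hx1 : A.f F x₀ ∈ I := A.f_mem _ _ hx₀
  have hxI : x ∈ I := A.mem_of_mem_Icc hx1 hx₀ hx
  have hzFx : z < A.f F x₀ := by
    have := (A.lt_iff F hz hx₀).mpr hzx
    rwa [hFz] at this
  have hlim0 := A.tendsto_left F hz hx₀ hzx hFz hF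
  have hfix : ∀ n : ℕ, A.f (F ^ n) z = z := fun n => A.fix_pow F n hz hFz
  have hlim : Tendsto (fun n : ℕ => A.f (F ^ n) x) atTop (𝓝 z) := by
    apply tendsto_of_tendsto_of_tendsto_of_le_of_le tendsto_const_nhds hlim0
    · intro n
      have := (A.le_iff (F ^ n) hz hxI).mpr (hzFx.le.trans hx.1)
      rwa [hfix] at this
    · intro n
      exact (A.le_iff (F ^ n) hxI hx₀).mpr hx.2
  have hdlim : Tendsto (fun n : ℕ => A.d G (A.f (F ^ n) x) * Real.exp (K * (x₀ - z))) atTop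
      (𝓝 (1 * Real.exp (K * (x₀ - z)))) := by
    apply Tendsto.mul_const
    rw [← hd]
    apply ((A.d_cont G) z hz).tendsto.comp
    rw [tendsto_nhdsWithin_iff]
    exact ⟨hlim, Eventually.of_forall (fun n => A.f_mem _ _ hxI)⟩
  rw [one_mul] at hdlim
  apply ge_of_tendsto hdlim
  apply Eventually.of_forall
  intro n
  have h1 : A.d (F ^ n) (A.f G x) * A.d G x = A.d G (A.f (F ^ n) x) * A.d (F ^ n) x := by
    rw [← A.d_mul _ _ x hxI, ← A.d_mul _ _ x hxI, (hc.pow_left n).eq]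
  have h2 : |Real.log (A.d (F ^ n) x) - Real.log (A.d (F ^ n) (A.f G x))| ≤ K * (x₀ - z) := by
    refine le_trans (A.dist_pow F hK hxI (A.f_mem _ _ hxI) n) ?_
    apply mul_le_mul_of_nonneg_left _ hK0
    refine le_trans (A.sum_domain F hx₀ (hF x₀ ⟨hzx, le_refl _⟩).le hx hGx n) ?_
    have := (A.le_iff (F ^ n) hz hx₀).mpr hzx.le
    rw [hfix] at this
    linarith
  have hp1 := A.d_pos (F ^ n) x hxI
  have hp2 := A.d_pos (F ^ n) (A.f G x) (A.f_mem _ _ hxI)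
  have hp3 := A.d_pos G (A.f (F ^ n) x) (A.f_mem _ _ hxI)
  have h3 := le_exp_mul hp1 hp2 h2
  have h4 : A.d (F ^ n) (A.f G x) * A.d G x ≤
      A.d (F ^ n) (A.f G x) * (A.d G (A.f (F ^ n) x) * Real.exp (K * (x₀ - z))) := by
    rw [h1]
    calc A.d G (A.f (F ^ n) x) * A.d (F ^ n) x ≤
        A.d G (A.f (F ^ n) x) * (Real.exp (K * (x₀ - z)) * A.d (F ^ n) (A.f G x)) :=
          mul_le_mul_of_nonneg_left h3 hp3.le
      _ = _ := by ring
  exact le_of_mul_le_mul_left h4 hp2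

/-- auxiliary form of Kopell's lemma: no point is moved to the right -/
lemma kopell_aux {F G : Γ} (hc : Commute F G) {z w : ℝ} (hz : z ∈ I) (hw : w ∈ I)
    (hFz : A.f F z = z) (hF : ∀ x ∈ Ioo z w, A.f F x < x) {x₁ : ℝ} (hx₁ : x₁ ∈ Ioo z w)
    (hG : A.f G x₁ = x₁) {y : ℝ} (hy : y ∈ Ioo z w) (hyx : y < x₁) (hgy : y < A.f G y) :
    False := by
  have hx₁I : x₁ ∈ I := A.mem_of_mem_Ioo hz hw hx₁
  have hyI : y ∈ I := A.mem_of_mem_Ioo hz hw hy
  have hF' : ∀ x ∈ Ioc z x₁, A.f F x < x := fun x hx => hF x ⟨hx.1, lt_of_le_of_lt hx.2 hx₁.2⟩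
  have hlim := A.tendsto_left F hz hx₁I hx₁.1 hFz hF'
  have hGfix : ∀ n : ℕ, A.f G (A.f (F ^ n) x₁) = A.f (F ^ n) x₁ := by
    intro n
    rw [A.comm_f (hc.symm.pow_right n) hx₁I, hG]
  have hmem : ∀ n : ℕ, A.f (F ^ n) x₁ ∈ Ioc z x₁ := by
    intro n
    constructor
    · have := (A.lt_iff (F ^ n) hz hx₁I).mpr hx₁.1
      rwa [A.fix_pow F n hz hFz] at this
    · exact A.pow_le F n hx₁I (hF x₁ hx₁).le
  -- derivative of `G` at `z`
  have hdz : A.d G z = 1 := by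
    have hξ : ∀ n : ℕ, ∃ ξ ∈ Ioo (A.f (F ^ (n + 1)) x₁) (A.f (F ^ n) x₁), A.d G ξ = 1 := by
      intro n
      apply A.exists_d_eq_one G (A.f_mem _ _ hx₁I) (A.f_mem _ _ hx₁I) _ (hGfix _) (hGfix _)
      rw [A.f_pow_succ F n hx₁I]
      exact hF' _ (hmem n)
    choose ξ hξ1 hξ2 using hξ
    have hξlim : Tendsto ξ atTop (𝓝 z) := by
      apply tendsto_of_tendsto_of_tendsto_of_le_of_le tendsto_const_nhds hlim
      · intro n; exact ((hmem (n+1)).1.trans (hξ1 n).1).le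
      · intro n; exact (hξ1 n).2.le
    have h1 : Tendsto (fun n => A.d G (ξ n)) atTop (𝓝 (A.d G z)) := by
      apply ((A.d_cont G) z hz).tendsto.comp
      rw [tendsto_nhdsWithin_iff]
      refine ⟨hξlim, Eventually.of_forall (fun n => ?_)⟩
      exact A.mem_of_mem_Ioo (A.f_mem _ _ hx₁I) (A.f_mem _ _ hx₁I) (hξ1 n)
    have h2 : (fun n => A.d G (ξ n)) = fun _ => (1:ℝ) := funext hξ2
    rw [h2] at h1
    exact tendsto_nhds_unique h1 tendsto_const_nhds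
  have hGz : A.f G z = z := by
    have h1 : Tendsto (fun n : ℕ => A.f G (A.f (F ^ n) x₁)) atTop (𝓝 (A.f G z)) := by
      apply ((A.cont G) z hz).tendsto.comp
      rw [tendsto_nhdsWithin_iff]
      exact ⟨hlim, Eventually.of_forall (fun n => A.f_mem _ _ hx₁I)⟩
    have h2 : (fun n : ℕ => A.f G (A.f (F ^ n) x₁)) = fun n : ℕ => A.f (F ^ n) x₁ := funext hGfix
    rw [h2] at h1
    exact tendsto_nhds_unique h1 hlim
  -- the fundamental domain containing `y`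
  have hex : ∃ n : ℕ, A.f (F ^ (n + 1)) x₁ ≤ y := by
    have h1 := (hlim.comp (tendsto_add_atTop_nat 1)).eventually (gt_mem_nhds hy.1)
    obtain ⟨n, hn⟩ := h1.exists
    exact ⟨n, le_of_lt hn⟩
  classical
  set n := Nat.find hex with hn
  have hn1 : A.f (F ^ (n + 1)) x₁ ≤ y := Nat.find_spec hex
  have hn2 : y < A.f (F ^ n) x₁ := by
    rcases Nat.eq_zero_or_pos n with h | h
    · rw [h, pow_zero, A.f_one x₁ hx₁I]; exact hyx
    · have := Nat.find_min hex (m := n - 1) (by omega)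
      rw [show n - 1 + 1 = n by omega] at this
      exact not_le.mp this
  set x₀ := A.f (F ^ n) x₁ with hx₀
  have hx₀I : x₀ ∈ I := A.f_mem _ _ hx₁I
  have hFx₀ : A.f F x₀ = A.f (F ^ (n + 1)) x₁ := (A.f_pow_succ F n hx₁I).symm
  have hFx₀I : A.f F x₀ ∈ I := A.f_mem _ _ hx₀I
  have hGx₀ : A.f G x₀ = x₀ := hGfix n
  have hGFx₀ : A.f G (A.f F x₀) = A.f F x₀ := by rw [hFx₀]; exact hGfix (n + 1)
  have hzx₀ : z < x₀ := (hmem n).1
  have hF'' : ∀ x ∈ Ioc z x₀, A.f F x < x := fun x hx => hF' x ⟨hx.1, hx.2.trans (hmem n).2⟩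
  obtain ⟨α, hα1, hα2, hα3⟩ := A.exists_left G hFx₀I hyI (by rw [hFx₀]; exact hn1) hGFx₀ hgy
  have hαI : α ∈ I := A.mem_of_mem_Icc hFx₀I hyI ⟨hα1.1, hα1.2.le⟩
  obtain ⟨K, hK0, hK⟩ := A.loglip F
  refine A.unbounded G hαI hyI hα1.2 hα2 hα3 (E := Real.exp (K * (x₀ - z))) (n := fun j => j)
    tendsto_id ?_
  intro j x hx
  have hxI : x ∈ I := A.mem_of_mem_Ioo hαI hyI hx
  have hdj : ∀ j : ℕ, A.d (G ^ j) z = 1 := by
    intro j
    induction j with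
    | zero => rw [pow_zero, A.d_one hz]
    | succ j ih => rw [pow_succ, A.d_mul _ _ z hz, hGz, ih, hdz, one_mul]
  apply A.kopell_bound (hc.pow_right j) hz hx₀I hzx₀ hFz hF'' hK0 hK (hdj j)
  · exact ⟨hα1.1.trans hx.1.le, hx.2.le.trans hn2.le⟩
  · constructor
    · have := (A.le_iff (G ^ j) hFx₀I hxI).mpr (hα1.1.trans hx.1.le)
      rwa [A.fix_pow G j hFx₀I hGFx₀] at this
    · have := (A.le_iff (G ^ j) hxI hx₀I).mpr (hx.2.le.trans hn2.le)
      rwa [A.fix_pow G j hx₀I hGx₀] at this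

/-- **Kopell's lemma.** -/
theorem kopell {F G : Γ} (hc : Commute F G) {z w : ℝ} (hz : z ∈ I) (hw : w ∈ I)
    (hFz : A.f F z = z) (hFw : A.f F w = w) (hF : ∀ x ∈ Ioo z w, A.f F x < x) {x₁ : ℝ}
    (hx₁ : x₁ ∈ Ioo z w)
    (hG : A.f G x₁ = x₁) : ∀ x ∈ Ioo z w, A.f G x = x := by
  have hx₁I : x₁ ∈ I := A.mem_of_mem_Ioo hz hw hx₁
  have hGi : A.f G⁻¹ x₁ = x₁ := A.fix_inv G hx₁I hG
  intro x hx
  have hxI : x ∈ I := A.mem_of_mem_Ioo hz hw hx
  -- move `x` to the left of `x₁`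
  have hlim := A.tendsto_left F hz hxI hx.1 hFz (fun y hy => hF y ⟨hy.1, lt_of_le_of_lt hy.2 hx.2⟩)
  obtain ⟨n, hn⟩ := (hlim.eventually (gt_mem_nhds hx₁.1)).exists
  set y := A.f (F ^ n) x with hy
  have hyI : y ∈ I := A.f_mem _ _ hxI
  have hyz : z < y := by
    have := (A.lt_iff (F ^ n) hz hxI).mpr hx.1
    rwa [A.fix_pow F n hz hFz] at this
  have hyw : y < w := by
    have := (A.lt_iff (F ^ n) hxI hw).mpr hx.2
    rwa [A.fix_pow F n hw hFw] at this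
  have hGy : A.f G y = y := by
    rcases lt_trichotomy (A.f G y) y with h | h | h
    · exact (A.kopell_aux (G := G⁻¹) (hc.inv_right) hz hw hFz hF hx₁ hGi ⟨hyz, hyw⟩ hn
        (A.lt_inv G hyI h)).elim
    · exact h
    · exact (A.kopell_aux hc hz hw hFz hF hx₁ hG ⟨hyz, hyw⟩ hn h).elim
  rw [hy, A.comm_f (hc.symm.pow_right n) hxI] at hGy
  exact (A.f_mono (F ^ n)).injOn (A.f_mem _ _ hxI) hxI hGy

end Act

end Pool.Agent.H63.Crit
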