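import Pool.Agent.H63.Crit.BSDyn

/-!
# Flatness and the scaling argument
-/

namespace Pool.Agent.H63.Crit

open Set Filter Topology Asymptotics

/-- a function of class `C^n` vanishing near points accumulating at `q` is `n`-flat at `q` -/
lemma flat_isLittleO {s : Set ℝ} (hs : IsOpen s) {q : ℝ} (hq : q ∈ s) {p : ℕ → ℝ}
    (hp : Tendsto p atTop (𝓝 q)) (n : ℕ) : ∀ f : ℝ → ℝ, ContDiffOn ℝ n f s →
    (∀ j, f =ᶠ[𝓝 (p j)] 0) → f =o[𝓝 q] (fun x => (x - q) ^ n) := by
  induction n with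
  | zero =>
    intro f hf h0
    simp only [pow_zero]
    rw [isLittleO_one_iff]
    have hc : ContinuousAt f q := (hf.continuousOn q hq).continuousAt (hs.mem_nhds hq)
    have h1 : Tendsto (fun j => f (p j)) atTop (𝓝 (f q)) := hc.tendsto.comp hp
    have h2 : (fun j => f (p j)) = fun _ => (0:ℝ) := funext (fun j => (h0 j).self_of_nhds)
    rw [h2] at h1
    have h3 : f q = 0 := tendsto_nhds_unique h1 tendsto_const_nhds
    rw [← h3]; exact hc
  | succ n ih =>
    intro f hf h0
    have hf' : ContDiffOn ℝ ((n : WithTop ℕ∞) + 1) f s := by exact_mod_cast hf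
    rw [contDiffOn_succ_iff_deriv_of_isOpen hs] at hf'
    have h0' : ∀ j, deriv f =ᶠ[𝓝 (p j)] 0 := by
      intro j
      have := (h0 j).deriv
      refine this.trans ?_
      apply Eventually.of_forall
      intro x
      simp
    have hd := ih (deriv f) hf'.2.2 h0'
    have hc : ContinuousAt f q := (hf.continuousOn q hq).continuousAt (hs.mem_nhds hq)
    have hfq : f q = 0 := by
      have h1 : Tendsto (fun j => f (p j)) atTop (𝓝 (f q)) := hc.tendsto.comp hp
      have h2 : (fun j => f (p j)) = fun _ => (0:ℝ) := funext (fun j => (h0 j).self_of_nhds)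
      rw [h2] at h1
      exact tendsto_nhds_unique h1 tendsto_const_nhds
    rw [isLittleO_iff] at hd ⊢
    intro ε hε
    have h1 := hd hε
    have h2 : ∀ᶠ x in 𝓝 q, x ∈ s := hs.mem_nhds hq
    obtain ⟨δ, hδ, hball⟩ := Metric.eventually_nhds_iff_ball.mp (h1.and h2)
    rw [Metric.eventually_nhds_iff_ball]
    refine ⟨δ, hδ, ?_⟩
    intro x hx
    have hxq : |x - q| < δ := by rwa [Metric.mem_ball, Real.dist_eq] at hx
    have hseg : ∀ y ∈ uIcc q x, |y - q| ≤ |x - q| := by
      intro y hy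
      rcases le_total q x with h | h
      · rw [uIcc_of_le h] at hy
        rw [abs_of_nonneg (by linarith [hy.1]), abs_of_nonneg (by linarith)]
        linarith [hy.2]
      · rw [uIcc_of_ge h] at hy
        rw [abs_of_nonpos (by linarith [hy.2]), abs_of_nonpos (by linarith)]
        linarith [hy.1]
    have hseg' : ∀ y ∈ uIcc q x, y ∈ Metric.ball q δ := by
      intro y hy
      rw [Metric.mem_ball, Real.dist_eq]
      exact lt_of_le_of_lt (hseg y hy) hxq
    have hbound : ∀ y ∈ uIcc q x, ‖deriv f y‖ ≤ ε * |x - q| ^ n := by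
      intro y hy
      refine le_trans (hball y (hseg' y hy)).1 ?_
      rw [norm_pow, Real.norm_eq_abs]
      exact mul_le_mul_of_nonneg_left (pow_le_pow_left₀ (abs_nonneg _) (hseg y hy) n) hε.le
    have hmv := Convex.norm_image_sub_le_of_norm_deriv_le (f := f) (s := uIcc q x)
      (C := ε * |x - q| ^ n)
      (fun y hy => hf'.1.differentiableAt (hs.mem_nhds (hball y (hseg' y hy)).2)) hbound
      (convex_uIcc q x) left_mem_uIcc right_mem_uIcc
    rw [hfq, sub_zero, Real.norm_eq_abs (x - q)] at hmv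
    rw [norm_pow, Real.norm_eq_abs (x - q)]
    calc ‖f x‖ ≤ ε * |x - q| ^ n * |x - q| := hmv
      _ = ε * |x - q| ^ (n + 1) := by ring

namespace Act

variable {Γ : Type*} [Group Γ] {a b : ℝ} (A : Act Γ (Icc a b))

/-- the scaling argument on the left of the fixed point -/
theorem scale_left {h u : Γ} {m k : ℕ} (hm : 2 ≤ m) {q x₁ : ℝ}
    (hx₁ : x₁ ∈ Icc a b) (hq : q ∈ Icc a b) (hhq : A.f h q = q) (huq : A.f u q = q)
    (hcontr : ∀ x ∈ Ico x₁ q, x < A.f h⁻¹ x)
    (rate : ∀ x ∈ Ico x₁ q, ∃ C, ∀ n : ℕ, |A.f (h ^ n)⁻¹ x - q| * (m:ℝ) ^ n ≤ C)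
    (rel : ∀ y ∈ Ico x₁ q, A.f (u ^ (m ^ k)) (A.f h⁻¹ y) = A.f h⁻¹ (A.f u y))
    (flat : (fun x => A.f u x - x) =o[𝓝 q] (fun x => (x - q) ^ (k + 1))) :
    ∀ x ∈ Ico x₁ q, A.f u x ≤ x := by
  intro x hx
  by_contra hcon
  push Not at hcon
  have hIco : ∀ y ∈ Ico x₁ q, y ∈ Icc a b := fun y hy =>
    A.mem_of_mem_Icc hx₁ hq ⟨hy.1, hy.2.le⟩
  have hxI := hIco x hx
  set M := m ^ k with hM
  have hm0 : 0 < m := by omega
  have hM1 : 1 ≤ M := Nat.one_le_pow _ _ hm0
  have hihq : A.f h⁻¹ q = q := A.fix_inv h hq hhq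
  have hinv : ∀ y ∈ Ico x₁ q, A.f h⁻¹ y ∈ Ico x₁ q := by
    intro y hy
    refine ⟨hy.1.trans (hcontr y hy).le, ?_⟩
    have := (A.lt_iff h⁻¹ (hIco y hy) hq).mpr hy.2
    rwa [hihq] at this
  set y : ℕ → ℝ := fun n => A.f (h ^ n)⁻¹ x with hy
  have hy0 : y 0 = x := by
    show A.f (h ^ 0)⁻¹ x = x
    rw [pow_zero, inv_one, A.f_one x hxI]
  have hysucc : ∀ n, y (n + 1) = A.f h⁻¹ (y n) := fun n => A.inv_pow_succ' h n hxI
  have hymem : ∀ n, y n ∈ Ico x₁ q := by
    intro n
    induction n with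
    | zero => rw [hy0]; exact hx
    | succ n ih => rw [hysucc]; exact hinv _ ih
  have hyI : ∀ n, y n ∈ Icc a b := fun n => hIco _ (hymem n)
  -- iterates of `u` starting in `[x₁, q)`
  have hupow : ∀ v ∈ Ico x₁ q, v < A.f u v → ∀ j : ℕ, A.f (u ^ j) v ∈ Ico v q := by
    intro v hv huv j
    refine ⟨A.le_pow u j (hIco v hv) huv.le, ?_⟩
    have := (A.lt_iff (u ^ j) (hIco v hv) hq).mpr hv.2
    rwa [A.fix_pow u j hq huq] at this
  have hrelj : ∀ v ∈ Ico x₁ q, v < A.f u v → ∀ j : ℕ,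
      A.f (u ^ (M * j)) (A.f h⁻¹ v) = A.f h⁻¹ (A.f (u ^ j) v) := by
    intro v hv huv j
    have hvI := hIco v hv
    induction j with
    | zero => rw [mul_zero, pow_zero, A.f_one _ (A.f_mem _ _ hvI), A.f_one _ hvI]
    | succ j ih =>
      have h1 := hupow v hv huv j
      have e1 : u ^ (M * (j + 1)) = u ^ M * u ^ (M * j) := by
        rw [← pow_add]; congr 1; ring
      rw [e1, A.f_mul _ _ _ (A.f_mem _ _ hvI), ih,
        rel _ ⟨hv.1.trans h1.1, h1.2⟩, A.f_pow_succ u j hvI]
  have hP : ∀ n : ℕ, y n < A.f u (y n) ∧ A.f (u ^ (M ^ n)) (y n) = A.f (h ^ n)⁻¹ (A.f u x) := by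
    intro n
    induction n with
    | zero =>
      rw [hy0, pow_zero, pow_one, pow_zero, inv_one, A.f_one _ (A.f_mem _ _ hxI)]
      exact ⟨hcon, rfl⟩
    | succ n ih =>
      constructor
      · by_contra hle
        push Not at hle
        have h1 := A.pow_le u M (hyI (n + 1)) hle
        rw [hysucc, rel _ (hymem n)] at h1
        have h2 := (A.lt_iff h⁻¹ (hyI n) (A.f_mem u _ (hyI n))).mpr ih.1
        linarith
      · have h1 := hrelj (y n) (hymem n) ih.1 (M ^ n)
        rw [hysucc, pow_succ', h1, ih.2, A.inv_pow_succ' h n (A.f_mem _ _ hxI)]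
  -- rates
  obtain ⟨C, hC⟩ := rate x hx
  have hD : ∀ n, (q - y n) * (m:ℝ) ^ n ≤ C := by
    intro n
    have := hC n
    rwa [abs_of_nonpos (by linarith [(hymem n).2]), neg_sub] at this
  have hDpos : ∀ n, 0 < q - y n := fun n => by linarith [(hymem n).2]
  have hC0 : 0 ≤ C := by
    have := hD 0
    rw [pow_zero, mul_one] at this
    linarith [hDpos 0]
  have hmR : (2:ℝ) ≤ m := by exact_mod_cast hm
  have hmpos : (0:ℝ) < m := by linarith
  obtain ⟨K, hK0, hK⟩ := A.loglip h
  -- distortion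
  have hsum : ∀ n, ∑ i ∈ Finset.range n, (q - A.f (h ^ i) (y n)) ≤ C := by
    intro n
    have e1 : ∀ i ∈ Finset.range n, q - A.f (h ^ i) (y n) ≤ C * (1/2) ^ (n - i) := by
      intro i hi
      rw [Finset.mem_range] at hi
      have e2 : A.f (h ^ i) (y n) = y (n - i) := by
        show A.f (h ^ i) (A.f (h ^ n)⁻¹ x) = A.f (h ^ (n - i))⁻¹ x
        rw [← A.f_mul _ _ x hxI]; congr 1
        obtain ⟨r, rfl⟩ : ∃ r, n = i + r := ⟨n - i, by omega⟩
        rw [show i + r - i = r by omega, pow_add, mul_inv_rev]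
        have hcomm : Commute ((h ^ r)⁻¹) ((h ^ i)⁻¹) :=
          ((Commute.pow_pow_self h r i).inv_left).inv_right
        rw [hcomm.eq]; group
      rw [e2]
      have h1 := hD (n - i)
      have h2 : (q - y (n - i)) ≤ C / (m:ℝ) ^ (n - i) := by
        rw [le_div_iff₀ (by positivity)]; exact h1
      refine h2.trans ?_
      rw [div_eq_mul_inv, one_div, inv_pow]
      apply mul_le_mul_of_nonneg_left _ hC0
      apply inv_anti₀ (by positivity)
      exact pow_le_pow_left₀ (by norm_num) hmR _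
    refine (Finset.sum_le_sum e1).trans ?_
    rw [← Finset.mul_sum]
    have e3 : ∀ n : ℕ, ∑ i ∈ Finset.range n, ((1:ℝ)/2) ^ (n - i) = 1 - (1/2) ^ n := by
      intro n
      induction n with
      | zero => simp
      | succ n ih =>
        rw [Finset.sum_range_succ']
        have : ∑ i ∈ Finset.range n, ((1:ℝ)/2) ^ (n + 1 - (i + 1)) =
            ∑ i ∈ Finset.range n, ((1:ℝ)/2) ^ (n - i) := by
          apply Finset.sum_congr rfl
          intro i _
          congr 1
          omega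
        rw [this, ih, Nat.sub_zero, pow_succ]; ring
    rw [e3]
    have : (0:ℝ) < (1/2) ^ n := by positivity
    nlinarith
  set E := Real.exp (K * C) with hE
  have hEpos : 0 < E := Real.exp_pos _
  have hderiv : ∀ n, ∀ ξ ∈ Ioo (y n) q, A.d (h ^ n) ξ * (q - y n) ≤ E * (q - x) := by
    intro n ξ hξ
    obtain ⟨ξ', hξ', hmv⟩ := A.mvt (h ^ n) (hyI n) hq (hymem n).2
    have hξI : ξ ∈ Icc a b := A.mem_of_mem_Ioo (hyI n) hq hξ
    have hξ'I : ξ' ∈ Icc a b := A.mem_of_mem_Ioo (hyI n) hq hξ'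
    have hhn : A.f (h ^ n) (y n) = x := A.f_inv _ hxI
    rw [A.fix_pow h n hq hhq, hhn] at hmv
    have h1 : |Real.log (A.d (h ^ n) ξ) - Real.log (A.d (h ^ n) ξ')| ≤ K * C := by
      refine le_trans (A.dist_pow h hK hξI hξ'I n) ?_
      apply mul_le_mul_of_nonneg_left _ hK0
      refine le_trans ?_ (hsum n)
      apply Finset.sum_le_sum
      intro i _
      have hqi := A.fix_pow h i hq hhq
      have a1 := (A.lt_iff (h ^ i) (hyI n) hξI).mpr hξ.1
      have a2 := (A.lt_iff (h ^ i) hξI hq).mpr hξ.2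
      have a3 := (A.lt_iff (h ^ i) (hyI n) hξ'I).mpr hξ'.1
      have a4 := (A.lt_iff (h ^ i) hξ'I hq).mpr hξ'.2
      rw [hqi] at a2 a4
      rw [abs_le]; constructor <;> linarith
    have h2 := le_exp_mul (A.d_pos _ _ hξI) (A.d_pos _ _ hξ'I) h1
    calc A.d (h ^ n) ξ * (q - y n) ≤ (E * A.d (h ^ n) ξ') * (q - y n) :=
          mul_le_mul_of_nonneg_right h2 (hDpos n).le
      _ = E * (A.d (h ^ n) ξ' * (q - y n)) := by ring
      _ = E * (q - x) := by rw [← hmv]
  -- final estimate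
  have hqx : 0 < q - x := by linarith [hx.2]
  have hfin : ∀ ε > 0, A.f u x - x ≤ ε * (E * (q - x) * C ^ k) := by
    intro ε hε
    have hylim : Tendsto y atTop (𝓝 q) := by
      have h1 : Tendsto (fun n : ℕ => q - C * (1/2) ^ n) atTop (𝓝 (q - C * 0)) :=
        (tendsto_const_nhds.mul (tendsto_pow_atTop_nhds_zero_of_lt_one (by norm_num)
          (by norm_num))).const_sub q
      rw [mul_zero, sub_zero] at h1
      apply tendsto_of_tendsto_of_tendsto_of_le_of_le h1 tendsto_const_nhds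
      · intro n
        have h2 : (q - y n) ≤ C / (m:ℝ) ^ n := by
          rw [le_div_iff₀ (by positivity)]; exact hD n
        have h3 : C / (m:ℝ) ^ n ≤ C * (1/2) ^ n := by
          rw [div_eq_mul_inv, one_div, inv_pow]
          apply mul_le_mul_of_nonneg_left _ hC0
          apply inv_anti₀ (by positivity)
          exact pow_le_pow_left₀ (by norm_num) hmR _
        show q - C * (1/2) ^ n ≤ y n
        linarith
      · intro n; exact (hymem n).2.le
    have hev := (isLittleO_iff.mp flat) hε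
    obtain ⟨δ, hδ, hball⟩ := Metric.eventually_nhds_iff_ball.mp hev
    have h4 : ∀ᶠ n in atTop, y n ∈ Metric.ball q δ := hylim.eventually (Metric.ball_mem_nhds q hδ)
    obtain ⟨n, hn⟩ := h4.exists
    rw [Metric.mem_ball, Real.dist_eq, abs_of_nonpos (by linarith [hDpos n])] at hn
    have hPn := hP n
    have hz : ∀ z ∈ Ico (y n) q, A.f u z - z ≤ ε * (q - y n) ^ (k + 1) := by
      intro z hz
      have h5 : z ∈ Metric.ball q δ := by
        rw [Metric.mem_ball, Real.dist_eq, abs_of_nonpos (by linarith [hz.2])]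
        linarith [hz.1]
      have h6 := hball z h5
      rw [Real.norm_eq_abs, norm_pow, Real.norm_eq_abs,
        abs_of_nonpos (by linarith [hz.2] : z - q ≤ 0)] at h6
      refine (le_abs_self _).trans (h6.trans ?_)
      have h7 : 0 ≤ -(z - q) := by linarith [hz.2]
      have h8 : -(z - q) ≤ q - y n := by linarith [hz.1]
      gcongr
    have hsum2 : A.f (u ^ (M ^ n)) (y n) - y n ≤ (M ^ n : ℕ) * (ε * (q - y n) ^ (k + 1)) := by
      have h9 : ∀ j : ℕ, A.f (u ^ j) (y n) - y n ≤ (j : ℝ) * (ε * (q - y n) ^ (k + 1)) := by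
        intro j
        induction j with
        | zero => rw [pow_zero, A.f_one _ (hyI n)]; simp
        | succ j ih =>
          rw [A.f_pow_succ u j (hyI n)]
          have h10 := hz _ (hupow (y n) (hymem n) hPn.1 j)
          push_cast
          linarith
      exact h9 _
    -- mean value theorem for `h ^ n`
    have hlt : y n < A.f (u ^ (M ^ n)) (y n) :=
      A.lt_pow u (Nat.one_le_pow _ _ (by omega)) (hyI n) hPn.1
    have hmem2 := hupow (y n) (hymem n) hPn.1 (M ^ n)
    have hI2 : A.f (u ^ (M ^ n)) (y n) ∈ Icc a b := A.f_mem _ _ (hyI n)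
    obtain ⟨ξ, hξ, hmv⟩ := A.mvt (h ^ n) (hyI n) hI2 hlt
    have e1 : A.f (h ^ n) (A.f (u ^ (M ^ n)) (y n)) = A.f u x := by
      rw [hPn.2, A.f_inv _ (A.f_mem _ _ hxI)]
    have e2 : A.f (h ^ n) (y n) = x := A.f_inv _ hxI
    rw [e1, e2] at hmv
    have hξ2 : ξ ∈ Ioo (y n) q := ⟨hξ.1, hξ.2.trans hmem2.2⟩
    have hξI : ξ ∈ Icc a b := A.mem_of_mem_Ioo (hyI n) hq hξ2
    have hdpos := A.d_pos (h ^ n) ξ hξI
    have hMn : ((M ^ n : ℕ) : ℝ) = ((m:ℝ) ^ n) ^ k := by
      rw [hM]; push_cast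
      rw [← pow_mul, ← pow_mul, mul_comm]
    calc A.f u x - x = A.d (h ^ n) ξ * (A.f (u ^ (M ^ n)) (y n) - y n) := hmv
      _ ≤ A.d (h ^ n) ξ * ((M ^ n : ℕ) * (ε * (q - y n) ^ (k + 1))) :=
          mul_le_mul_of_nonneg_left hsum2 hdpos.le
      _ = (A.d (h ^ n) ξ * (q - y n)) * (ε * ((q - y n) * (m:ℝ) ^ n) ^ k) := by
          rw [hMn, mul_pow]; ring
      _ ≤ (E * (q - x)) * (ε * C ^ k) := by
          have h11 : 0 ≤ (q - y n) * (m:ℝ) ^ n := by
            have := hDpos n; positivity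
          apply mul_le_mul (hderiv n ξ hξ2) _ (by positivity) (by positivity)
          apply mul_le_mul_of_nonneg_left _ hε.le
          exact pow_le_pow_left₀ h11 (hD n) k
      _ = ε * (E * (q - x) * C ^ k) := by ring
  -- conclusion
  have hpos : 0 < A.f u x - x := by linarith
  set G := E * (q - x) * C ^ k with hG
  have hG0 : 0 ≤ G := by rw [hG]; positivity
  have := hfin ((A.f u x - x) / (2 * (G + 1))) (by positivity)
  have h12 : (A.f u x - x) / (2 * (G + 1)) * G < A.f u x - x := by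
    rw [div_mul_eq_mul_div, div_lt_iff₀ (by positivity)]
    nlinarith
  linarith

/-- reflection -/
def reflect : Act Γ (Icc (-b) (-a)) where
  f := fun g x => -A.f g (-x)
  d := fun g x => A.d g (-x)
  ord := ordConnected_Icc
  f_one := by
    intro x hx
    have : -x ∈ Icc a b := ⟨by linarith [hx.2], by linarith [hx.1]⟩
    rw [A.f_one _ this, neg_neg]
  f_mul := by
    intro g g' x hx
    have : -x ∈ Icc a b := ⟨by linarith [hx.2], by linarith [hx.1]⟩
    simp only [neg_neg]
    rw [A.f_mul _ _ _ this]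
  f_mem := by
    intro g x hx
    have : -x ∈ Icc a b := ⟨by linarith [hx.2], by linarith [hx.1]⟩
    have h1 := A.f_mem g _ this
    exact ⟨by linarith [h1.2], by linarith [h1.1]⟩
  f_mono := by
    intro g x hx y hy hxy
    have h1 : -x ∈ Icc a b := ⟨by linarith [hx.2], by linarith [hx.1]⟩
    have h2 : -y ∈ Icc a b := ⟨by linarith [hy.2], by linarith [hy.1]⟩
    have := (A.lt_iff g h2 h1).mpr (by linarith)
    simp only
    linarith
  d_mul := by
    intro g g' x hx
    have : -x ∈ Icc a b := ⟨by linarith [hx.2], by linarith [hx.1]⟩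
    simp only [neg_neg]
    rw [A.d_mul _ _ _ this]
  d_pos := by
    intro g x hx
    have : -x ∈ Icc a b := ⟨by linarith [hx.2], by linarith [hx.1]⟩
    exact A.d_pos g _ this
  hasDeriv := by
    intro g x hx
    have h1 : -x ∈ interior (Icc a b) := by
      rw [interior_Icc] at hx ⊢
      exact ⟨by linarith [hx.2], by linarith [hx.1]⟩
    have h2 := A.hasDeriv g (-x) h1
    have h3 := (h2.comp x (hasDerivAt_neg x)).neg
    have h4 : -(A.d g (-x) * -1) = A.d g (-x) := by ring
    rw [h4] at h3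
    exact h3
  cont := by
    intro g
    apply ContinuousOn.neg
    apply (A.cont g).comp continuousOn_neg
    intro x hx
    exact ⟨by linarith [hx.2], by linarith [hx.1]⟩
  lip := by
    intro g
    obtain ⟨K, hK0, hK⟩ := A.lip g
    refine ⟨K, hK0, fun x hx y hy => ?_⟩
    have h1 : -x ∈ Icc a b := ⟨by linarith [hx.2], by linarith [hx.1]⟩
    have h2 : -y ∈ Icc a b := ⟨by linarith [hy.2], by linarith [hy.1]⟩
    have := hK _ h1 _ h2
    rwa [show -x - -y = -(x - y) by ring, abs_neg] at this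
  loglip := by
    intro g
    obtain ⟨K, hK0, hK⟩ := A.loglip g
    refine ⟨K, hK0, fun x hx y hy => ?_⟩
    have h1 : -x ∈ Icc a b := ⟨by linarith [hx.2], by linarith [hx.1]⟩
    have h2 : -y ∈ Icc a b := ⟨by linarith [hy.2], by linarith [hy.1]⟩
    have := hK _ h1 _ h2
    rwa [show -x - -y = -(x - y) by ring, abs_neg] at this
  bdd := by
    intro g
    obtain ⟨K, hK⟩ := A.bdd g
    refine ⟨K, fun x hx => ?_⟩
    have h1 : -x ∈ Icc a b := ⟨by linarith [hx.2], by linarith [hx.1]⟩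
    exact hK _ h1

end Act

end Pool.Agent.H63.Crit
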