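import Pool.Agent.H63.Crit.Kopell

/-!
# Centralisers of Baumslag-Solitar pairs on a compact interval
-/

namespace Pool.Agent.H63.Crit

open Set Filter Topology

/-- powers in a Baumslag-Solitar pair -/
lemma bs_pow {Γ : Type*} [Group Γ] {h T : Γ} {m : ℕ} (hBS : h * T * h⁻¹ = T ^ m) (n : ℕ) :
    h ^ n * T * (h ^ n)⁻¹ = T ^ (m ^ n) := by
  induction n with
  | zero => simp
  | succ n ih =>
    have : h ^ (n + 1) * T * (h ^ (n + 1))⁻¹ = h * (h ^ n * T * (h ^ n)⁻¹) * h⁻¹ := by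
      rw [pow_succ']; group
    rw [this, ih, pow_succ, pow_mul]
    have h2 : ∀ j : ℕ, h * T ^ j * h⁻¹ = (T ^ m) ^ j := by
      intro j
      rw [← hBS]
      induction j with
      | zero => simp
      | succ j ihj => rw [pow_succ, pow_succ, ← ihj]; group
    rw [h2, ← pow_mul, ← pow_mul, mul_comm]

lemma bs_inv {Γ : Type*} [Group Γ] {h T : Γ} {m : ℕ} (hBS : h * T * h⁻¹ = T ^ m) :
    h * T⁻¹ * h⁻¹ = T⁻¹ ^ m := by
  rw [inv_pow, ← hBS]; group

lemma bs_comm {Γ : Type*} [Group Γ] {h T : Γ} {m : ℕ} (hBS : h * T * h⁻¹ = T ^ m) (j : ℕ) :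
    h * T ^ j = T ^ (m * j) * h := by
  have h2 : ∀ j : ℕ, h * T ^ j * h⁻¹ = (T ^ m) ^ j := by
    intro j
    rw [← hBS]
    induction j with
    | zero => simp
    | succ j ihj => rw [pow_succ, pow_succ, ← ihj]; group
  rw [pow_mul, ← h2 j]; group

namespace Act

variable {Γ : Type*} [Group Γ] {a b : ℝ} (A : Act Γ (Icc a b))

lemma fix_a (hab : a ≤ b) (g : Γ) : A.f g a = a := by
  have ha : a ∈ Icc a b := ⟨le_refl _, hab⟩
  apply le_antisymm _ (A.f_mem g a ha).1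
  have h1 := (A.f_mem g⁻¹ a ha).1
  have h2 := (A.le_iff g ha (A.f_mem g⁻¹ a ha)).mpr h1
  rwa [A.f_inv g ha] at h2

lemma fix_b (hab : a ≤ b) (g : Γ) : A.f g b = b := by
  have hb : b ∈ Icc a b := ⟨hab, le_refl _⟩
  apply le_antisymm (A.f_mem g b hb).2
  have h1 := (A.f_mem g⁻¹ b hb).2
  have h2 := (A.le_iff g (A.f_mem g⁻¹ b hb) hb).mpr h1
  rwa [A.f_inv g hb] at h2

/-- components of the support, points moving to the left -/
lemma component (g : Γ) {x : ℝ} (hx : x ∈ Icc a b) (h : A.f g x < x) :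
    ∃ z ∈ Icc a b, ∃ w ∈ Icc a b, x ∈ Ioo z w ∧ A.f g z = z ∧ A.f g w = w ∧
      ∀ y ∈ Ioo z w, A.f g y < y := by
  have hab : a ≤ b := hx.1.trans hx.2
  have ha : a ∈ Icc a b := ⟨le_refl _, hab⟩
  have hb : b ∈ Icc a b := ⟨hab, le_refl _⟩
  have h' := A.lt_inv g hx h
  obtain ⟨z, hz1, hz2, hz3⟩ := A.exists_left g⁻¹ ha hx hx.1 (A.fix_a hab _) h'
  obtain ⟨w, hw1, hw2, hw3⟩ := A.exists_right g⁻¹ hb hx hx.2 (A.fix_b hab _) h'
  have hzI : z ∈ Icc a b := ⟨hz1.1, hz1.2.le.trans hx.2⟩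
  have hwI : w ∈ Icc a b := ⟨hx.1.trans hw1.1.le, hw1.2⟩
  refine ⟨z, hzI, w, hwI, ⟨hz1.2, hw1.1⟩, (A.fix_inv_iff g hzI).mp hz2,
    (A.fix_inv_iff g hwI).mp hw2, ?_⟩
  intro y hy
  have hyI : y ∈ Icc a b := A.mem_of_mem_Ioo hzI hwI hy
  have hy' : y < A.f g⁻¹ y := by
    rcases le_total y x with h1 | h1
    · exact hz3 y ⟨hy.1, h1⟩
    · exact hw3 y ⟨h1, hy.2⟩
  have := A.inv_lt g⁻¹ hyI hy'
  rwa [inv_inv] at this

/-- an element commuting with `g` fixes the ends of the components of the support of `g` -/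
lemma comm_fix {g v : Γ} (hc : Commute g v) {z w : ℝ} (hz : z ∈ Icc a b) (hw : w ∈ Icc a b)
    (hzw : z < w) (hgz : A.f g z = z) (hgw : A.f g w = w) (hg : ∀ y ∈ Ioo z w, A.f g y < y) :
    A.f v z = z ∧ A.f v w = w := by
  have key1 : ∀ v : Γ, Commute g v → ¬ A.f v z < z := by
    intro v hc hlt
    obtain ⟨c, hcI, d, hdI, hcd, hvc, hvd, hv⟩ := A.component v hz hlt
    have hid := A.kopell (F := v) (G := g) hc.symm hcI hdI hvc hvd hv hcd hgz
    set y := (z + min w d) / 2 with hy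
    have h1 : z < min w d := lt_min hzw hcd.2
    have hy1 : z < y := by linarith
    have hy2 : y < min w d := by linarith
    have hyw : y < w := hy2.trans_le (min_le_left _ _)
    have hyd : y < d := hy2.trans_le (min_le_right _ _)
    have e1 := hid y ⟨hcd.1.trans hy1, hyd⟩
    have e2 := hg y ⟨hy1, hyw⟩
    linarith
  have key2 : ∀ v : Γ, Commute g v → ¬ A.f v w < w := by
    intro v hc hlt
    obtain ⟨c, hcI, d, hdI, hcd, hvc, hvd, hv⟩ := A.component v hw hlt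
    have hid := A.kopell (F := v) (G := g) hc.symm hcI hdI hvc hvd hv hcd hgw
    set y := (w + max z c) / 2 with hy
    have h1 : max z c < w := max_lt hzw hcd.1
    have hy1 : y < w := by linarith
    have hy2 : max z c < y := by linarith
    have hyw : z < y := lt_of_le_of_lt (le_max_left _ _) hy2
    have hyd : c < y := lt_of_le_of_lt (le_max_right _ _) hy2
    have e1 := hid y ⟨hyd, hy1.trans hcd.2⟩
    have e2 := hg y ⟨hyw, hy1⟩
    linarith
  constructor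
  · rcases lt_trichotomy (A.f v z) z with h | h | h
    · exact absurd h (key1 v hc)
    · exact h
    · exact absurd (A.inv_lt v hz h) (key1 v⁻¹ hc.inv_right)
  · rcases lt_trichotomy (A.f v w) w with h | h | h
    · exact absurd h (key2 v hc)
    · exact h
    · exact absurd (A.inv_lt v hw h) (key2 v⁻¹ hc.inv_right)

/-- comparison of commuting elements -/
lemma compare {g T : Γ} (hc : Commute g T) {z w : ℝ} (hz : z ∈ Icc a b) (hw : w ∈ Icc a b)
    (hzw : z < w) (hgz : A.f g z = z) (hgw : A.f g w = w) (hg : ∀ y ∈ Ioo z w, A.f g y < y)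
    (hTz : A.f T z = z) : ∃ n : ℕ, ∀ y ∈ Ioo z w, A.f (g ^ n) y ≤ A.f T y := by
  set x₀ := (z + w) / 2 with hx₀def
  have hx₀ : x₀ ∈ Ioo z w := ⟨by linarith, by linarith⟩
  have hx₀I : x₀ ∈ Icc a b := A.mem_of_mem_Ioo hz hw hx₀
  have hgx₀I := A.f_mem g x₀ hx₀I
  have hzgx : z < A.f g x₀ := by
    have := (A.lt_iff g hz hx₀I).mpr hx₀.1
    rwa [hgz] at this
  have hzT : z < A.f T (A.f g x₀) := by
    have := (A.lt_iff T hz hgx₀I).mpr hzgx
    rwa [hTz] at this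
  have hlim : ∀ y ∈ Ioo z w, Tendsto (fun n : ℕ => A.f (g ^ n) y) atTop (𝓝 z) := by
    intro y hy
    exact A.tendsto_left g hz (A.mem_of_mem_Ioo hz hw hy) hy.1 hgz
      (fun x hx => hg x ⟨hx.1, lt_of_le_of_lt hx.2 hy.2⟩)
  obtain ⟨n, hn⟩ := ((hlim x₀ hx₀).eventually (gt_mem_nhds hzT)).exists
  refine ⟨n, ?_⟩
  intro y hy
  have hyI : y ∈ Icc a b := A.mem_of_mem_Ioo hz hw hy
  classical
  rcases le_or_gt y x₀ with hyx | hyx
  · -- `y` to the left of `x₀`
    have hex : ∃ i : ℕ, A.f (g ^ (i + 1)) x₀ ≤ y := by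
      have h1 := ((hlim x₀ hx₀).comp (tendsto_add_atTop_nat 1)).eventually (gt_mem_nhds hy.1)
      obtain ⟨i, hi⟩ := h1.exists
      exact ⟨i, le_of_lt hi⟩
    set i := Nat.find hex with hi
    have hi1 : A.f (g ^ (i + 1)) x₀ ≤ y := Nat.find_spec hex
    have hi2 : y ≤ A.f (g ^ i) x₀ := by
      rcases Nat.eq_zero_or_pos i with h | h
      · rw [h, pow_zero, A.f_one x₀ hx₀I]; exact hyx
      · have := Nat.find_min hex (m := i - 1) (by omega)
        rw [show i - 1 + 1 = i by omega] at this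
        exact (not_le.mp this).le
    calc A.f (g ^ n) y ≤ A.f (g ^ n) (A.f (g ^ i) x₀) :=
          (A.le_iff _ hyI (A.f_mem _ _ hx₀I)).mpr hi2
      _ = A.f (g ^ i) (A.f (g ^ n) x₀) :=
          A.comm_f (Commute.pow_pow_self g n i) hx₀I
      _ ≤ A.f (g ^ i) (A.f T (A.f g x₀)) :=
          (A.le_iff _ (A.f_mem _ _ hx₀I) (A.f_mem _ _ hgx₀I)).mpr hn.le
      _ = A.f T (A.f (g ^ i) (A.f g x₀)) := A.comm_f (hc.pow_left i) hgx₀I
      _ = A.f T (A.f (g ^ (i + 1)) x₀) := by rw [A.f_pow_succ' g i hx₀I]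
      _ ≤ A.f T y := (A.le_iff _ (A.f_mem _ _ hx₀I) hyI).mpr hi1
  · -- `y` to the right of `x₀`
    have hex : ∃ i : ℕ, A.f (g ^ i) y ≤ x₀ := by
      obtain ⟨i, hi⟩ := ((hlim y hy).eventually (gt_mem_nhds hx₀.1)).exists
      exact ⟨i, le_of_lt hi⟩
    set i := Nat.find hex with hi
    have hi1 : A.f (g ^ i) y ≤ x₀ := Nat.find_spec hex
    have hipos : 0 < i := by
      rcases Nat.eq_zero_or_pos i with h | h
      · rw [h, pow_zero, A.f_one y hyI] at hi1
        exact absurd hi1 (not_le.mpr hyx)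
      · exact h
    have hi2 : A.f g x₀ ≤ A.f (g ^ i) y := by
      have := Nat.find_min hex (m := i - 1) (by omega)
      have h2 : x₀ ≤ A.f (g ^ (i - 1)) y := (not_le.mp this).le
      have h3 := (A.le_iff g hx₀I (A.f_mem _ _ hyI)).mpr h2
      rw [← A.f_pow_succ g (i - 1) hyI, show i - 1 + 1 = i by omega] at h3
      exact h3
    have hgyI := A.f_mem (g ^ i) y hyI
    rw [← A.le_iff (g ^ i) (A.f_mem _ _ hyI) (A.f_mem _ _ hyI)]
    calc A.f (g ^ i) (A.f (g ^ n) y) = A.f (g ^ n) (A.f (g ^ i) y) :=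
          A.comm_f (Commute.pow_pow_self g i n) hyI
      _ ≤ A.f (g ^ n) x₀ := (A.le_iff _ hgyI hx₀I).mpr hi1
      _ ≤ A.f T (A.f g x₀) := hn.le
      _ ≤ A.f T (A.f (g ^ i) y) := (A.le_iff _ hgx₀I hgyI).mpr hi2
      _ = A.f (g ^ i) (A.f T y) := A.comm_f (hc.symm.pow_right i) hyI

/-- auxiliary form of the next theorem -/
lemma toolA_aux {g h T : Γ} {m : ℕ} (hm : 2 ≤ m) (hBS : h * T * h⁻¹ = T ^ m)
    (hgh : Commute g h) (hgT : Commute g T) {x : ℝ} (hx : x ∈ Icc a b) (hgx : A.f g x < x)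
    (hTx : A.f T x < x) : False := by
  obtain ⟨z, hz, w, hw, hxzw, hgz, hgw, hg⟩ := A.component g hx hgx
  have hzw : z < w := hxzw.1.trans hxzw.2
  obtain ⟨hTz, hTw⟩ := A.comm_fix hgT hz hw hzw hgz hgw hg
  obtain ⟨hhz, hhw⟩ := A.comm_fix hgh hz hw hzw hgz hgw hg
  by_cases hex : ∃ x₁ ∈ Ioo z w, A.f T x₁ = x₁
  · obtain ⟨x₁, hx₁, hTx₁⟩ := hex
    have := A.kopell hgT hz hw hgz hgw hg hx₁ hTx₁ x hxzw
    linarith
  · push Not at hex
    obtain ⟨n, hn⟩ := A.compare hgT hz hw hzw hgz hgw hg hTz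
    -- `T` has no fixed point in the component
    obtain ⟨c, hcI, d, hdI, hcd, hTc, hTd, hT⟩ := A.component T hx hTx
    have hcz : c ≤ z := by
      by_contra hcon
      push Not at hcon
      exact hex c ⟨hcon, hcd.1.trans hxzw.2⟩ hTc
    have hzc : z ≤ c := by
      by_contra hcon
      push Not at hcon
      have := hT z ⟨hcon, hxzw.1.trans hcd.2⟩
      linarith
    have hzceq : c = z := le_antisymm hcz hzc
    have hlim := A.tendsto_left T hz hx hxzw.1 hTz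
      (fun y hy => hT y ⟨by rw [hzceq]; exact hy.1, lt_of_le_of_lt hy.2 hcd.2⟩)
    have hlim2 : Tendsto (fun j : ℕ => A.f (T ^ (m ^ j)) x) atTop (𝓝 z) :=
      hlim.comp (tendsto_pow_atTop_atTop_of_one_lt (by omega))
    have hgn : z < A.f (g ^ n) x := by
      have := (A.lt_iff (g ^ n) hz hx).mpr hxzw.1
      rwa [A.fix_pow g n hz hgz] at this
    obtain ⟨j, hj⟩ := (hlim2.eventually (gt_mem_nhds hgn)).exists
    have hxI := hx
    set y := A.f (h ^ j)⁻¹ x with hy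
    have hyI : y ∈ Icc a b := A.f_mem _ _ hx
    have hyzw : y ∈ Ioo z w := by
      have h1 := A.fix_inv _ hz (A.fix_pow h j hz hhz)
      have h2 := A.fix_inv _ hw (A.fix_pow h j hw hhw)
      constructor
      · have := (A.lt_iff (h ^ j)⁻¹ hz hx).mpr hxzw.1
        rwa [h1] at this
      · have := (A.lt_iff (h ^ j)⁻¹ hx hw).mpr hxzw.2
        rwa [h2] at this
    have h3 : A.f (T ^ (m ^ j)) x = A.f (h ^ j) (A.f T y) := by
      rw [← bs_pow hBS j, A.f_mul _ _ x hx, A.f_mul _ _ _ (A.f_mem _ _ hx)]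
    have h4 : A.f (h ^ j) (A.f (g ^ n) y) = A.f (g ^ n) x := by
      rw [A.comm_f ((hgh.pow_pow n j).symm) hyI, hy, A.f_inv _ hx]
    have h5 := (A.le_iff (h ^ j) (A.f_mem _ _ hyI) (A.f_mem _ _ hyI)).mpr (hn y hyzw)
    rw [h4, ← h3] at h5
    linarith

/-- **Centralisers.** If `g` commutes with a Baumslag-Solitar pair `(h, T)`, then the supports
of `g` and of `T` are disjoint. -/
theorem toolA {g h T : Γ} {m : ℕ} (hm : 2 ≤ m) (hBS : h * T * h⁻¹ = T ^ m)
    (hgh : Commute g h) (hgT : Commute g T) {x : ℝ} (hx : x ∈ Icc a b) :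
    A.f g x = x ∨ A.f T x = x := by
  rcases lt_trichotomy (A.f g x) x with h1 | h1 | h1
  · rcases lt_trichotomy (A.f T x) x with h2 | h2 | h2
    · exact (A.toolA_aux hm hBS hgh hgT hx h1 h2).elim
    · exact Or.inr h2
    · exact (A.toolA_aux hm (bs_inv hBS) hgh hgT.inv_right hx h1 (A.inv_lt T hx h2)).elim
  · exact Or.inl h1
  · rcases lt_trichotomy (A.f T x) x with h2 | h2 | h2
    · exact (A.toolA_aux hm hBS hgh.inv_left hgT.inv_left hx (A.inv_lt g hx h1) h2).elim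
    · exact Or.inr h2
    · exact (A.toolA_aux hm (bs_inv hBS) hgh.inv_left hgT.inv_left.inv_right hx
        (A.inv_lt g hx h1) (A.inv_lt T hx h2)).elim

end Act

end Pool.Agent.H63.Crit
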